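import Mathlib
import Pool.Agent.Lib.MP_ae5b4e_an_SM.Defs
import Pool.Agent.Lib.MP_ae5b4e_an_FLEX.Defs
import Pool.Agent.Lib.MP_ae5b4e_an_hopf.Plane

/-!
# MP_ae5b4e_an, project SMOOTH-G: curves with the involutions of a quadratic form, definitions

`γ = (X, Y)` is a closed real-analytic curve, `Q` a quadratic form in the homogeneous coordinates
which is positive on `γ`.  The involution of the tangent line at `t` fixes the tangency point and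
permutes the two zeros of `Q`; in the coordinate `u` of the point `γ t + γ' t / u` it is
`u ↦ K t - u`, `K = - A' / A`, `A t = Q (γ t)`.
-/

noncomputable section

namespace Pool.Agent.MP_ae5b4e_an_SMG

open Complex Set Filter Topology
open Pool.Agent.MP_ae5b4e_an_SM
open Pool.Agent.MP_ae5b4e_an_FLEX (brN brD Wr IsKick RegG GoodG)
open Pool.Agent.MP_ae5b4e_an_hopf (ConvexCurve)

/-- a quadratic form in homogeneous coordinates -/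
def QQ (q : Fin 6 → ℝ) (x y z : ℂ) : ℂ :=
  q 0 * x ^ 2 + q 1 * (x * y) + q 2 * y ^ 2 + q 3 * (x * z) + q 4 * (y * z) + q 5 * z ^ 2

/-- the same at a real point of the affine chart -/
def QR (q : Fin 6 → ℝ) (x y : ℝ) : ℝ :=
  q 0 * x ^ 2 + q 1 * (x * y) + q 2 * y ^ 2 + q 3 * x + q 4 * y + q 5

/-- the form on the tangent lines -/
def ql (q : Fin 6 → ℝ) (X Y : ℂ → ℂ) (t s : ℂ) : ℂ :=
  QQ q (X t + s * deriv X t) (Y t + s * deriv Y t) 1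

/-- the form on the curve -/
def qA (q : Fin 6 → ℝ) (X Y : ℂ → ℂ) (t : ℂ) : ℂ := QQ q (X t) (Y t) 1

/-- the sum of the coordinates of a point and of its image -/
def qK (q : Fin 6 → ℝ) (X Y : ℂ → ℂ) (t : ℂ) : ℂ := -deriv (qA q X Y) t / qA q X Y t

/-- The point of the tangent lines at `a` and `b` is `γ a + sg a b * γ' a`. -/
def sg (X Y : ℂ → ℂ) (a b : ℂ) : ℂ := brN X Y a b / brD X Y a b

/-- `sg a (a + h) / h`, extended to `h = 0` -/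
def Sg (X Y : ℂ → ℂ) (p : ℂ × ℂ) : ℂ := if p.2 = 0 then 1 / 2 else sg X Y p.1 (p.1 + p.2) / p.2

/-- the square root -/
def sq (z : ℂ) : ℂ := exp (log z / 2)

/-- `Ph q X Y t s / s ^ 2` -/
def Ps (q : Fin 6 → ℝ) (X Y : ℂ → ℂ) (p : ℂ × ℂ) : ℂ :=
  2 / (sq (ql q X Y p.1 p.2) * (2 * qA q X Y p.1 + deriv (qA q X Y) p.1 * p.2 +
    2 * sq (qA q X Y p.1) * sq (ql q X Y p.1 p.2)))

/-- `∫₀ˢ u Q(γ t + u γ' t) ^ (-3/2) du` -/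
def Ph (q : Fin 6 → ℝ) (X Y : ℂ → ℂ) (t s : ℂ) : ℂ := s ^ 2 * Ps q X Y (t, s)

/-- `h_b(a, b) / (b - a) ^ 2` for `b = a + v` -/
def R2 (q : Fin 6 → ℝ) (X Y : ℂ → ℂ) (C0 : ℝ) (p : ℂ × ℂ) : ℂ :=
  4 / C0 * Wr X Y (p.1 + p.2) * Sg X Y (p.1 + p.2, -p.2) ^ 2 *
    Ps q X Y (p.1 + p.2, -p.2 * Sg X Y (p.1 + p.2, -p.2))

/-- `∫₀¹ x ^ 2 f(t, x v) dx` -/
def Jf (f : ℂ × ℂ → ℂ) (p : ℂ × ℂ) : ℂ := ∫ x in (0:ℝ)..1, (x : ℂ) ^ 2 * f (p.1, x * p.2)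

/-- the generating function -/
def hg (q : Fin 6 → ℝ) (X Y : ℂ → ℂ) (C0 : ℝ) (a b : ℂ) : ℂ :=
  (b - a) ^ 3 * Jf (R2 q X Y C0) (a, b - a)

/-- the Lagrangian -/
def Lg (q : Fin 6 → ℝ) (X Y : ℂ → ℂ) (C0 : ℝ) (P : ℂ × ℂ × ℂ) : ℂ :=
  P.2.1 ^ 3 * Jf (R2 q X Y C0) (P.1, P.2.2 * P.2.1)

/-- the domain of the pairs `(t, h)` -/
def Dd (b : ℝ) : Set (ℂ × ℂ) := {p | |p.1.im| < b ∧ ‖p.2‖ < b}

/-- The complexified curve with the parameter for which `W = C₀ A ^ (3/2)`. -/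
structure Cv (q : Fin 6 → ℝ) (X Y : ℂ → ℂ) (C0 b : ℝ) : Prop where
  b0 : 0 < b
  b1 : b ≤ 1
  C00 : 0 < C0
  Xd : DifferentiableOn ℂ X {t | |t.im| < b}
  Yd : DifferentiableOn ℂ Y {t | |t.im| < b}
  Xp : ∀ t : ℂ, |t.im| < b → X (t + 1) = X t
  Yp : ∀ t : ℂ, |t.im| < b → Y (t + 1) = Y t
  Xr : ∀ t : ℝ, (X t).im = 0
  Yr : ∀ t : ℝ, (Y t).im = 0
  Ap : ∃ m : ℝ, 0 < m ∧ ∀ t : ℂ, |t.im| < b → m ≤ (qA q X Y t).re
  norm : ∀ t : ℂ, |t.im| < b → Wr X Y t = C0 * (qA q X Y t * sq (qA q X Y t))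

/-- the relation with the real curve -/
structure Rel (γ : ConvexCurve) (X Y : ℂ → ℂ) (ψ ψ' : ℝ → ℝ) : Prop where
  X : ∀ t : ℝ, X t = γ.x (ψ t)
  Y : ∀ t : ℝ, Y t = γ.y (ψ t)
  an : ∀ t, AnalyticAt ℝ ψ t
  d : ∀ t, HasDerivAt ψ (ψ' t) t
  pos : ∀ t, 0 < ψ' t
  per : ∀ t, ψ (t + 1) = ψ t + γ.T

/-- the leaves -/
structure Fol (γ : ConvexCurve) (U : ℝ → ℝ → ℝ) (κ : ℝ → ℝ) : Prop where
  cont : ContinuousOn (fun p : ℝ × ℝ => U p.1 p.2) (Ioo 0 1 ×ˢ univ)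
  per : ∀ c ∈ Ioo (0:ℝ) 1, ∀ t, U c (t + γ.T) = U c t
  simple : ∀ c ∈ Ioo (0:ℝ) 1, ∀ t t', γ.pt t (U c t) = γ.pt t' (U c t') →
    ∃ n : ℤ, t' = t + n * γ.T
  mono : ∀ c ∈ Ioo (0:ℝ) 1, ∀ c' ∈ Ioo (0:ℝ) 1, c < c' → ∀ t, U c' t < U c t
  lim : ∀ t, Tendsto (fun c => U c t) (𝓝[>] 0) atTop
  proj : ∀ c ∈ Ioo (0:ℝ) 1, ∀ t u v, u ≠ v → γ.pt t u ∈ γ.leaf U c →
    γ.pt t v ∈ γ.leaf U c → u + v = κ t

/-- the sum of the coordinates of a point and of its image, for the real curve -/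
def kR (q : Fin 6 → ℝ) (γ : ConvexCurve) (t : ℝ) : ℝ :=
  -deriv (fun t => QR q (γ.x t) (γ.y t)) t / QR q (γ.x t) (γ.y t)

/-- The Euler-Lagrange expression is the recursion. -/
def ElP (q : Fin 6 → ℝ) (X Y : ℂ → ℂ) (C0 b : ℝ) : Prop :=
  ∀ ρ x y z : ℂ, ρ ≠ 0 → ‖ρ‖ < b → |x.im| < b → |y.im| < b → ‖(z - y) / ρ - 1‖ < b →
    ‖(y - x) / ρ - 1‖ < b →
    (el (Lg q X Y C0) ρ x y z = 0 ↔ (sg X Y y x)⁻¹ + (sg X Y y z)⁻¹ = qK q X Y y)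

end Pool.Agent.MP_ae5b4e_an_SMG
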