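import Mathlib
import Pool.Agent.Lib.MP_ae5b4e_an_SMG.Defs
import Pool.Agent.Lib.MP_ae5b4e_an_FLEX.RealStep
import Pool.Agent.Lib.MP_ae5b4e_an_hopf.Plane

/-!
# MP_ae5b4e_an, project SMOOTH-G, module GJ: the closing property from the leaves
-/

noncomputable section

namespace Pool.Agent.MP_ae5b4e_an_SMG

open Complex Set Filter Topology
open Pool.Agent.MP_ae5b4e_an_SM
open Pool.Agent.MP_ae5b4e_an_FLEX (brN brD Wr IsKick RegG GoodG)
open Pool.Agent.MP_ae5b4e_an_hopf (ConvexCurve)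

section GJ
variable {q : Fin 6 → ℝ} {X Y : ℂ → ℂ} {C0 b : ℝ} {γ : ConvexCurve} {U : ℝ → ℝ → ℝ}
  {κ ψ ψ' : ℝ → ℝ}

/-- the coordinate of the intersection of the tangent lines at `s` and `t`, on the line at `s` -/
private def closeU (γ : ConvexCurve) (t s : ℝ) : ℝ := -Pool.Agent.MP_ae5b4e_an_hopf.L1 γ.Γ t s

private lemma closeU_per (γ : ConvexCurve) (k : ℤ) (t s : ℝ) :
    closeU γ (t + k * γ.T) (s + k * γ.T) = closeU γ t s := by
  have hC := γ.isCurve
  have h : Function.Periodic (fun x => closeU γ (t + x) (s + x)) γ.T := by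
    intro x
    simp only [closeU]
    rw [← add_assoc, ← add_assoc, hC.L1_per_left, hC.L1_per_right]
  have h1 := h.int_mul k 0
  simp only [zero_add, add_zero] at h1
  exact h1

/-! ### The dynamics on a leaf -/

private lemma closeg_core (hU : Fol γ U κ) {B C : ℝ} (hC0 : 0 ≤ C) (hB : ∀ θ, U (1 / 2) θ ≤ B)
    (hbd : ∀ t s : ℝ, t < s → s - t ≤ γ.T / 2 → 2 / (s - t) - C ≤ closeU γ t s)
    {θ : ℤ → ℝ} {n : ℕ} (hn : 0 < n) {k : ℤ}
    (hper : ∀ j, θ (j + n) = θ j + k * γ.T)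
    (hD0 : ∀ j, 0 < θ (j + 1) - θ j)
    (hD1 : ∀ j, θ (j + 1) - θ j < min (γ.T / 2) (1 / (|B| + C + 1)))
    (heq : ∀ j, ¬ ((n : ℤ) ∣ j) →
      closeU γ (θ j) (θ (j - 1)) + closeU γ (θ j) (θ (j + 1)) = κ (θ j)) :
    closeU γ (θ 0) (θ (-1)) + closeU γ (θ 0) (θ 1) = κ (θ 0) := by
  have hT := γ.T_pos
  have hpos : 0 < |B| + C + 1 := by positivity
  have hDT : ∀ j, θ (j + 1) < θ j + γ.T := by
    intro j
    have h1 := (hD1 j).trans_le (min_le_left _ _)
    linarith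
  -- the leaf
  obtain ⟨c, hc, hc0⟩ : ∃ c ∈ Ioo (0:ℝ) 1, U c (θ 0) = closeU γ (θ 0) (θ 1) := by
    have hlt : B < closeU γ (θ 0) (θ 1) := by
      have h0 := hD0 0
      rw [zero_add] at h0
      have h1 := (hD1 0).trans_le (min_le_left _ _)
      rw [zero_add] at h1
      have h2 := (hD1 0).trans_le (min_le_right _ _)
      rw [zero_add, lt_div_iff₀ hpos] at h2
      have h3 := hbd (θ 0) (θ 1) (by linarith) h1.le
      have h4 : |B| + C + 1 < 2 / (θ 1 - θ 0) := by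
        rw [lt_div_iff₀ h0]
        linarith
      have h5 := le_abs_self B
      linarith
    have hev : ∀ᶠ c in 𝓝[>] (0:ℝ), closeU γ (θ 0) (θ 1) ≤ U c (θ 0) :=
      (hU.lim (θ 0)).eventually_ge_atTop _
    obtain ⟨c₁, hc₁, hc₁'⟩ := (hev.and (Ioo_mem_nhdsGT (by norm_num : (0:ℝ) < 1 / 2))).exists
    have hcont : ContinuousOn (fun c => U c (θ 0)) (Icc c₁ (1 / 2)) := by
      refine hU.cont.comp (f := fun c : ℝ => ((c, θ 0) : ℝ × ℝ)) (by fun_prop) ?_
      intro c hc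
      exact ⟨⟨lt_of_lt_of_le hc₁'.1 hc.1, lt_of_le_of_lt hc.2 (by norm_num)⟩, mem_univ _⟩
    have hiv := intermediate_value_Icc' hc₁'.2.le hcont
    obtain ⟨c, hc, hc0⟩ := hiv (show closeU γ (θ 0) (θ 1) ∈
      Icc (U (1 / 2) (θ 0)) (U c₁ (θ 0)) from ⟨(hB _).trans hlt.le, hc₁⟩)
    exact ⟨c, ⟨lt_of_lt_of_le hc₁'.1 hc.1, lt_of_le_of_lt hc.2 (by norm_num)⟩, hc0⟩
  have hfeq : ∀ j, U c (θ j) = closeU γ (θ j) (θ (j + 1)) →
      U c (θ (j + 1)) = κ (θ (j + 1)) - closeU γ (θ (j + 1)) (θ j) := by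
    intro j hj
    have h1 := γ.feq_of_proj (U := U) (κ := κ) (c := c) (hU.simple c hc) (hU.proj c hc)
      (t := θ j) (s := θ (j + 1)) (by linarith [hD0 j]) (hDT j) (by
        rw [hj, closeU, neg_neg])
    rw [h1, closeU]
    ring
  -- induction
  have hind : ∀ m : ℕ, m < n → U c (θ m) = closeU γ (θ m) (θ (m + 1)) := by
    intro m
    induction m with
    | zero =>
      intro _
      simpa using hc0
    | succ m ih =>
      intro hm
      have h1 := hfeq m (ih (by omega))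
      have h2 := heq ((m : ℤ) + 1) (by
        intro hdvd
        have h3 := Int.le_of_dvd (by omega) hdvd
        omega)
      have e1 : (m : ℤ) + 1 - 1 = m := by ring
      rw [e1] at h2
      push_cast
      rw [h1, ← h2]
      ring
  obtain ⟨m, rfl⟩ : ∃ m, n = m + 1 := ⟨n - 1, by omega⟩
  have h1 := hind m (by omega)
  have e0 : θ ((m : ℤ) + 1) = θ 0 + k * γ.T := by
    have := hper 0
    push_cast at this
    simpa using this
  have e1 : θ (m : ℤ) = θ (-1) + k * γ.T := by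
    have := hper (-1)
    push_cast at this
    have e : (-1 : ℤ) + (m + 1) = m := by ring
    rwa [e] at this
  have e2 : U c (θ (-1) + k * γ.T) = U c (θ (-1)) := by
    have h2 : Function.Periodic (U c) γ.T := hU.per c hc
    exact h2.int_mul k _
  rw [e0, e1, e2, closeU_per] at h1
  have h2 := hfeq (-1) (by simpa using h1)
  simp only [neg_add_cancel] at h2
  rw [hc0] at h2
  linarith

/-! ### Transfer to the complex curve -/

private lemma closeg_deriv {Z : ℂ → ℂ} {z z' : ℝ → ℝ} {b : ℝ} (hb : 0 < b)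
    (hZ : DifferentiableOn ℂ Z {t | |t.im| < b}) (hz : ∀ t, HasDerivAt z (z' t) t)
    (hd : ∀ t, HasDerivAt ψ (ψ' t) t) (h : ∀ t : ℝ, Z t = z (ψ t)) (t : ℝ) :
    deriv Z t = ((z' (ψ t) * ψ' t : ℝ) : ℂ) := by
  have hopen : IsOpen {t : ℂ | |t.im| < b} :=
    isOpen_lt (continuous_abs.comp continuous_im) continuous_const
  have hmem : (t : ℂ) ∈ {t : ℂ | |t.im| < b} := by simpa using hb
  have h1 : HasDerivAt Z (deriv Z t) (t : ℂ) :=
    ((hZ (t : ℂ) hmem).differentiableAt (hopen.mem_nhds hmem)).hasDerivAt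
  have e3 : HasDerivAt (fun s : ℝ => Z s) (deriv Z t) t := h1.comp_ofReal
  have e4 : HasDerivAt (fun s : ℝ => ((z (ψ s) : ℝ) : ℂ)) ((z' (ψ t) * ψ' t : ℝ) : ℂ) t :=
    ((hz (ψ t)).comp t (hd t)).ofReal_comp
  have e5 : (fun s : ℝ => Z s) = fun s : ℝ => ((z (ψ s) : ℝ) : ℂ) := funext h
  rw [e5] at e3
  exact e3.unique e4

private lemma closeg_sg (h : Cv q X Y C0 b) (hR : Rel γ X Y ψ ψ') (t s : ℝ) :
    (sg X Y t s)⁻¹ = ((ψ' t * closeU γ (ψ t) (ψ s) : ℝ) : ℂ) := by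
  have hX := closeg_deriv h.b0 h.Xd γ.hd_x hR.d hR.X
  have hY := closeg_deriv h.b0 h.Yd γ.hd_y hR.d hR.Y
  have hs : ((ψ' s : ℝ) : ℂ) ≠ 0 := by exact_mod_cast (hR.pos s).ne'
  have e1 : brN X Y t s = ((Pool.Agent.MP_ae5b4e_an_hopf.dd γ.Γ (ψ t) (ψ s) : ℝ) : ℂ) *
      ((ψ' s : ℝ) : ℂ) := by
    rw [γ.dd_Γ]
    unfold brN
    rw [hX, hY, hR.X, hR.X, hR.Y, hR.Y]
    push_cast
    ring
  have e2 : brD X Y t s = -((Pool.Agent.MP_ae5b4e_an_hopf.ddx γ.Γ (ψ t) (ψ s) : ℝ) : ℂ) *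
      ((ψ' t : ℝ) : ℂ) * ((ψ' s : ℝ) : ℂ) := by
    have e3 : Pool.Agent.MP_ae5b4e_an_hopf.ddx γ.Γ (ψ t) (ψ s) =
        -(deriv γ.x (ψ t) * deriv γ.y (ψ s) - deriv γ.y (ψ t) * deriv γ.x (ψ s)) := by
      unfold Pool.Agent.MP_ae5b4e_an_hopf.ddx Pool.Agent.MP_ae5b4e_an_hopf.det3
      rw [γ.deriv_Γ, γ.deriv_Γ]
      simp [ConvexCurve.Γ]
      ring
    rw [e3]
    unfold brD
    rw [hX, hY, hX, hY]
    push_cast
    ring
  unfold sg
  rw [inv_div, e1, e2, mul_div_mul_right _ _ hs]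
  simp only [closeU, Pool.Agent.MP_ae5b4e_an_hopf.L1]
  push_cast
  ring

private lemma closeg_iff (h : Cv q X Y C0 b) (hR : Rel γ X Y ψ ψ')
    (hκ : ∀ t : ℝ, qK q X Y t = ((κ (ψ t) * ψ' t : ℝ) : ℂ)) (x y z : ℝ) :
    (sg X Y y x)⁻¹ + (sg X Y y z)⁻¹ = qK q X Y y ↔
      closeU γ (ψ y) (ψ x) + closeU γ (ψ y) (ψ z) = κ (ψ y) := by
  rw [closeg_sg h hR, closeg_sg h hR, hκ, ← ofReal_add, ofReal_inj]
  have h1 := (hR.pos y).ne'
  constructor
  · intro h2
    apply mul_left_cancel₀ h1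
    linarith
  · intro h2
    rw [← h2]
    ring

/-! ### The real parametrisation -/

private lemma closeg_small (hR : Rel γ X Y ψ ψ') {ε : ℝ} (hε : 0 < ε) :
    ∃ δ : ℝ, 0 < δ ∧ ∀ x y : ℝ, |y - x| < δ → |ψ y - ψ x| < ε := by
  have hc : Continuous ψ := continuous_iff_continuousAt.2 fun t => (hR.d t).continuousAt
  have hper : ∀ (n : ℤ) (t : ℝ), ψ (t + n) = ψ t + n * γ.T := by
    have h4 : Function.Periodic (fun t => ψ t - t * γ.T) 1 := by
      intro t
      simp only [hR.per]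
      ring
    intro n t
    have h5 := h4.int_mul n t
    simp only [mul_one] at h5
    linarith
  have huc : UniformContinuousOn ψ (Icc (-1) 2) :=
    isCompact_Icc.uniformContinuousOn_of_continuous hc.continuousOn
  rw [Metric.uniformContinuousOn_iff] at huc
  obtain ⟨δ, hδ, hu⟩ := huc ε hε
  refine ⟨min δ 1, lt_min hδ one_pos, ?_⟩
  intro x y hxy
  have hx1 := Int.floor_le x
  have hx2 := Int.lt_floor_add_one x
  have hxy1 : |y - x| < 1 := lt_of_lt_of_le hxy (min_le_right _ _)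
  have hxy2 : |y - x| < δ := lt_of_lt_of_le hxy (min_le_left _ _)
  rw [abs_lt] at hxy1
  have h1 := hu (x + (-⌊x⌋ : ℤ)) (by constructor <;> push_cast <;> linarith)
    (y + (-⌊x⌋ : ℤ)) (by constructor <;> push_cast <;> linarith)
    (by
      rw [Real.dist_eq]
      have e : x + ((-⌊x⌋ : ℤ) : ℝ) - (y + ((-⌊x⌋ : ℤ) : ℝ)) = -(y - x) := by ring
      rw [e, abs_neg]
      exact hxy2)
  rw [hper, hper, Real.dist_eq] at h1
  have e : ψ x + ((-⌊x⌋ : ℤ) : ℝ) * γ.T - (ψ y + ((-⌊x⌋ : ℤ) : ℝ) * γ.T) = -(ψ y - ψ x) := by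
    ring
  rw [e, abs_neg] at h1
  exact h1

private lemma closeg_bound (hU : Fol γ U κ) : ∃ B : ℝ, ∀ θ, U (1 / 2) θ ≤ B := by
  have hc : (1 / 2 : ℝ) ∈ Ioo (0:ℝ) 1 := ⟨by norm_num, by norm_num⟩
  have hcont : Continuous (fun θ => U (1 / 2) θ) := by
    have h1 : ContinuousOn (fun t : ℝ => (fun p : ℝ × ℝ => U p.1 p.2) (1 / 2, t)) univ :=
      hU.cont.comp (f := fun t : ℝ => ((1 / 2, t) : ℝ × ℝ)) (by fun_prop)
        (fun t _ => ⟨hc, mem_univ t⟩)
    exact continuousOn_univ.1 h1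
  obtain ⟨B, hB⟩ := (isCompact_Icc (a := (0:ℝ)) (b := γ.T)).bddAbove_image hcont.continuousOn
  refine ⟨B, fun θ => ?_⟩
  have hp : Function.Periodic (fun θ => U (1 / 2) θ) γ.T := hU.per _ hc
  obtain ⟨y, hy, hy'⟩ := hp.exists_mem_Ico₀ γ.T_pos θ
  have h1 : U (1 / 2) θ = U (1 / 2) y := hy'
  rw [h1]
  exact hB ⟨y, ⟨hy.1, hy.2.le⟩, rfl⟩

/-! ### The closing property -/

theorem closing_g (hU : Fol γ U κ) (h : Cv q X Y C0 b) (hR : Rel γ X Y ψ ψ')
    (hκ : ∀ t : ℝ, qK q X Y t = ((κ (ψ t) * ψ' t : ℝ) : ℂ)) {b' : ℝ} (hb' : 0 < b')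
    (hE : ElP q X Y C0 b') : ∃ b₀ : ℝ, 0 < b₀ ∧ ∀ b'' ≤ b₀, Closing (Lg q X Y C0) b'' := by
  obtain ⟨B, hB⟩ := closeg_bound hU
  obtain ⟨C, hC0, hC⟩ := Pool.Agent.MP_ae5b4e_an_FLEX.RealStep.bounds γ
  have hT := γ.T_pos
  have hpos : 0 < |B| + C + 1 := by positivity
  have hbd : ∀ t s : ℝ, t < s → s - t ≤ γ.T / 2 → 2 / (s - t) - C ≤ closeU γ t s :=
    fun t s h1 h2 => (hC t s h1 h2).1
  have hε : 0 < min (γ.T / 2) (1 / (|B| + C + 1)) := lt_min (by positivity) (by positivity)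
  obtain ⟨δ, hδ, hsm⟩ := closeg_small hR hε
  have hmono : StrictMono ψ := by
    refine strictMono_of_deriv_pos fun t => ?_
    rw [(hR.d t).deriv]
    exact hR.pos t
  refine ⟨min (min b' (1 / 2)) (δ / 2), by positivity, ?_⟩
  intro b'' hb'' n k Z hn hk hkn hZper hZd hZeq
  have hb1 : b'' ≤ b' := hb''.trans ((min_le_left _ _).trans (min_le_left _ _))
  have hb2 : b'' ≤ 1 / 2 := hb''.trans ((min_le_left _ _).trans (min_le_right _ _))
  have hb3 : b'' ≤ δ / 2 := hb''.trans (min_le_right _ _)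
  have hn0 : (0:ℝ) < n := by exact_mod_cast hn
  have hk0 : (k:ℝ) ≠ 0 := by exact_mod_cast hk
  set ρ : ℝ := (k : ℝ) / n with hρ
  have hρ0 : ρ ≠ 0 := div_ne_zero hk0 hn0.ne'
  have hcast : ((k / n : ℝ) : ℂ) = ((ρ : ℝ) : ℂ) := by rw [hρ]
  have hnorm : ∀ j : ℤ, ‖((Z (j + 1) : ℂ) - (Z j : ℂ)) / (ρ : ℂ) - 1‖ < b' := by
    intro j
    have e : ((Z (j + 1) : ℂ) - (Z j : ℂ)) / (ρ : ℂ) - 1
        = (((Z (j + 1) - Z j) / ρ - 1 : ℝ) : ℂ) := by push_cast; ring
    rw [e, Complex.norm_real, Real.norm_eq_abs]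
    exact (hZd j).trans_le hb1
  have hEl : ∀ j : ℤ, el (Lg q X Y C0) (ρ : ℂ) (Z (j - 1)) (Z j) (Z (j + 1)) = 0 ↔
      closeU γ (ψ (Z j)) (ψ (Z (j - 1))) + closeU γ (ψ (Z j)) (ψ (Z (j + 1))) = κ (ψ (Z j)) := by
    intro j
    rw [← closeg_iff h hR hκ]
    refine hE _ _ _ _ (by exact_mod_cast hρ0) ?_ (by simpa using hb') (by simpa using hb')
      (hnorm j) ?_
    · rw [Complex.norm_real, Real.norm_eq_abs]
      exact hkn.trans_le hb1
    · have := hnorm (j - 1)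
      rwa [sub_add_cancel] at this
  set θ : ℤ → ℝ := fun j => ψ (Z j) with hθ
  have hθper : ∀ j : ℤ, θ (j + n) = θ j + k * γ.T := by
    have h4 : Function.Periodic (fun t : ℝ => ψ t - t * γ.T) 1 := by
      intro t
      simp only [hR.per]
      ring
    intro j
    have h5 := h4.int_mul k (Z j)
    simp only [mul_one] at h5
    simp only [hθ, hZper]
    linarith
  have heq : ∀ j : ℤ, ¬ ((n : ℤ) ∣ j) →
      closeU γ (θ j) (θ (j - 1)) + closeU γ (θ j) (θ (j + 1)) = κ (θ j) := by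
    intro j hj
    exact (hEl j).1 (hZeq j hj)
  have hgoal : closeU γ (θ 0) (θ (-1)) + closeU γ (θ 0) (θ 1) = κ (θ 0) →
      el (Lg q X Y C0) ((k / n : ℝ) : ℂ) (Z (-1)) (Z 0) (Z 1) = 0 := by
    intro h1
    have h2 := hEl 0
    simp only [zero_sub, zero_add] at h2
    exact h2.2 h1
  apply hgoal
  rcases lt_or_gt_of_ne hk with hneg | hpos
  · -- `k < 0`
    have hkneg : (k:ℝ) < 0 := by exact_mod_cast hneg
    have hρneg : ρ < 0 := div_neg_of_neg_of_pos hkneg hn0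
    have hstep : ∀ j : ℤ, Z (j + 1) < Z j ∧ |Z j - Z (j + 1)| < δ := by
      intro j
      have h1 := (hZd j).trans_le hb2
      rw [abs_lt] at h1
      have h2 : 1 / 2 < (Z (j + 1) - Z j) / ρ := by linarith
      have h3 : (Z (j + 1) - Z j) / ρ < 3 / 2 := by linarith
      rw [lt_div_iff_of_neg hρneg] at h2
      rw [div_lt_iff_of_neg hρneg] at h3
      have h4 : -ρ < δ / 2 := by
        have := hkn.trans_le hb3
        rwa [abs_of_neg hρneg] at this
      refine ⟨by linarith, ?_⟩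
      rw [abs_lt]
      constructor <;> linarith
    have hcore := closeg_core hU hC0 hB hbd (θ := fun j => θ (-j)) hn (k := -k) ?_ ?_ ?_ ?_
    · simp only [neg_zero, neg_neg] at hcore
      linarith
    · intro j
      have h1 := hθper (-(j + n))
      have e : -(j + (n : ℤ)) + n = -j := by ring
      rw [e] at h1
      push_cast
      linarith
    · intro j
      have h1 := (hstep (-(j + 1))).1
      have e : -(j + 1) + 1 = -j := by ring
      rw [e] at h1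
      have h2 := hmono h1
      simp only [hθ]
      linarith
    · intro j
      have h1 := (hstep (-(j + 1))).2
      have e : -(j + 1) + 1 = -j := by ring
      rw [e] at h1
      have h2 := hsm _ _ h1
      exact lt_of_le_of_lt (le_abs_self _) h2
    · intro j hj
      have h1 := heq (-j) (by rwa [dvd_neg])
      have e1 : -(j + 1) = -j - 1 := by ring
      have e2 : -(j - 1) = -j + 1 := by ring
      simp only [e1, e2]
      linarith
  · -- `0 < k`
    have hkpos : (0:ℝ) < k := by exact_mod_cast hpos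
    have hρpos : 0 < ρ := div_pos hkpos hn0
    have hstep : ∀ j : ℤ, Z j < Z (j + 1) ∧ |Z (j + 1) - Z j| < δ := by
      intro j
      have h1 := (hZd j).trans_le hb2
      rw [abs_lt] at h1
      have h2 : 1 / 2 < (Z (j + 1) - Z j) / ρ := by linarith
      have h3 : (Z (j + 1) - Z j) / ρ < 3 / 2 := by linarith
      rw [lt_div_iff₀ hρpos] at h2
      rw [div_lt_iff₀ hρpos] at h3
      have h4 : ρ < δ / 2 := by
        have := hkn.trans_le hb3
        rwa [abs_of_pos hρpos] at this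
      refine ⟨by linarith, ?_⟩
      rw [abs_lt]
      constructor <;> linarith
    refine closeg_core hU hC0 hB hbd hn hθper ?_ ?_ heq
    · intro j
      have h2 := hmono (hstep j).1
      simp only [hθ]
      linarith
    · intro j
      exact lt_of_le_of_lt (le_abs_self _) (hsm _ _ (hstep j).2)

end GJ

end Pool.Agent.MP_ae5b4e_an_SMG
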