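import Mathlib
import Pool.Agent.Lib.MP_ae5b4e_an_SMG.Defs
import Pool.Agent.Lib.MP_ae5b4e_an_FLEX.GeoM

/-!
# MP_ae5b4e_an, project SMOOTH-G, module GD: the intersection of near tangent lines
-/

noncomputable section

namespace Pool.Agent.MP_ae5b4e_an_SMG

open Complex Set Filter Topology
open Pool.Agent.MP_ae5b4e_an_SM
open Pool.Agent.MP_ae5b4e_an_FLEX (brN brD Wr IsKick RegG GoodG)
open Pool.Agent.MP_ae5b4e_an_hopf (ConvexCurve)

section GD
variable {q : Fin 6 → ℝ} {X Y : ℂ → ℂ} {C0 b : ℝ}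

private theorem geoS_open (b : ℝ) : IsOpen {t : ℂ | |t.im| < b} :=
  isOpen_lt (by fun_prop) continuous_const

private theorem geoS_an {f : ℂ → ℂ} (h : DifferentiableOn ℂ f {t | |t.im| < b}) {t : ℂ}
    (ht : |t.im| < b) : AnalyticAt ℂ f t :=
  h.analyticAt ((geoS_open b).mem_nhds ht)

private theorem geoS_Wr (h : Cv q X Y C0 b) {t : ℂ} (ht : |t.im| < b) : Wr X Y t ≠ 0 := by
  rw [h.norm t ht]
  obtain ⟨m, hm, hA⟩ := h.Ap
  have h1 : qA q X Y t ≠ 0 := by
    intro h0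
    have := hA t ht
    rw [h0] at this
    simp only [zero_re] at this
    linarith
  have h2 : sq (qA q X Y t) ≠ 0 := Complex.exp_ne_zero _
  have h3 : (C0 : ℂ) ≠ 0 := by exact_mod_cast h.C00.ne'
  exact mul_ne_zero h3 (mul_ne_zero h1 h2)

private theorem geoS_self (X Y : ℂ → ℂ) (a : ℂ) : sg X Y a a = 0 := by
  simp [sg, brN]

private theorem geoS_loc (h : Cv q X Y C0 b) {t₀ : ℂ} (ht : |t₀.im| < b) :
    AnalyticAt ℂ (Sg X Y) (t₀, 0) ∧
      ∀ᶠ p in 𝓝 ((t₀, 0) : ℂ × ℂ), p.2 ≠ 0 → brD X Y p.1 (p.1 + p.2) ≠ 0 := by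
  obtain ⟨N, D, hN, hD, he, he0⟩ :=
    Pool.Agent.MP_ae5b4e_an_FLEX.exists_ND (geoS_an h.Xd ht) (geoS_an h.Yd ht)
  have hD0 : D (t₀, 0) ≠ 0 := by
    rw [he0.self_of_nhds.2.1]
    exact geoS_Wr h ht
  have hDn : ∀ᶠ p in 𝓝 ((t₀, 0) : ℂ × ℂ), D p ≠ 0 := hD.continuousAt.eventually_ne hD0
  have he1 : ∀ᶠ p in 𝓝 ((t₀, 0) : ℂ × ℂ), N (p.1, 0) = Wr X Y p.1 / 2 ∧
      D (p.1, 0) = Wr X Y p.1 := by
    have hc : ContinuousAt (Prod.fst : ℂ × ℂ → ℂ) (t₀, 0) := continuousAt_fst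
    exact (hc.eventually he0).mono fun p hp => ⟨hp.1, hp.2.1⟩
  have him : ∀ᶠ p in 𝓝 ((t₀, 0) : ℂ × ℂ), |p.1.im| < b := by
    have hc : Continuous fun p : ℂ × ℂ => |p.1.im| := by fun_prop
    exact hc.continuousAt.eventually_lt continuousAt_const ht
  constructor
  · refine (hN.div hD hD0).congr ?_
    filter_upwards [he, he1, hDn, him] with p e e1 e2 e3
    change N p / D p = Sg X Y p
    unfold Sg
    split_ifs with hp
    · have hpp : p = (p.1, 0) := Prod.ext rfl hp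
      have hw := geoS_Wr h e3
      rw [hpp]
      rw [e1.1, e1.2]
      field_simp
    · unfold sg
      rw [e.1, e.2]
      field_simp
  · filter_upwards [he, hDn] with p e e2 hp
    rw [e.2]
    exact mul_ne_zero hp e2

private theorem geoS_per {f : ℂ → ℂ} (hf : ∀ t : ℂ, |t.im| < b → f (t + 1) = f t) (n : ℤ) :
    ∀ t : ℂ, |t.im| < b → f (t + n) = f t := by
  induction n using Int.induction_on with
  | zero => intro t _; simp
  | succ n ih =>
    intro t ht
    have h1 : t + ((n : ℤ) + 1 : ℤ) = (t + (n : ℤ)) + 1 := by push_cast; ring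
    rw [h1, hf _ (by simpa using ht), ih t ht]
  | pred n ih =>
    intro t ht
    have h1 : t + ((-(n : ℤ) : ℤ) : ℂ) = (t + ((-(n : ℤ) - 1 : ℤ) : ℂ)) + 1 := by
      push_cast
      ring
    have h2 := ih t ht
    rw [h1, hf _ (by simpa using ht)] at h2
    exact h2

private theorem geoS_deriv_per {f : ℂ → ℂ} (hf : ∀ t : ℂ, |t.im| < b → f (t + 1) = f t)
    {t : ℂ} (ht : |t.im| < b) : deriv f (t + 1) = deriv f t := by
  rw [← deriv_comp_add_const]
  apply Filter.EventuallyEq.deriv_eq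
  filter_upwards [(geoS_open b).mem_nhds ht] with s hs
  exact hf s hs

private theorem geoS_Sg_per (h : Cv q X Y C0 b) {t s : ℂ} (ht : |t.im| < b)
    (hs : |(t + s).im| < b) (n : ℤ) : Sg X Y (t + n, s) = Sg X Y (t, s) ∧
      brD X Y (t + n) (t + n + s) = brD X Y t (t + s) := by
  have e0 : t + n + s = (t + s) + n := by ring
  have e1 := geoS_per h.Xp n t ht
  have e2 := geoS_per h.Yp n t ht
  have e3 := geoS_per h.Xp n (t + s) hs
  have e4 := geoS_per h.Yp n (t + s) hs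
  have d1 := geoS_per (fun t ht => geoS_deriv_per h.Xp ht) n t ht
  have d2 := geoS_per (fun t ht => geoS_deriv_per h.Yp ht) n t ht
  have d3 := geoS_per (fun t ht => geoS_deriv_per h.Xp ht) n (t + s) hs
  have d4 := geoS_per (fun t ht => geoS_deriv_per h.Yp ht) n (t + s) hs
  constructor
  · simp only [Sg, sg, brN, brD]
    rw [e0, e1, e2, e3, e4, d1, d2, d3, d4]
  · simp only [brD]
    rw [e0, d1, d2, d3, d4]

private theorem geoS_deriv_real {f : ℂ → ℂ} (hd : DifferentiableOn ℂ f {t | |t.im| < b})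
    (hb : 0 < b) (hr : ∀ t : ℝ, (f t).im = 0) (t : ℝ) : (deriv f t).im = 0 := by
  have h1 : HasDerivAt f (deriv f t) (t : ℂ) :=
    (geoS_an hd (by simpa using hb)).differentiableAt.hasDerivAt
  have h2 : HasDerivAt (fun y : ℝ => f y) (deriv f t) t := h1.comp_ofReal
  have h3 : HasDerivAt (fun y : ℝ => (f y).im) (deriv f t).im t :=
    (Complex.imCLM.hasFDerivAt.comp_hasDerivAt t h2)
  have h4 : (fun y : ℝ => (f y).im) = fun _ => 0 := funext hr
  rw [h4] at h3
  exact h3.unique (hasDerivAt_const t 0)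

theorem sg_an (h : Cv q X Y C0 b) : ∃ b' : ℝ, 0 < b' ∧ b' ≤ b / 4 ∧
    DifferentiableOn ℂ (Sg X Y) (Dd b') ∧
    (∀ p ∈ Dd b', ‖Sg X Y p - 1 / 2‖ ≤ 1 / 8) ∧
    (∀ p ∈ Dd b', Sg X Y (p.1 + 1, p.2) = Sg X Y p) ∧
    (∀ t s : ℝ, (Sg X Y (t, s)).im = 0) ∧
    (∀ p ∈ Dd b', p.2 ≠ 0 → brD X Y p.1 (p.1 + p.2) ≠ 0) ∧
    ∀ p ∈ Dd b', sg X Y p.1 (p.1 + p.2) = p.2 * Sg X Y p := by
  have hb := h.b0
  -- the compact set
  set K : Set ℂ := Icc (0:ℝ) 1 ×ℂ Icc (-(b / 2)) (b / 2) with hK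
  have hKc : IsCompact K := isCompact_Icc.reProdIm isCompact_Icc
  have hev : ∀ᶠ s in 𝓝 (0:ℂ), ∀ t ∈ K, ‖Sg X Y (t, s) - 1 / 2‖ ≤ 1 / 8 ∧
      (s ≠ 0 → brD X Y t (t + s) ≠ 0) := by
    refine hKc.eventually_forall_of_forall_eventually
      (P := fun s t => ‖Sg X Y (t, s) - 1 / 2‖ ≤ 1 / 8 ∧ (s ≠ 0 → brD X Y t (t + s) ≠ 0)) ?_
    intro t ht
    have ht' : |t.im| < b := by
      have h1 := (Complex.mem_reProdIm.1 ht).2
      rw [abs_lt]
      exact ⟨by linarith [h1.1], by linarith [h1.2]⟩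
    obtain ⟨h1, h2⟩ := geoS_loc h ht'
    have h3 : ∀ᶠ p in 𝓝 ((t, 0) : ℂ × ℂ), ‖Sg X Y p - 1 / 2‖ ≤ 1 / 8 := by
      have hc : ContinuousAt (fun p => ‖Sg X Y p - 1 / 2‖) ((t, 0) : ℂ × ℂ) :=
        (h1.continuousAt.sub continuousAt_const).norm
      have h4 : ‖Sg X Y (t, 0) - 1 / 2‖ < 1 / 8 := by
        simp [Sg]
      exact (hc.eventually_lt continuousAt_const h4).mono fun p hp => hp.le
    have hsw : Tendsto (fun z : ℂ × ℂ => (z.2, z.1)) (𝓝 (0, t)) (𝓝 (t, 0)) :=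
      (continuous_swap.tendsto ((0, t) : ℂ × ℂ))
    filter_upwards [hsw.eventually h3, hsw.eventually h2] with z e1 e2
    exact ⟨e1, e2⟩
  obtain ⟨r, hr, hrK⟩ := Metric.eventually_nhds_iff_ball.1 hev
  -- reduction to the compact set
  have hred : ∀ p ∈ Dd (min r (b / 4)), ‖Sg X Y p - 1 / 2‖ ≤ 1 / 8 ∧
      (p.2 ≠ 0 → brD X Y p.1 (p.1 + p.2) ≠ 0) := by
    rintro ⟨t, s⟩ ⟨h1, h2⟩
    simp only at h1 h2
    have h1' : |t.im| < b / 4 := h1.trans_le (min_le_right _ _)
    have h2' : ‖s‖ < b / 4 := h2.trans_le (min_le_right _ _)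
    have h2'' : ‖s‖ < r := h2.trans_le (min_le_left _ _)
    have hts : |(t + s).im| < b := by
      rw [Complex.add_im]
      have h3 := abs_add_le t.im s.im
      have h4 := Complex.abs_im_le_norm s
      linarith
    have ht : |t.im| < b := by linarith
    set n : ℤ := -⌊t.re⌋ with hn
    obtain ⟨e1, e2⟩ := geoS_Sg_per h ht hts n
    have hmem : t + n ∈ K := by
      rw [hK, Complex.mem_reProdIm]
      have h3 := Int.floor_le t.re
      have h4 := Int.lt_floor_add_one t.re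
      have h5 := abs_lt.1 h1'
      constructor
      · have : (t + n).re = t.re - ⌊t.re⌋ := by
          rw [Complex.add_re, Complex.intCast_re, hn]
          push_cast
          ring
        rw [this]
        exact ⟨by linarith, by linarith⟩
      · have : (t + n).im = t.im := by simp [hn]
        rw [this]
        exact ⟨by linarith, by linarith⟩
    have h6 := hrK s (by simpa using h2'') (t + n) hmem
    rw [e1, e2] at h6
    exact h6
  have hr' : 0 < min r (b / 4) := lt_min hr (by linarith)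
  refine ⟨min r (b / 4), hr', min_le_right _ _, ?_, fun p hp => (hred p hp).1, ?_, ?_,
    fun p hp => (hred p hp).2, ?_⟩
  · rintro ⟨t, s⟩ hp
    obtain ⟨h1, h2⟩ := hp
    simp only at h1 h2
    have h1' : |t.im| < b / 4 := h1.trans_le (min_le_right _ _)
    have h2' : ‖s‖ < b / 4 := h2.trans_le (min_le_right _ _)
    have hts : |(t + s).im| < b := by
      rw [Complex.add_im]
      have h3 := abs_add_le t.im s.im
      have h4 := Complex.abs_im_le_norm s
      linarith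
    have ht : |t.im| < b := by linarith
    by_cases hs : s = 0
    · subst hs
      exact (geoS_loc h ht).1.differentiableAt.differentiableWithinAt
    · have hf : ∀ {f : ℂ → ℂ}, AnalyticAt ℂ f t →
          AnalyticAt ℂ (fun p : ℂ × ℂ => f p.1) (t, s) := by
        intro f hf
        exact hf.comp_of_eq analyticAt_fst rfl
      have hg : ∀ {f : ℂ → ℂ}, AnalyticAt ℂ f (t + s) →
          AnalyticAt ℂ (fun p : ℂ × ℂ => f (p.1 + p.2)) (t, s) := by
        intro f hf
        exact hf.comp_of_eq (analyticAt_fst.add analyticAt_snd) rfl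
      have hX := geoS_an h.Xd ht
      have hY := geoS_an h.Yd ht
      have hX' := geoS_an h.Xd hts
      have hY' := geoS_an h.Yd hts
      have hD : AnalyticAt ℂ (fun p : ℂ × ℂ => brD X Y p.1 (p.1 + p.2)) (t, s) :=
        ((hf hX.deriv).mul (hg hY'.deriv)).sub ((hf hY.deriv).mul (hg hX'.deriv))
      have hN : AnalyticAt ℂ (fun p : ℂ × ℂ => brN X Y p.1 (p.1 + p.2)) (t, s) :=
        (((hg hX').sub (hf hX)).mul (hg hY'.deriv)).sub
          (((hg hY').sub (hf hY)).mul (hg hX'.deriv))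
      have hD0 : brD X Y t (t + s) ≠ 0 := (hred (t, s) ⟨h1, h2⟩).2 hs
      have h3 : AnalyticAt ℂ (fun p : ℂ × ℂ =>
          brN X Y p.1 (p.1 + p.2) / brD X Y p.1 (p.1 + p.2) / p.2) (t, s) :=
        (hN.div hD hD0).div analyticAt_snd hs
      refine DifferentiableAt.differentiableWithinAt ?_
      refine (h3.congr ?_).differentiableAt
      have hne : ∀ᶠ p in 𝓝 ((t, s) : ℂ × ℂ), p.2 ≠ 0 :=
        continuousAt_snd.eventually_ne hs
      filter_upwards [hne] with p hp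
      simp only [Sg, if_neg hp, sg]
  · rintro ⟨t, s⟩ hp
    obtain ⟨h1, h2⟩ := hp
    simp only at h1 h2
    have h1' : |t.im| < b / 4 := h1.trans_le (min_le_right _ _)
    have h2' : ‖s‖ < b / 4 := h2.trans_le (min_le_right _ _)
    have hts : |(t + s).im| < b := by
      rw [Complex.add_im]
      have h3 := abs_add_le t.im s.im
      have h4 := Complex.abs_im_le_norm s
      linarith
    have ht : |t.im| < b := by linarith
    have := (geoS_Sg_per h ht hts 1).1
    simpa using this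
  · intro t s
    have r1 : ∀ x : ℝ, (starRingEnd ℂ) (X x) = X x := fun x => Complex.conj_eq_iff_im.2 (h.Xr x)
    have r2 : ∀ x : ℝ, (starRingEnd ℂ) (Y x) = Y x := fun x => Complex.conj_eq_iff_im.2 (h.Yr x)
    have r3 : ∀ x : ℝ, (starRingEnd ℂ) (deriv X x) = deriv X x :=
      fun x => Complex.conj_eq_iff_im.2 (geoS_deriv_real h.Xd hb h.Xr x)
    have r4 : ∀ x : ℝ, (starRingEnd ℂ) (deriv Y x) = deriv Y x :=
      fun x => Complex.conj_eq_iff_im.2 (geoS_deriv_real h.Yd hb h.Yr x)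
    rw [← Complex.conj_eq_iff_im]
    have hts : ((t : ℂ) + (s : ℂ)) = ((t + s : ℝ) : ℂ) := by push_cast; rfl
    unfold Sg
    split_ifs with hs
    · rw [map_div₀, map_one, Complex.conj_ofNat]
    · simp only [sg, brN, brD, hts, map_div₀, map_sub, map_mul, r1, r2, r3, r4, Complex.conj_ofReal]
  · rintro ⟨t, s⟩ hp
    by_cases hs : s = 0
    · subst hs
      simp [geoS_self]
    · simp only [Sg, if_neg hs]
      field_simp

end GD

end Pool.Agent.MP_ae5b4e_an_SMG
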