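import Mathlib
import Pool.Agent.Lib.MP_ae5b4e_an_SMG.Defs
import Pool.Agent.Lib.SCV.Osgood

/-!
# MP_ae5b4e_an, project SMOOTH-G: the integral `∫₀¹ x ^ 2 f(t, x v) dx`
-/

noncomputable section

namespace Pool.Agent.MP_ae5b4e_an_SMG

open Complex Set Filter Topology
open Pool.Agent.MP_ae5b4e_an_SM
open Pool.Agent.MP_ae5b4e_an_FLEX (brN brD Wr IsKick RegG GoodG)
open Pool.Agent.MP_ae5b4e_an_hopf (ConvexCurve)


namespace ParIntAux

variable {f : ℂ × ℂ → ℂ} {b : ℝ}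

private theorem isOpen_Dd_aux (b : ℝ) : IsOpen (Dd b) :=
  (isOpen_lt (Complex.continuous_im.comp continuous_fst).abs continuous_const).inter
    (isOpen_lt continuous_snd.norm continuous_const)

/-- the map `(t, v) ↦ (t, x v)` -/
def LL (x : ℝ) : ℂ × ℂ →L[ℂ] ℂ × ℂ :=
  (ContinuousLinearMap.fst ℂ ℂ ℂ).prod ((x : ℂ) • ContinuousLinearMap.snd ℂ ℂ ℂ)

theorem LL_apply (x : ℝ) (p : ℂ × ℂ) : LL x p = (p.1, x * p.2) := rfl

theorem continuous_LL : Continuous LL := by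
  have h0 : LL = fun x : ℝ => (ContinuousLinearMap.fst ℂ ℂ ℂ).prod (0 : ℂ × ℂ →L[ℂ] ℂ) +
      (x : ℂ) • (0 : ℂ × ℂ →L[ℂ] ℂ).prod (ContinuousLinearMap.snd ℂ ℂ ℂ) := by
    funext x
    refine ContinuousLinearMap.ext fun p => ?_
    simp [LL_apply]
  rw [h0]
  fun_prop

theorem norm_LL_le {x : ℝ} (hx : x ∈ Icc (0:ℝ) 1) : ‖LL x‖ ≤ 1 := by
  refine ContinuousLinearMap.opNorm_le_bound _ zero_le_one fun p => ?_
  rw [LL_apply, one_mul, Prod.norm_def, Prod.norm_def]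
  refine max_le_max le_rfl ?_
  rw [norm_mul, Complex.norm_real, Real.norm_eq_abs, abs_of_nonneg hx.1]
  exact mul_le_of_le_one_left (norm_nonneg _) hx.2

theorem mem_Dd {p : ℂ × ℂ} (hp : p ∈ Dd b) {x : ℝ} (hx : x ∈ Icc (0:ℝ) 1) :
    (p.1, (x : ℂ) * p.2) ∈ Dd b := by
  refine ⟨hp.1, ?_⟩
  show ‖(x : ℂ) * p.2‖ < b
  rw [norm_mul, Complex.norm_real, Real.norm_eq_abs, abs_of_nonneg hx.1]
  exact (mul_le_of_le_one_left (norm_nonneg _) hx.2).trans_lt hp.2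

theorem contOn (hf : DifferentiableOn ℂ f (Dd b)) {p : ℂ × ℂ} (hp : p ∈ Dd b) :
    ContinuousOn (fun x : ℝ => (x : ℂ) ^ 2 * f (p.1, x * p.2)) (Icc 0 1) := by
  refine ContinuousOn.mul (by fun_prop) ?_
  exact hf.continuousOn.comp (by fun_prop) fun x hx => mem_Dd hp hx

end ParIntAux

section GE
variable {f : ℂ × ℂ → ℂ} {b : ℝ}

open ParIntAux MeasureTheory

theorem jf_diff (hf : DifferentiableOn ℂ f (Dd b)) : DifferentiableOn ℂ (Jf f) (Dd b) := by
  intro p0 hp0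
  refine DifferentiableAt.differentiableWithinAt ?_
  have hopen := isOpen_Dd_aux b
  have han : AnalyticOnNhd ℂ f (Dd b) :=
    Pool.Agent.SCV.differentiableOn_analyticOnNhd _ hopen f hf
  obtain ⟨r, hr, hsub⟩ := Metric.nhds_basis_closedBall.mem_iff.1 (hopen.mem_nhds hp0)
  have hLc : Continuous fun q : (ℂ × ℂ) × ℝ => (q.1.1, (q.2 : ℂ) * q.1.2) := by fun_prop
  have hK : IsCompact ((fun q : (ℂ × ℂ) × ℝ => (q.1.1, (q.2 : ℂ) * q.1.2)) ''
      (Metric.closedBall p0 r ×ˢ Icc (0:ℝ) 1)) :=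
    ((isCompact_closedBall p0 r).prod isCompact_Icc).image hLc
  have hKsub : ((fun q : (ℂ × ℂ) × ℝ => (q.1.1, (q.2 : ℂ) * q.1.2)) ''
      (Metric.closedBall p0 r ×ˢ Icc (0:ℝ) 1)) ⊆ Dd b := by
    rintro _ ⟨⟨p, x⟩, ⟨hp, hx⟩, rfl⟩
    exact mem_Dd (hsub hp) hx
  have hfd : ContinuousOn (fderiv ℂ f) (Dd b) := han.fderiv.continuousOn
  obtain ⟨C, hC⟩ := hK.exists_bound_of_continuousOn (hfd.mono hKsub)
  have hI : uIoc (0:ℝ) 1 = Ioc 0 1 := uIoc_of_le zero_le_one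
  have hcF : ∀ p ∈ Metric.closedBall p0 r,
      AEStronglyMeasurable (fun x : ℝ => (x : ℂ) ^ 2 * f (p.1, x * p.2))
        (volume.restrict (uIoc (0:ℝ) 1)) := by
    intro p hp
    rw [hI]
    exact ((contOn hf (hsub hp)).mono Ioc_subset_Icc_self).aestronglyMeasurable measurableSet_Ioc
  have h := intervalIntegral.hasFDerivAt_integral_of_dominated_of_fderiv_le (𝕜 := ℂ)
    (μ := volume) (a := 0) (b := 1) (bound := fun _ => C)
    (F := fun (p : ℂ × ℂ) (x : ℝ) => (x : ℂ) ^ 2 * f (p.1, x * p.2))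
    (F' := fun (p : ℂ × ℂ) (x : ℝ) => (x : ℂ) ^ 2 • (fderiv ℂ f (p.1, x * p.2)).comp (LL x))
    (x₀ := p0) (s := Metric.closedBall p0 r) (Metric.closedBall_mem_nhds p0 hr) ?_ ?_ ?_ ?_ ?_ ?_
  · exact h.differentiableAt
  · filter_upwards [Metric.closedBall_mem_nhds p0 hr] with p hp
    exact hcF p hp
  · rw [intervalIntegrable_iff_integrableOn_Icc_of_le zero_le_one]
    exact (contOn hf hp0).integrableOn_Icc
  · rw [hI]
    refine ContinuousOn.aestronglyMeasurable ?_ measurableSet_Ioc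
    have hx2 : ContinuousOn (fun x : ℝ => (x : ℂ) ^ 2) (Ioc 0 1) := by fun_prop
    refine hx2.smul ?_
    refine ContinuousOn.clm_comp ?_ ?_
    · refine hfd.comp (by fun_prop) fun x hx => mem_Dd hp0 (Ioc_subset_Icc_self hx)
    · exact continuous_LL.continuousOn
  · refine Eventually.of_forall fun x hx p hp => ?_
    rw [hI] at hx
    have hx' := Ioc_subset_Icc_self hx
    have hC' := hC (p.1, (x : ℂ) * p.2) ⟨(p, x), ⟨hp, hx'⟩, rfl⟩
    have hC0 : 0 ≤ C := (norm_nonneg _).trans hC'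
    rw [norm_smul, norm_pow, Complex.norm_real, Real.norm_eq_abs, abs_of_nonneg hx'.1]
    have h1 : x ^ 2 ≤ 1 := pow_le_one₀ hx'.1 hx'.2
    have h2 : ‖(fderiv ℂ f (p.1, x * p.2)).comp (LL x)‖ ≤ C * 1 :=
      (ContinuousLinearMap.opNorm_comp_le _ _).trans
        (mul_le_mul hC' (norm_LL_le hx') (norm_nonneg _) hC0)
    calc x ^ 2 * ‖(fderiv ℂ f (p.1, x * p.2)).comp (LL x)‖ ≤ 1 * (C * 1) :=
          mul_le_mul h1 h2 (norm_nonneg _) zero_le_one
      _ = C := by ring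
  · exact intervalIntegrable_const
  · refine Eventually.of_forall fun x hx p hp => ?_
    rw [hI] at hx
    have hx' := Ioc_subset_Icc_self hx
    have h1 : HasFDerivAt f (fderiv ℂ f (p.1, (x : ℂ) * p.2)) (LL x p) :=
      (han _ (mem_Dd (hsub hp) hx')).differentiableAt.hasFDerivAt
    have h2 : HasFDerivAt (fun p : ℂ × ℂ => f (LL x p))
        ((fderiv ℂ f (p.1, x * p.2)).comp (LL x)) p := h1.comp p (LL x).hasFDerivAt
    exact h2.const_smul ((x : ℂ) ^ 2)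

theorem jf_zero (f : ℂ × ℂ → ℂ) (t : ℂ) : Jf f (t, 0) = f (t, 0) / 3 := by
  unfold Jf
  have h1 : ∀ x : ℝ, (x : ℂ) ^ 2 * f ((t, (0 : ℂ)).1, (x : ℂ) * (t, (0 : ℂ)).2) =
      (((x ^ 2 : ℝ) : ℂ)) * f (t, 0) := by
    intro x
    simp
  simp_rw [h1]
  rw [intervalIntegral.integral_mul_const, intervalIntegral.integral_ofReal, integral_pow]
  push_cast
  norm_num
  ring

theorem jf_bd {M : ℝ} (hM : ∀ p ∈ Dd b, ‖f p‖ ≤ M) {p : ℂ × ℂ} (hp : p ∈ Dd b) :
    ‖Jf f p‖ ≤ M := by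
  unfold Jf
  have h1 := intervalIntegral.norm_integral_le_of_norm_le_const (a := (0:ℝ)) (b := 1) (C := M)
    (f := fun x : ℝ => (x : ℂ) ^ 2 * f (p.1, x * p.2)) (by
      intro x hx
      rw [uIoc_of_le zero_le_one] at hx
      have hx' := Ioc_subset_Icc_self hx
      have h2 := hM _ (mem_Dd hp hx')
      have h3 : x ^ 2 ≤ 1 := pow_le_one₀ hx'.1 hx'.2
      rw [norm_mul, norm_pow, Complex.norm_real, Real.norm_eq_abs, abs_of_nonneg hx'.1]
      calc x ^ 2 * ‖f (p.1, (x : ℂ) * p.2)‖ ≤ 1 * M :=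
            mul_le_mul h3 h2 (norm_nonneg _) zero_le_one
        _ = M := one_mul M)
  simpa using h1

theorem jf_per (hper : ∀ p ∈ Dd b, f (p.1 + 1, p.2) = f p) {p : ℂ × ℂ} (hp : p ∈ Dd b) :
    Jf f (p.1 + 1, p.2) = Jf f p := by
  unfold Jf
  refine intervalIntegral.integral_congr fun x hx => ?_
  rw [uIcc_of_le zero_le_one] at hx
  show (x : ℂ) ^ 2 * f (p.1 + 1, (x : ℂ) * p.2) = (x : ℂ) ^ 2 * f (p.1, (x : ℂ) * p.2)
  rw [← hper _ (mem_Dd hp hx)]

theorem jf_real (hreal : ∀ t s : ℝ, |s| < b → (f (t, s)).im = 0) {t s : ℝ} (hs : |s| < b) :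
    (Jf f (t, s)).im = 0 := by
  have h1 : Jf f (t, s) = ((∫ x in (0:ℝ)..1, x ^ 2 * (f ((t : ℂ), ((x * s : ℝ) : ℂ))).re : ℝ) : ℂ) := by
    rw [← intervalIntegral.integral_ofReal]
    unfold Jf
    refine intervalIntegral.integral_congr fun x hx => ?_
    rw [uIcc_of_le zero_le_one] at hx
    show (x : ℂ) ^ 2 * f ((t : ℂ), (x : ℂ) * (s : ℂ)) =
      ((x ^ 2 * (f ((t : ℂ), ((x * s : ℝ) : ℂ))).re : ℝ) : ℂ)
    have h2 : |x * s| < b := by
      rw [abs_mul, abs_of_nonneg hx.1]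
      exact (mul_le_of_le_one_left (abs_nonneg _) hx.2).trans_lt hs
    have h3 : (((f ((t : ℂ), ((x * s : ℝ) : ℂ))).re : ℝ) : ℂ) = f ((t : ℂ), ((x * s : ℝ) : ℂ)) := by
      apply Complex.ext
      · simp only [ofReal_re]
      · simp only [ofReal_im, hreal t (x * s) h2]
    rw [ofReal_mul, h3]
    push_cast
    rfl
  rw [h1, ofReal_im]

theorem jf_dv (hf : DifferentiableOn ℂ f (Dd b)) {p : ℂ × ℂ} (hp : p ∈ Dd b) :
    HasDerivAt (fun v => v ^ 3 * Jf f (p.1, v)) (p.2 ^ 2 * f p) p.2 := by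
  have hmem : ∀ y ∈ Metric.ball (0:ℂ) b, (p.1, y) ∈ Dd b := fun y hy =>
    ⟨hp.1, by simpa using hy⟩
  have hg : DifferentiableOn ℂ (fun y : ℂ => y ^ 2 * f (p.1, y)) (Metric.ball 0 b) := by
    refine DifferentiableOn.mul (by fun_prop) ?_
    exact hf.comp (by fun_prop) hmem
  obtain ⟨G, hG⟩ := hg.isExactOn_ball
  have key : ∀ v ∈ Metric.ball (0:ℂ) b, v ^ 3 * Jf f (p.1, v) = G v - G 0 := by
    intro v hv
    have hv' : (p.1, v) ∈ Dd b := hmem v hv
    have hder : ∀ x ∈ uIcc (0:ℝ) 1, HasDerivAt (fun x : ℝ => G ((x : ℂ) * v))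
        (v ^ 3 * ((x : ℂ) ^ 2 * f (p.1, (x : ℂ) * v))) x := by
      intro x hx
      rw [uIcc_of_le zero_le_one] at hx
      have h1 : (x : ℂ) * v ∈ Metric.ball (0:ℂ) b := by
        have := (mem_Dd hv' hx).2
        simpa using this
      have h2 : HasDerivAt (fun z : ℂ => z * v) v (x : ℂ) := by
        simpa using (hasDerivAt_id (x : ℂ)).mul_const v
      have h3 := HasDerivAt.comp (x : ℂ) (hG _ h1) h2
      have h4 := h3.comp_ofReal
      refine h4.congr_deriv ?_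
      ring
    have h5 := intervalIntegral.integral_eq_sub_of_hasDerivAt hder (by
      rw [intervalIntegrable_iff_integrableOn_Icc_of_le zero_le_one]
      exact (continuousOn_const.mul (contOn hf hv')).integrableOn_Icc)
    rw [intervalIntegral.integral_const_mul] at h5
    simp only [ofReal_one, one_mul, ofReal_zero, zero_mul] at h5
    exact h5
  have hp2 : p.2 ∈ Metric.ball (0:ℂ) b := by simpa using hp.2
  have h6 : HasDerivAt (fun v => G v - G 0) (p.2 ^ 2 * f (p.1, p.2)) p.2 :=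
    (hG _ hp2).sub_const _
  refine h6.congr_of_eventuallyEq ?_
  filter_upwards [Metric.isOpen_ball.mem_nhds hp2] with v hv
  exact key v hv

end GE

end Pool.Agent.MP_ae5b4e_an_SMG
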