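import Mathlib
import Pool.Agent.Lib.MP_ae5b4e_an_SMG.Defs

/-!
# MP_ae5b4e_an, project SMOOTH-G: the intersection of two tangent lines, the quadratic form and
the square root
-/

noncomputable section

namespace Pool.Agent.MP_ae5b4e_an_SMG

open Complex Set Filter Topology
open Pool.Agent.MP_ae5b4e_an_SM
open Pool.Agent.MP_ae5b4e_an_FLEX (brN brD Wr IsKick RegG GoodG)
open Pool.Agent.MP_ae5b4e_an_hopf (ConvexCurve)

section GB
variable {q : Fin 6 → ℝ} {X Y : ℂ → ℂ}

theorem sg_self (X Y : ℂ → ℂ) (a : ℂ) : sg X Y a a = 0 := by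
  simp [sg, brN]

/-- the derivative of the coordinate of the intersection point in the second parameter -/
theorem hasDerivAt_sg {a b : ℂ} (hX : AnalyticAt ℂ X b) (hY : AnalyticAt ℂ Y b)
    (hD : brD X Y a b ≠ 0) :
    HasDerivAt (fun b => sg X Y a b) (-(sg X Y b a * Wr X Y b / brD X Y a b)) b := by
  have hX0 : HasDerivAt X (deriv X b) b := hX.differentiableAt.hasDerivAt
  have hY0 : HasDerivAt Y (deriv Y b) b := hY.differentiableAt.hasDerivAt
  have hX1 : HasDerivAt (deriv X) (deriv (deriv X) b) b := hX.deriv.differentiableAt.hasDerivAt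
  have hY1 : HasDerivAt (deriv Y) (deriv (deriv Y) b) b := hY.deriv.differentiableAt.hasDerivAt
  have hN : HasDerivAt (fun b => brN X Y a b)
      ((X b - X a) * deriv (deriv Y) b - (Y b - Y a) * deriv (deriv X) b) b := by
    have h := ((hX0.sub_const (X a)).mul hY1).sub ((hY0.sub_const (Y a)).mul hX1)
    refine h.congr_deriv ?_
    ring
  have hDD : HasDerivAt (fun b => brD X Y a b)
      (deriv X a * deriv (deriv Y) b - deriv Y a * deriv (deriv X) b) b :=
    (hY1.const_mul (deriv X a)).sub (hX1.const_mul (deriv Y a))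
  have h := hN.div hDD hD
  refine h.congr_deriv ?_
  have hD' : brD X Y b a = -brD X Y a b := by unfold brD; ring
  have hD0 : brD X Y b a ≠ 0 := by rw [hD']; exact neg_ne_zero.2 hD
  unfold sg
  rw [hD']
  have hk : ((X b - X a) * deriv (deriv Y) b - (Y b - Y a) * deriv (deriv X) b) * brD X Y a b -
      brN X Y a b * (deriv X a * deriv (deriv Y) b - deriv Y a * deriv (deriv X) b) =
      brN X Y b a * Wr X Y b := by
    unfold brN brD Wr
    ring
  rw [hk]
  field_simp

/-- both coordinates describe the same point -/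
theorem ql_sg {a b : ℂ} (hD : brD X Y a b ≠ 0) :
    ql q X Y a (sg X Y a b) = ql q X Y b (sg X Y b a) := by
  have hD' : brD X Y b a = -brD X Y a b := by unfold brD; ring
  have h1 : X a + sg X Y a b * deriv X a = X b + sg X Y b a * deriv X b := by
    unfold sg
    rw [hD']
    field_simp
    unfold brN brD
    ring
  have h2 : Y a + sg X Y a b * deriv Y a = Y b + sg X Y b a * deriv Y b := by
    unfold sg
    rw [hD']
    field_simp
    unfold brN brD
    ring
  unfold ql
  rw [h1, h2]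

theorem ql_zero (t : ℂ) : ql q X Y t 0 = qA q X Y t := by
  simp [ql, qA]

theorem ql_eq {t : ℂ} (hX : DifferentiableAt ℂ X t) (hY : DifferentiableAt ℂ Y t) (s : ℂ) :
    ql q X Y t s = qA q X Y t + deriv (qA q X Y) t * s +
      QQ q (deriv X t) (deriv Y t) 0 * s ^ 2 := by
  have hX0 := hX.hasDerivAt
  have hY0 := hY.hasDerivAt
  have h : HasDerivAt (qA q X Y) ((q 0 : ℂ) * (2 * X t * deriv X t) +
      q 1 * (deriv X t * Y t + X t * deriv Y t) + q 2 * (2 * Y t * deriv Y t) +
      q 3 * deriv X t + q 4 * deriv Y t) t := by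
    have h1 := (((((hX0.pow 2).const_mul (q 0 : ℂ)).add ((hX0.mul hY0).const_mul (q 1 : ℂ))).add
      ((hY0.pow 2).const_mul (q 2 : ℂ))).add ((hX0.mul_const 1).const_mul (q 3 : ℂ))).add
      ((hY0.mul_const 1).const_mul (q 4 : ℂ))
    have h2 := h1.add_const ((q 5 : ℂ) * 1 ^ 2)
    refine h2.congr_deriv ?_
    simp only [Nat.cast_ofNat, Nat.add_one_sub_one, pow_one]
    ring
  rw [h.deriv]
  unfold ql qA QQ
  ring

theorem sq_sq {z : ℂ} (hz : z ≠ 0) : sq z ^ 2 = z := by
  unfold sq
  rw [← Complex.exp_nat_mul]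
  have h : ((2 : ℕ) : ℂ) * (log z / 2) = log z := by
    push_cast
    ring
  rw [h, Complex.exp_log hz]

theorem sq_ne (z : ℂ) : sq z ≠ 0 := Complex.exp_ne_zero _

theorem sq_an {z : ℂ} (hz : 0 < z.re) : AnalyticAt ℂ sq z := by
  have h : z ∈ slitPlane := Or.inl hz
  unfold sq
  exact (((analyticAt_clog h).div_const)).cexp'

theorem sq_re {z : ℂ} (hz : 0 < z.re) : 0 < (sq z).re := by
  unfold sq
  have h1 : |z.arg| < Real.pi / 2 := Complex.abs_arg_lt_pi_div_two_iff.2 (Or.inl hz)
  rw [Complex.exp_re]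
  have h2 : (log z / 2).im = z.arg / 2 := by
    rw [show log z / 2 = log z / ((2 : ℝ) : ℂ) by norm_num, Complex.div_ofReal_im, Complex.log_im]
  rw [h2]
  refine mul_pos (Real.exp_pos _) (Real.cos_pos_of_mem_Ioo ?_)
  rw [abs_lt] at h1
  constructor
  · linarith [h1.1, Real.pi_pos]
  · linarith [h1.2, Real.pi_pos]

theorem sq_real {x : ℝ} (hx : 0 < x) : sq x = (Real.sqrt x : ℂ) := by
  unfold sq
  rw [← Complex.ofReal_log hx.le]
  have h : Real.sqrt x = Real.exp (Real.log x / 2) := by
    rw [Real.exp_half, Real.exp_log hx]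
  rw [h]
  push_cast
  ring_nf

end GB

end Pool.Agent.MP_ae5b4e_an_SMG
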