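import Pool.Agent.Lib.MP_ae5b4e_an_SMG.Defs
import Pool.Agent.Lib.MP_ae5b4e_an_LAT.NDPropag
import Pool.Agent.Lib.SCV.Osgood

/-!
# MP_ae5b4e_an, project SMOOTH-G, module GA: periodic holomorphic functions
-/

noncomputable section

namespace Pool.Agent.MP_ae5b4e_an_SMG

open Complex Set Filter Topology
open Pool.Agent.MP_ae5b4e_an_SM
open Pool.Agent.MP_ae5b4e_an_FLEX (brN brD Wr IsKick RegG GoodG)
open Pool.Agent.MP_ae5b4e_an_hopf (ConvexCurve)

section GA

theorem isOpen_Dd (b : ℝ) : IsOpen (Dd b) := by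
  have h1 : IsOpen {p : ℂ × ℂ | |p.1.im| < b} :=
    isOpen_lt (continuous_abs.comp (Complex.continuous_im.comp continuous_fst)) continuous_const
  have h2 : IsOpen {p : ℂ × ℂ | ‖p.2‖ < b} :=
    isOpen_lt (continuous_norm.comp continuous_snd) continuous_const
  exact h1.inter h2

theorem Dd_mono {b b' : ℝ} (h : b' ≤ b) : Dd b' ⊆ Dd b :=
  fun _ hp => ⟨lt_of_lt_of_le hp.1 h, lt_of_lt_of_le hp.2 h⟩

private theorem unif_per {f : ℂ × ℂ → ℂ} {b : ℝ}
    (hper : ∀ p ∈ Dd b, f (p.1 + 1, p.2) = f p) {p : ℂ × ℂ} (hp : p ∈ Dd b) (n : ℤ) :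
    f (p.1 + n, p.2) = f p := by
  have hmem : ∀ n : ℤ, ((p.1 + n, p.2) : ℂ × ℂ) ∈ Dd b := by
    intro n
    refine ⟨?_, hp.2⟩
    have h1 := hp.1
    simpa using h1
  induction n using Int.induction_on with
  | zero => simp
  | succ n ih =>
    have h1 := hper _ (hmem n)
    simp only at h1
    rw [← ih, ← h1]
    congr 2
    push_cast
    ring
  | pred n ih =>
    have h1 := hper _ (hmem (-n - 1))
    simp only at h1
    rw [← ih, ← h1]
    congr 2
    push_cast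
    ring

theorem unif {f : ℂ × ℂ → ℂ} {b b' : ℝ} (hf : DifferentiableOn ℂ f (Dd b))
    (hper : ∀ p ∈ Dd b, f (p.1 + 1, p.2) = f p) (h0 : 0 < b') (hb : b' < b) :
    ∃ C : ℝ, 0 < C ∧ (∀ p ∈ Dd b', ‖f p‖ ≤ C) ∧
      ∀ p ∈ Dd b', ‖f p - f (p.1, 0)‖ ≤ C * ‖p.2‖ := by
  obtain ⟨b1, hb1, hb2⟩ := exists_between hb
  -- the bound on the compact set
  have hbd : ∃ M : ℝ, ∀ p : ℂ × ℂ, |p.1.im| ≤ b1 → ‖p.2‖ ≤ b1 → ‖f p‖ ≤ M := by
    set K : Set (ℂ × ℂ) := (Icc (0:ℝ) 1 ×ℂ Icc (-b1) b1) ×ˢ Metric.closedBall (0:ℂ) b1 with hKdef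
    have hK : IsCompact K := (isCompact_Icc.reProdIm isCompact_Icc).prod
      (isCompact_closedBall 0 b1)
    have hsub : K ⊆ Dd b := by
      rintro p ⟨⟨_, h2⟩, h3⟩
      refine ⟨?_, ?_⟩
      · have : p.1.im ∈ Icc (-b1) b1 := h2
        exact lt_of_le_of_lt (abs_le.2 ⟨this.1, this.2⟩) hb2
      · have : ‖p.2‖ ≤ b1 := by simpa using h3
        exact lt_of_le_of_lt this hb2
    obtain ⟨M, hM⟩ := hK.exists_bound_of_continuousOn (hf.continuousOn.mono hsub)
    refine ⟨M, fun p h1 h2 => ?_⟩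
    have hp : p ∈ Dd b := ⟨lt_of_le_of_lt h1 hb2, lt_of_le_of_lt h2 hb2⟩
    have h3 := unif_per hper hp (-⌊p.1.re⌋)
    rw [← h3]
    refine hM _ ⟨?_, by simpa using h2⟩
    have e1 : (p.1 + ((-⌊p.1.re⌋ : ℤ) : ℂ)).re = p.1.re - ⌊p.1.re⌋ := by
      simp [sub_eq_add_neg]
    have e2 : (p.1 + ((-⌊p.1.re⌋ : ℤ) : ℂ)).im = p.1.im := by simp
    refine ⟨?_, ?_⟩
    · show (p.1 + ((-⌊p.1.re⌋ : ℤ) : ℂ)).re ∈ Icc (0 : ℝ) 1
      rw [e1]
      exact ⟨by linarith [Int.floor_le p.1.re], by linarith [Int.lt_floor_add_one p.1.re]⟩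
    · show (p.1 + ((-⌊p.1.re⌋ : ℤ) : ℂ)).im ∈ Icc (-b1) b1
      rw [e2]
      exact abs_le.1 h1
  obtain ⟨M, hM⟩ := hbd
  have hMnn : 0 ≤ M := by
    have := hM (0, 0) (by simpa using (h0.trans hb1).le) (by simpa using (h0.trans hb1).le)
    exact (norm_nonneg _).trans this
  set ρ := b1 - b' with hρ
  have hρ0 : 0 < ρ := by rw [hρ]; linarith
  refine ⟨M + M / ρ + 1, by positivity, ?_, ?_⟩
  · intro p hp
    have := hM p (hp.1.le.trans hb1.le) (hp.2.le.trans hb1.le)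
    have h2 : 0 ≤ M / ρ := by positivity
    linarith
  · intro p hp
    have hdiff : ∀ h ∈ Metric.ball (0 : ℂ) b, DifferentiableAt ℂ (fun h => f (p.1, h)) h := by
      intro h hh
      have hmem : ((p.1, h) : ℂ × ℂ) ∈ Dd b := by
        refine ⟨lt_trans hp.1 hb, by simpa using hh⟩
      have h1 : DifferentiableAt ℂ f (p.1, h) :=
        (hf _ hmem).differentiableAt ((isOpen_Dd b).mem_nhds hmem)
      have h2 : DifferentiableAt ℂ (fun h : ℂ => ((p.1, h) : ℂ × ℂ)) h := by fun_prop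
      exact DifferentiableAt.comp h (g := f) (f := fun h : ℂ => ((p.1, h) : ℂ × ℂ)) h1 h2
    have hder : ∀ h ∈ Metric.ball (0 : ℂ) b', ‖deriv (fun h => f (p.1, h)) h‖ ≤ M / ρ := by
      intro h hh
      have hh' : ‖h‖ < b' := by simpa using hh
      have hsub : Metric.closedBall h ρ ⊆ Metric.closedBall (0 : ℂ) b1 := by
        intro z hz
        have hz' : ‖z - h‖ ≤ ρ := by simpa [dist_eq_norm] using hz
        have : ‖z‖ ≤ b1 := by
          calc ‖z‖ = ‖(z - h) + h‖ := by ring_nf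
            _ ≤ ‖z - h‖ + ‖h‖ := norm_add_le _ _
            _ ≤ ρ + b' := add_le_add hz' hh'.le
            _ = b1 := by rw [hρ]; ring
        simpa using this
      apply Complex.norm_deriv_le_of_forall_mem_sphere_norm_le hρ0
      · apply DifferentiableOn.diffContOnCl
        rw [closure_ball _ hρ0.ne']
        intro z hz
        have hz1 : ‖z‖ ≤ b1 := by simpa using hsub hz
        exact (hdiff z (by simpa using lt_of_le_of_lt hz1 hb2)).differentiableWithinAt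
      · intro z hz
        have hz1 : ‖z‖ ≤ b1 := by simpa using hsub (Metric.sphere_subset_closedBall hz)
        exact hM (p.1, z) (hp.1.le.trans hb1.le) hz1
    have hmv := (convex_ball (0 : ℂ) b').norm_image_sub_le_of_norm_deriv_le
      (f := fun h => f (p.1, h)) (C := M / ρ) (x := 0) (y := p.2)
      (fun h hh => hdiff h (Metric.ball_subset_ball hb.le hh)) hder
      (by simpa using h0) (by simpa using hp.2)
    have h3 : ‖f p - f (p.1, 0)‖ ≤ M / ρ * ‖p.2‖ := by simpa using hmv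
    refine h3.trans ?_
    apply mul_le_mul_of_nonneg_right _ (norm_nonneg _)
    linarith

theorem div_h {f : ℂ × ℂ → ℂ} {b : ℝ} (hf : DifferentiableOn ℂ f (Dd b))
    (h0 : ∀ t : ℂ, |t.im| < b → f (t, 0) = 0) :
    ∃ g : ℂ × ℂ → ℂ, DifferentiableOn ℂ g (Dd b) ∧ (∀ p ∈ Dd b, f p = p.2 * g p) ∧
      ∀ t : ℂ, |t.im| < b → g (t, 0) = deriv (fun h => f (t, h)) 0 := by
  have hne : ∀ p ∈ Dd b, p.2 ≠ 0 → dslope (fun h => f (p.1, h)) 0 p.2 = f p / p.2 := by
    intro p hp h2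
    rw [dslope_of_ne _ h2, slope_def_field, h0 p.1 hp.1, sub_zero, sub_zero]
  refine ⟨fun p => dslope (fun h => f (p.1, h)) 0 p.2, ?_, ?_, ?_⟩
  · intro p hp
    apply DifferentiableAt.differentiableWithinAt
    by_cases h2 : p.2 = 0
    · have hpe : p = (p.1, 0) := by
        rw [← h2]
      have hfan : AnalyticAt ℂ f (p.1, 0) := by
        rw [← hpe]
        exact Pool.Agent.SCV.differentiableOn_analyticOnNhd (Dd b) (isOpen_Dd b) f hf p hp
      have hzero : ∀ᶠ x in 𝓝 p.1, f (x, 0) = 0 := by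
        have hopen : IsOpen {x : ℂ | |x.im| < b} :=
          isOpen_lt (continuous_abs.comp Complex.continuous_im) continuous_const
        filter_upwards [hopen.mem_nhds hp.1] with x hx
        exact h0 x hx
      obtain ⟨G, hG, hfG, hG0⟩ := Pool.Agent.MP_ae5b4e_an_ND.exists_div_y hfan hzero
      rw [hpe]
      apply hG.differentiableAt.congr_of_eventuallyEq
      have hG0' : ∀ᶠ q in 𝓝 ((p.1, 0) : ℂ × ℂ), G (q.1, 0) = deriv (fun y => f (q.1, y)) 0 := by
        have hc : Tendsto (fun q : ℂ × ℂ => q.1) (𝓝 (p.1, 0)) (𝓝 p.1) :=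
          continuous_fst.tendsto' _ _ rfl
        exact hc.eventually hG0
      have hmem : ∀ᶠ q in 𝓝 ((p.1, 0) : ℂ × ℂ), q ∈ Dd b :=
        (isOpen_Dd b).mem_nhds (hpe ▸ hp)
      filter_upwards [hfG, hG0', hmem] with q hq1 hq2 hq3
      by_cases hq : q.2 = 0
      · rw [hq, dslope_same, ← hq2, ← hq]
      · rw [hne q hq3 hq, hq1, mul_div_cancel_left₀ _ hq]
    · have hfd : DifferentiableAt ℂ f p := (hf p hp).differentiableAt ((isOpen_Dd b).mem_nhds hp)
      have hinv : DifferentiableAt ℂ (fun q : ℂ × ℂ => (q.2)⁻¹) p :=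
        DifferentiableAt.comp p (g := fun z : ℂ => z⁻¹) (f := fun q : ℂ × ℂ => q.2)
          (differentiableAt_inv h2) (by fun_prop)
      have hd : DifferentiableAt ℂ (fun q : ℂ × ℂ => f q / q.2) p := by
        simp only [div_eq_mul_inv]
        exact hfd.fun_mul hinv
      apply hd.congr_of_eventuallyEq
      have hnz : ∀ᶠ q in 𝓝 p, q.2 ≠ 0 := continuous_snd.continuousAt.eventually_ne h2
      filter_upwards [hnz, (isOpen_Dd b).mem_nhds hp] with q hq1 hq2
      exact hne q hq2 hq1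
  · intro p hp
    by_cases h2 : p.2 = 0
    · have hpe : p = (p.1, 0) := by
        rw [← h2]
      rw [h2, zero_mul, hpe]
      exact h0 p.1 hp.1
    · show f p = p.2 * dslope (fun h => f (p.1, h)) 0 p.2
      rw [hne p hp h2, mul_div_cancel₀ _ h2]
  · intro t _
    simp only [dslope_same]

end GA

end Pool.Agent.MP_ae5b4e_an_SMG
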