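import Mathlib
import Pool.Agent.Lib.MP_ae5b4e_an_SMG.Unif
import Pool.Agent.Lib.MP_ae5b4e_an_SMG.Tan

/-!
# MP_ae5b4e_an, project SMOOTH-G: the invariant function on the tangent lines (module GC)

`Ph t s` is a primitive, in `s`, of `s Q(γ t + s γ' t) ^ (-3/2)`, and two points of the tangent
line have the same value of `Ph t` if and only if the involution permutes them.
-/

noncomputable section

namespace Pool.Agent.MP_ae5b4e_an_SMG

open Complex Set Filter Topology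
open Pool.Agent.MP_ae5b4e_an_SM
open Pool.Agent.MP_ae5b4e_an_FLEX (brN brD Wr IsKick RegG GoodG)
open Pool.Agent.MP_ae5b4e_an_hopf (ConvexCurve)

/-! ### auxiliary facts -/

private theorem phi_strip (b : ℝ) : IsOpen {t : ℂ | |t.im| < b} :=
  isOpen_lt (by fun_prop) continuous_const

private theorem phi_per {f : ℂ → ℂ} {b : ℝ} (h : ∀ t : ℂ, |t.im| < b → f (t + 1) = f t) {t : ℂ}
    (ht : |t.im| < b) : deriv f (t + 1) = deriv f t := by
  have h1 : (fun s => f (s + 1)) =ᶠ[𝓝 t] f := by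
    filter_upwards [(phi_strip b).mem_nhds ht] with s hs
    exact h s hs
  have h2 := h1.deriv_eq
  rwa [deriv_comp_add_const] at h2

private theorem phi_fst {f : ℂ → ℂ} {b : ℝ} (hf : DifferentiableOn ℂ f {t | |t.im| < b}) :
    DifferentiableOn ℂ (fun p : ℂ × ℂ => f p.1) (Dd b) :=
  hf.comp differentiable_fst.differentiableOn fun _ hp => hp.1

section PhiAux
variable {q : Fin 6 → ℝ} {X Y : ℂ → ℂ} {C0 b : ℝ}

private theorem phi_qA (h : Cv q X Y C0 b) : DifferentiableOn ℂ (qA q X Y) {t | |t.im| < b} := by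
  unfold qA QQ
  have hX := h.Xd
  have hY := h.Yd
  fun_prop

private theorem phi_qAper (h : Cv q X Y C0 b) {t : ℂ} (ht : |t.im| < b) :
    qA q X Y (t + 1) = qA q X Y t := by
  unfold qA
  rw [h.Xp t ht, h.Yp t ht]

private theorem phi_ql (h : Cv q X Y C0 b) :
    DifferentiableOn ℂ (fun p : ℂ × ℂ => ql q X Y p.1 p.2) (Dd b) := by
  have h1 := phi_fst h.Xd
  have h2 := phi_fst h.Yd
  have h3 := phi_fst (h.Xd.deriv (phi_strip b))
  have h4 := phi_fst (h.Yd.deriv (phi_strip b))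
  have hs : DifferentiableOn ℂ (fun p : ℂ × ℂ => p.2) (Dd b) := differentiable_snd.differentiableOn
  have hu : DifferentiableOn ℂ (fun p : ℂ × ℂ => X p.1 + p.2 * deriv X p.1) (Dd b) :=
    h1.add (hs.mul h3)
  have hv : DifferentiableOn ℂ (fun p : ℂ × ℂ => Y p.1 + p.2 * deriv Y p.1) (Dd b) :=
    h2.add (hs.mul h4)
  unfold ql QQ
  exact ((((((hu.pow 2).const_mul _).add ((hu.mul hv).const_mul _)).add
    ((hv.pow 2).const_mul _)).add ((hu.mul_const 1).const_mul _)).add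
    ((hv.mul_const 1).const_mul _)).add (differentiableOn_const _)

private theorem phi_qlper (h : Cv q X Y C0 b) {t : ℂ} (ht : |t.im| < b) (s : ℂ) :
    ql q X Y (t + 1) s = ql q X Y t s := by
  unfold ql
  rw [h.Xp t ht, h.Yp t ht, phi_per h.Xp ht, phi_per h.Yp ht]

end PhiAux

private theorem phi_sq_deriv {z : ℂ} (hz : 0 < z.re) : HasDerivAt sq (1 / (2 * sq z)) z := by
  have h1 : z ∈ slitPlane := Or.inl hz
  have h0 : z ≠ 0 := slitPlane_ne_zero h1
  have h2 := ((Complex.hasDerivAt_log h1).div_const 2).cexp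
  have h3 : HasDerivAt sq (exp (log z / 2) * (z⁻¹ / 2)) z := h2
  convert h3 using 1
  have h4 : exp (log z / 2) = sq z := rfl
  rw [h4]
  have h5 := sq_sq h0
  have h6 := sq_ne z
  rw [div_eq_iff (by simpa using h6)]
  have h7 : sq z * (z⁻¹ / 2) * (2 * sq z) = sq z ^ 2 * z⁻¹ := by ring
  rw [h7, h5, mul_inv_cancel₀ h0]

private theorem phi_alg1 {A A' B s r r' al : ℂ} (hr : r ^ 2 = A + A' * s + B * s ^ 2)
    (hal : al ^ 2 = A) (hr' : r' * (2 * r) = A' + 2 * B * s) (h0 : r ≠ 0)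
    (hg : 2 * A + A' * s + 2 * al * r ≠ 0) :
    (4 * s * (r * (2 * A + A' * s + 2 * al * r)) -
      2 * s ^ 2 * (r' * (2 * A + A' * s + 2 * al * r) + r * (A' + 2 * al * r'))) /
      (r * (2 * A + A' * s + 2 * al * r)) ^ 2 = s / (r ^ 2 * r) := by
  rw [div_eq_div_iff (pow_ne_zero 2 (mul_ne_zero h0 hg)) (mul_ne_zero (pow_ne_zero 2 h0) h0)]
  have key : 4 * r ^ 2 * (2 * A + A' * s + 2 * al * r) -
      s * (A' + 2 * B * s) * (2 * A + A' * s + 4 * al * r) - 2 * s * r ^ 2 * A' =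
      (2 * A + A' * s + 2 * al * r) ^ 2 := by
    linear_combination (4 * (2 * A + A' * s) + 8 * al * r - 2 * s * A' - 4 * al ^ 2) * hr -
      4 * (A + A' * s + B * s ^ 2) * hal
  linear_combination s * r ^ 2 * key -
    s ^ 2 * r ^ 2 * (2 * A + A' * s + 4 * al * r) * hr'

private theorem phi_alg2 {A A' B s r al : ℂ} (hr : r ^ 2 = A + A' * s + B * s ^ 2)
    (hal : al ^ 2 = A) (h0 : r ≠ 0) (hg : 2 * A + A' * s + 2 * al * r ≠ 0) :
    ((2 * A + A' * s) / r) ^ 2 = 4 * A + (A' ^ 2 - 4 * A * B) * (s ^ 2 / r ^ 2) ∧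
    s ^ 2 * (2 / (r * (2 * A + A' * s + 2 * al * r))) * ((2 * A + A' * s) / r + 2 * al) =
      2 * (s ^ 2 / r ^ 2) ∧
    (2 * A + A' * s) / r = 2 * al + (A' ^ 2 - 4 * A * B) *
      (s ^ 2 * (2 / (r * (2 * A + A' * s + 2 * al * r)))) / 2 := by
  have h1 : ((2 * A + A' * s) / r) ^ 2 = 4 * A + (A' ^ 2 - 4 * A * B) * (s ^ 2 / r ^ 2) := by
    field_simp
    linear_combination (-4 * A) * hr
  have h2 : (2 * A + A' * s) / r + 2 * al = (2 * A + A' * s + 2 * al * r) / r := by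
    field_simp
  have h3 : (2 * A + A' * s) / r + 2 * al ≠ 0 := by
    rw [h2]; exact div_ne_zero hg h0
  have h4 : s ^ 2 * (2 / (r * (2 * A + A' * s + 2 * al * r))) * ((2 * A + A' * s) / r + 2 * al) =
      2 * (s ^ 2 / r ^ 2) := by
    rw [h2]
    generalize 2 * A + A' * s + 2 * al * r = G at hg ⊢
    field_simp
  refine ⟨h1, h4, ?_⟩
  apply mul_right_cancel₀ h3
  linear_combination h1 - (A' ^ 2 - 4 * A * B) / 2 * h4 - 4 * hal

private theorem phi_alg3 {A A' B s t r q al : ℂ} (hr : r ^ 2 = A + A' * s + B * s ^ 2)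
    (hq : q ^ 2 = A + A' * t + B * t ^ 2) (hal : al ^ 2 = A) (hA : A ≠ 0) (h0 : r ≠ 0)
    (h0' : q ≠ 0) (hg : 2 * A + A' * s + 2 * al * r ≠ 0) (hg' : 2 * A + A' * t + 2 * al * q ≠ 0)
    (hw : (2 * A + A' * s) / r + (2 * A + A' * t) / q ≠ 0) (hs : s ≠ 0) (ht : t ≠ 0)
    (hst : s ≠ t) :
    s ^ 2 * (2 / (r * (2 * A + A' * s + 2 * al * r))) =
      t ^ 2 * (2 / (q * (2 * A + A' * t + 2 * al * q))) ↔ s⁻¹ + t⁻¹ = -A' / A := by
  obtain ⟨a1, a2, a3⟩ := phi_alg2 hr hal h0 hg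
  obtain ⟨b1, b2, b3⟩ := phi_alg2 hq hal h0' hg'
  have hu : s ^ 2 / r ^ 2 = t ^ 2 / q ^ 2 ↔ s⁻¹ + t⁻¹ = -A' / A := by
    rw [div_eq_div_iff (pow_ne_zero 2 h0) (pow_ne_zero 2 h0')]
    have e1 : s ^ 2 * q ^ 2 - t ^ 2 * r ^ 2 = (s - t) * (A * (s + t) + A' * s * t) := by
      rw [hr, hq]; ring
    have e2 : s⁻¹ + t⁻¹ = (s + t) / (s * t) := by field_simp; ring
    rw [e2, div_eq_div_iff (mul_ne_zero hs ht) hA]
    constructor
    · intro h
      have e3 : (s - t) * (A * (s + t) + A' * s * t) = 0 := by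
        rw [← e1, h]; ring
      rcases mul_eq_zero.1 e3 with e4 | e4
      · exact absurd (sub_eq_zero.1 e4) hst
      · linear_combination e4
    · intro h
      have e3 : A * (s + t) + A' * s * t = 0 := by linear_combination h
      rw [e3, mul_zero] at e1
      exact sub_eq_zero.1 e1
  rw [← hu]
  constructor
  · intro h
    have c1 : (2 * A + A' * s) / r = (2 * A + A' * t) / q := by rw [a3, b3, h]
    have c2 : 2 * (s ^ 2 / r ^ 2) = 2 * (t ^ 2 / q ^ 2) := by rw [← a2, ← b2, h, c1]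
    exact mul_left_cancel₀ two_ne_zero c2
  · intro h
    have c1 : ((2 * A + A' * s) / r) ^ 2 = ((2 * A + A' * t) / q) ^ 2 := by rw [a1, b1, h]
    have c2 : (2 * A + A' * s) / r = (2 * A + A' * t) / q := by
      rcases sq_eq_sq_iff_eq_or_eq_neg.1 c1 with c3 | c3
      · exact c3
      · exact absurd (by rw [c3]; ring) hw
    have c4 : (2 * A + A' * t) / q + 2 * al ≠ 0 := by
      have c5 : (2 * A + A' * t) / q + 2 * al = (2 * A + A' * t + 2 * al * q) / q := by
        field_simp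
      rw [c5]; exact div_ne_zero hg' h0'
    rw [c2] at a2
    apply mul_right_cancel₀ c4
    rw [a2, b2, h]

section PhiMain
variable {q : Fin 6 → ℝ} {X Y : ℂ → ℂ} {C0 b : ℝ}

private theorem phi_deriv {t s : ℂ} (hX : DifferentiableAt ℂ X t) (hY : DifferentiableAt ℂ Y t)
    (hA : 0 < (qA q X Y t).re) (hq : 0 < (ql q X Y t s).re)
    (hg : 2 * qA q X Y t + deriv (qA q X Y) t * s +
      2 * sq (qA q X Y t) * sq (ql q X Y t s) ≠ 0) :
    HasDerivAt (fun s => Ph q X Y t s) (s / (ql q X Y t s * sq (ql q X Y t s))) s := by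
  have hA0 : qA q X Y t ≠ 0 := slitPlane_ne_zero (Or.inl hA)
  have hq0 : ql q X Y t s ≠ 0 := slitPlane_ne_zero (Or.inl hq)
  have e1 := ql_eq (q := q) hX hY
  set A := qA q X Y t with hAdef
  set A' := deriv (qA q X Y) t with hA'def
  set B := QQ q (deriv X t) (deriv Y t) 0 with hBdef
  have h1 : HasDerivAt (fun s => ql q X Y t s) (A' + 2 * B * s) s := by
    have e2 : (fun s => ql q X Y t s) = fun s => A + A' * s + B * s ^ 2 := funext e1
    rw [e2]
    have h2 : HasDerivAt (fun u : ℂ => A + A' * u + B * u ^ 2) (A' * 1 + B * (2 * s ^ 1 * 1)) s :=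
      (((hasDerivAt_id s).const_mul A').const_add A).add (((hasDerivAt_id s).pow 2).const_mul B)
    exact h2.congr_deriv (by ring)
  have h2 : HasDerivAt (fun s => sq (ql q X Y t s)) (1 / (2 * sq (ql q X Y t s)) *
      (A' + 2 * B * s)) s := (phi_sq_deriv hq).comp s h1
  have hr0 := sq_ne (ql q X Y t s)
  set r := sq (ql q X Y t s) with hrdef
  have hr2 : r ^ 2 = A + A' * s + B * s ^ 2 := by rw [hrdef, sq_sq hq0, e1]
  have hal : sq A ^ 2 = A := sq_sq hA0
  set r' := 1 / (2 * r) * (A' + 2 * B * s) with hr'def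
  have hr' : r' * (2 * r) = A' + 2 * B * s := by
    rw [hr'def]; field_simp
  have h3 : HasDerivAt (fun s => 2 * A + A' * s + 2 * sq A * sq (ql q X Y t s))
      (A' + 2 * sq A * r') s := by
    have h4 : HasDerivAt (fun s => 2 * A + A' * s + 2 * sq A * sq (ql q X Y t s))
        (A' * 1 + 2 * sq A * r') s :=
      (((hasDerivAt_id s).const_mul A').const_add (2 * A)).add (h2.const_mul (2 * sq A))
    exact h4.congr_deriv (by ring)
  have h4 := h2.mul h3
  have h5 : HasDerivAt (fun s : ℂ => 2 * s ^ 2) (4 * s) s := by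
    have h6 : HasDerivAt (fun s : ℂ => 2 * s ^ 2) (2 * (2 * s ^ 1 * 1)) s :=
      ((hasDerivAt_id s).pow 2).const_mul 2
    exact h6.congr_deriv (by ring)
  have hM0 : r * (2 * A + A' * s + 2 * sq A * r) ≠ 0 := mul_ne_zero hr0 hg
  have h6 := h5.div h4 hM0
  have h7 : (fun s => Ph q X Y t s) = fun s => 2 * s ^ 2 / ((fun s => sq (ql q X Y t s)) s *
      (fun s => 2 * A + A' * s + 2 * sq A * sq (ql q X Y t s)) s) := by
    funext u
    simp only [Ph, Ps]
    rw [← mul_div_assoc, mul_comm (u ^ 2)]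
  rw [h7]
  refine h6.congr_deriv ?_
  have h8 := phi_alg1 hr2 hal hr' hr0 hg
  have h9 : s / (r ^ 2 * r) = s / (ql q X Y t s * r) := by rw [hr2, e1]
  exact h8.trans h9

private theorem phi_dreal {f : ℂ → ℂ} {t : ℝ} (hf : DifferentiableAt ℂ f t)
    (h : ∀ t : ℝ, (f t).im = 0) : (deriv f t).im = 0 := by
  have h1 := hf.hasDerivAt.comp_ofReal
  have h2 := Complex.imCLM.hasFDerivAt.comp_hasDerivAt t h1
  have h3 : (⇑Complex.imCLM ∘ fun y : ℝ => f y) = fun _ => 0 := by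
    funext y
    exact h y
  rw [h3] at h2
  exact (h2.unique (hasDerivAt_const t (0 : ℝ)))

private theorem phi_real {x : ℂ} (h : x.im = 0) : ∃ a : ℝ, x = a :=
  ⟨x.re, Complex.ext rfl (by simpa using h)⟩

private theorem phi_re {x y : ℂ} {c : ℝ} (h : ‖x - y‖ ≤ c) : y.re - c ≤ x.re := by
  have h1 := (abs_le.1 ((abs_re_le_norm (x - y)).trans h)).1
  rw [sub_re] at h1
  linarith

end PhiMain

/-! ## GC -/
section GC
variable {q : Fin 6 → ℝ} {X Y : ℂ → ℂ} {C0 b : ℝ}

theorem ph_an (h : Cv q X Y C0 b) : ∃ b' : ℝ, 0 < b' ∧ b' ≤ b ∧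
    (∀ p ∈ Dd b', 0 < (ql q X Y p.1 p.2).re) ∧
    DifferentiableOn ℂ (Ps q X Y) (Dd b') ∧
    (∀ p ∈ Dd b', Ps q X Y (p.1 + 1, p.2) = Ps q X Y p) ∧
    (∀ t : ℂ, |t.im| < b → Ps q X Y (t, 0) = 1 / (2 * (qA q X Y t * sq (qA q X Y t)))) ∧
    (∀ t s : ℝ, |s| < b' → (Ps q X Y (t, s)).im = 0) ∧
    (∀ p ∈ Dd b', HasDerivAt (fun s => Ph q X Y p.1 s)
      (p.2 / (ql q X Y p.1 p.2 * sq (ql q X Y p.1 p.2))) p.2) ∧
    ∀ t s s' : ℂ, (t, s) ∈ Dd b' → (t, s') ∈ Dd b' → s ≠ 0 → s' ≠ 0 → s ≠ s' →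
      (Ph q X Y t s = Ph q X Y t s' ↔ s⁻¹ + s'⁻¹ = qK q X Y t) := by
  obtain ⟨m, hm, hAm⟩ := h.Ap
  have hb := h.b0
  -- the form
  obtain ⟨C, hC, -, hC2⟩ := unif (phi_ql h) (fun p hp => phi_qlper h hp.1 p.2)
    (b' := b / 2) (by linarith) (by linarith)
  have hb1 : 0 < min (b / 2) (m / (2 * C)) := lt_min (by linarith) (by positivity)
  have hb1b : min (b / 2) (m / (2 * C)) < b := (min_le_left _ _).trans_lt (by linarith)
  have hb1C : C * min (b / 2) (m / (2 * C)) ≤ m / 2 := by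
    calc C * min (b / 2) (m / (2 * C)) ≤ C * (m / (2 * C)) := by
          gcongr; exact min_le_right _ _
      _ = m / 2 := by field_simp
  have hb12 : Dd (min (b / 2) (m / (2 * C))) ⊆ Dd (b / 2) := Dd_mono (min_le_left _ _)
  generalize min (b / 2) (m / (2 * C)) = b1 at hb1 hb1b hb1C hb12
  have hDb : Dd b1 ⊆ Dd b := Dd_mono hb1b.le
  have hql : ∀ p ∈ Dd b1, m / 2 ≤ (ql q X Y p.1 p.2).re := by
    intro p hp
    have h1 := hC2 p (hb12 hp)
    simp only [ql_zero] at h1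
    have h2 := phi_re h1
    have h3 := hAm p.1 (hDb hp).1
    have h4 : C * ‖p.2‖ ≤ C * b1 := by gcongr; exact hp.2.le
    linarith
  have hqlp : ∀ p ∈ Dd b1, 0 < (ql q X Y p.1 p.2).re := fun p hp =>
    lt_of_lt_of_le (by positivity) (hql p hp)
  have hAp : ∀ t : ℂ, |t.im| < b → 0 < (qA q X Y t).re := fun t ht => hm.trans_le (hAm t ht)
  have hA0 : ∀ t : ℂ, |t.im| < b → qA q X Y t ≠ 0 := fun t ht =>
    slitPlane_ne_zero (Or.inl (hAp t ht))
  -- the roots
  have hr : DifferentiableOn ℂ (fun p : ℂ × ℂ => sq (ql q X Y p.1 p.2)) (Dd b1) := fun p hp =>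
    DifferentiableAt.comp_differentiableWithinAt (g := sq)
      (f := fun p : ℂ × ℂ => ql q X Y p.1 p.2) p (sq_an (hqlp p hp)).differentiableAt
      ((phi_ql h).mono hDb p hp)
  have hal : DifferentiableOn ℂ (fun t : ℂ => sq (qA q X Y t)) {t | |t.im| < b} := fun t ht =>
    DifferentiableAt.comp_differentiableWithinAt (g := sq) (f := qA q X Y) t
      (sq_an (hAp t ht)).differentiableAt (phi_qA h t ht)
  have hal' : DifferentiableOn ℂ (fun p : ℂ × ℂ => sq (qA q X Y p.1)) (Dd b1) :=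
    (phi_fst hal).mono hDb
  have hA1 : DifferentiableOn ℂ (fun p : ℂ × ℂ => qA q X Y p.1) (Dd b1) :=
    (phi_fst (phi_qA h)).mono hDb
  have hA2 : DifferentiableOn ℂ (fun p : ℂ × ℂ => deriv (qA q X Y) p.1) (Dd b1) :=
    (phi_fst ((phi_qA h).deriv (phi_strip b))).mono hDb
  have hsnd : DifferentiableOn ℂ (fun p : ℂ × ℂ => p.2) (Dd b1) :=
    differentiable_snd.differentiableOn
  have hG0 : DifferentiableOn ℂ (fun p : ℂ × ℂ => 2 * qA q X Y p.1 + deriv (qA q X Y) p.1 * p.2)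
      (Dd b1) := (hA1.const_mul 2).add (hA2.mul hsnd)
  have hg : DifferentiableOn ℂ (fun p : ℂ × ℂ => 2 * qA q X Y p.1 + deriv (qA q X Y) p.1 * p.2 +
      2 * sq (qA q X Y p.1) * sq (ql q X Y p.1 p.2)) (Dd b1) :=
    hG0.add ((hal'.const_mul 2).mul hr)
  have hW : DifferentiableOn ℂ (fun p : ℂ × ℂ =>
      (2 * qA q X Y p.1 + deriv (qA q X Y) p.1 * p.2) / sq (ql q X Y p.1 p.2)) (Dd b1) := by
    simp only [div_eq_mul_inv]
    exact hG0.mul (hr.inv fun p _ => sq_ne _)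
  -- periodicity
  have perA : ∀ t : ℂ, |t.im| < b → deriv (qA q X Y) (t + 1) = deriv (qA q X Y) t := fun t ht =>
    phi_per (fun t ht => phi_qAper h ht) ht
  obtain ⟨C2, hC20, -, hg2⟩ := unif (b' := b1 / 2) hg (by
    intro p hp
    have h1 := (hDb hp).1
    simp only [phi_qAper h h1, perA _ h1, phi_qlper h h1]) (by linarith) (by linarith)
  obtain ⟨C3, hC30, -, hW2⟩ := unif (b' := b1 / 2) hW (by
    intro p hp
    have h1 := (hDb hp).1
    simp only [phi_qAper h h1, perA _ h1, phi_qlper h h1]) (by linarith) (by linarith)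
  have hsm : 0 < Real.sqrt m := Real.sqrt_pos.2 hm
  have hb'0 : 0 < min (b1 / 2) (min (m / C2) (Real.sqrt m / (2 * C3))) :=
    lt_min (by linarith) (lt_min (by positivity) (by positivity))
  have hb'1 : min (b1 / 2) (min (m / C2) (Real.sqrt m / (2 * C3))) ≤ b1 / 2 := min_le_left _ _
  have hb'2 : C2 * min (b1 / 2) (min (m / C2) (Real.sqrt m / (2 * C3))) ≤ m := by
    calc C2 * min (b1 / 2) (min (m / C2) (Real.sqrt m / (2 * C3))) ≤ C2 * (m / C2) := by
          gcongr; exact (min_le_right _ _).trans (min_le_left _ _)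
      _ = m := by field_simp
  have hb'3 : C3 * min (b1 / 2) (min (m / C2) (Real.sqrt m / (2 * C3))) ≤ Real.sqrt m / 2 := by
    calc C3 * min (b1 / 2) (min (m / C2) (Real.sqrt m / (2 * C3))) ≤
        C3 * (Real.sqrt m / (2 * C3)) := by
          gcongr; exact (min_le_right _ _).trans (min_le_right _ _)
      _ = Real.sqrt m / 2 := by field_simp
  generalize min (b1 / 2) (min (m / C2) (Real.sqrt m / (2 * C3))) = b' at hb'0 hb'1 hb'2 hb'3
  have hD1 : Dd b' ⊆ Dd (b1 / 2) := Dd_mono hb'1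
  have hD2 : Dd b' ⊆ Dd b1 := Dd_mono (by linarith)
  have hg0 : ∀ p ∈ Dd b', 2 * qA q X Y p.1 + deriv (qA q X Y) p.1 * p.2 +
      2 * sq (qA q X Y p.1) * sq (ql q X Y p.1 p.2) ≠ 0 := by
    intro p hp e
    have h1 := hg2 p (hD1 hp)
    have hpb := (hDb (hD2 hp)).1
    simp only [ql_zero, mul_zero, add_zero] at h1
    have e2 : 2 * qA q X Y p.1 + 2 * sq (qA q X Y p.1) * sq (qA q X Y p.1) =
        4 * qA q X Y p.1 := by
      have := sq_sq (hA0 _ hpb)
      linear_combination 2 * this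
    rw [e2, e] at h1
    have h2 := phi_re h1
    have h3 := hAm p.1 hpb
    have h4 : C2 * ‖p.2‖ ≤ C2 * b' := by gcongr; exact hp.2.le
    have h5 : (4 * qA q X Y p.1).re = 4 * (qA q X Y p.1).re := by
      simp [Complex.mul_re]
    rw [h5, Complex.zero_re] at h2
    linarith
  have hW0 : ∀ p ∈ Dd b', ‖(2 * qA q X Y p.1 + deriv (qA q X Y) p.1 * p.2) /
      sq (ql q X Y p.1 p.2) - 2 * sq (qA q X Y p.1)‖ ≤ Real.sqrt m / 2 := by
    intro p hp
    have h1 := hW2 p (hD1 hp)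
    have hpb := (hDb (hD2 hp)).1
    simp only [ql_zero, mul_zero, add_zero] at h1
    have e2 : 2 * qA q X Y p.1 / sq (qA q X Y p.1) = 2 * sq (qA q X Y p.1) := by
      rw [div_eq_iff (sq_ne _)]
      have := sq_sq (hA0 _ hpb)
      linear_combination -2 * this
    rw [e2] at h1
    have h4 : C3 * ‖p.2‖ ≤ C3 * b' := by gcongr; exact hp.2.le
    linarith
  have haln : ∀ t : ℂ, |t.im| < b → Real.sqrt m ≤ ‖sq (qA q X Y t)‖ := by
    intro t ht
    rw [Real.sqrt_le_left (norm_nonneg _), ← norm_pow, sq_sq (hA0 t ht)]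
    exact (hAm t ht).trans (re_le_norm _)
  refine ⟨b', hb'0, by linarith, fun p hp => hqlp p (hD2 hp), ?_, ?_, ?_, ?_, ?_, ?_⟩
  · -- differentiability
    unfold Ps
    simp only [div_eq_mul_inv]
    exact (((hr.mono hD2).fun_mul (hg.mono hD2)).inv fun p hp =>
      mul_ne_zero (sq_ne _) (hg0 p hp)).const_mul 2
  · intro p hp
    have h1 := (hDb (hD2 hp)).1
    simp only [Ps, phi_qAper h h1, perA _ h1, phi_qlper h h1]
  · intro t ht
    simp only [Ps, ql_zero, mul_zero, add_zero]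
    have h1 := sq_sq (hA0 t ht)
    have h2 := sq_ne (qA q X Y t)
    have h3 := hA0 t ht
    have e2 : 2 * qA q X Y t + 2 * sq (qA q X Y t) * sq (qA q X Y t) = 4 * qA q X Y t := by
      linear_combination 2 * h1
    rw [e2]
    field_simp
    norm_num
  · -- real points
    intro t s hs
    have hst : |((t : ℂ)).im| < b := by simpa using hb
    have hX1 : DifferentiableAt ℂ X t := h.Xd.differentiableAt ((phi_strip b).mem_nhds hst)
    have hY1 : DifferentiableAt ℂ Y t := h.Yd.differentiableAt ((phi_strip b).mem_nhds hst)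
    have hAr : ∀ u : ℝ, (qA q X Y u).im = 0 := by
      intro u
      obtain ⟨x, hx⟩ := phi_real (h.Xr u)
      obtain ⟨y, hy⟩ := phi_real (h.Yr u)
      simp only [qA, QQ, hx, hy]
      norm_cast
    have hA3 : DifferentiableAt ℂ (qA q X Y) t :=
      (phi_qA h).differentiableAt ((phi_strip b).mem_nhds hst)
    obtain ⟨x, hx⟩ := phi_real (h.Xr t)
    obtain ⟨y, hy⟩ := phi_real (h.Yr t)
    obtain ⟨x', hx'⟩ := phi_real (phi_dreal hX1 h.Xr)
    obtain ⟨y', hy'⟩ := phi_real (phi_dreal hY1 h.Yr)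
    obtain ⟨A, hA⟩ := phi_real (hAr t)
    obtain ⟨A', hA'⟩ := phi_real (phi_dreal hA3 hAr)
    have hqr : (ql q X Y t s).im = 0 := by
      simp only [ql, QQ, hx, hy, hx', hy']
      norm_cast
    obtain ⟨Q, hQ⟩ := phi_real hqr
    have hQ0 : 0 < Q := by
      have hmem : ((t : ℂ), (s : ℂ)) ∈ Dd b1 := by
        refine ⟨by simpa using hb1, ?_⟩
        have h2 : ‖(s : ℂ)‖ < b' := by simpa using hs
        show ‖(s : ℂ)‖ < b1
        linarith
      have h1 := hqlp _ hmem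
      simp only [hQ, ofReal_re] at h1
      exact h1
    have hA00 : 0 < A := by
      have h1 := hAp t hst
      rwa [hA, ofReal_re] at h1
    simp only [Ps, hQ, hA, hA', sq_real hQ0, sq_real hA00]
    norm_cast
  · intro p hp
    have hpb := (hDb (hD2 hp)).1
    exact phi_deriv (h.Xd.differentiableAt ((phi_strip b).mem_nhds hpb))
      (h.Yd.differentiableAt ((phi_strip b).mem_nhds hpb)) (hAp _ hpb) (hqlp p (hD2 hp))
      (hg0 p hp)
  · intro t s s' hs hs' h0 h0' hne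
    have hpb := (hDb (hD2 hs)).1
    have e1 := ql_eq (q := q) (h.Xd.differentiableAt ((phi_strip b).mem_nhds hpb))
      (h.Yd.differentiableAt ((phi_strip b).mem_nhds hpb))
    have hr2 : sq (ql q X Y t s) ^ 2 = qA q X Y t + deriv (qA q X Y) t * s +
        QQ q (deriv X t) (deriv Y t) 0 * s ^ 2 := by
      rw [sq_sq (slitPlane_ne_zero (Or.inl (hqlp _ (hD2 hs)))), e1]
    have hr2' : sq (ql q X Y t s') ^ 2 = qA q X Y t + deriv (qA q X Y) t * s' +
        QQ q (deriv X t) (deriv Y t) 0 * s' ^ 2 := by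
      rw [sq_sq (slitPlane_ne_zero (Or.inl (hqlp _ (hD2 hs')))), e1]
    have hWW : (2 * qA q X Y t + deriv (qA q X Y) t * s) / sq (ql q X Y t s) +
        (2 * qA q X Y t + deriv (qA q X Y) t * s') / sq (ql q X Y t s') ≠ 0 := by
      intro e
      have h1 := hW0 _ hs
      have h2 := hW0 _ hs'
      have h3 := haln t hpb
      simp only at h1 h2
      have h4 : ‖(4 : ℂ) * sq (qA q X Y t)‖ ≤ Real.sqrt m := by
        have e3 : (4 : ℂ) * sq (qA q X Y t) =
            -(((2 * qA q X Y t + deriv (qA q X Y) t * s) / sq (ql q X Y t s) -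
              2 * sq (qA q X Y t)) +
            ((2 * qA q X Y t + deriv (qA q X Y) t * s') / sq (ql q X Y t s') -
              2 * sq (qA q X Y t))) := by
          linear_combination e
        rw [e3, norm_neg]
        refine (norm_add_le _ _).trans ?_
        linarith
      rw [norm_mul] at h4
      have h5 : ‖(4 : ℂ)‖ = 4 := by simp
      rw [h5] at h4
      linarith
    exact phi_alg3 hr2 hr2' (sq_sq (hA0 t hpb)) (hA0 t hpb) (sq_ne _) (sq_ne _) (hg0 _ hs)
      (hg0 _ hs') hWW h0 h0' hne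

end GC

end Pool.Agent.MP_ae5b4e_an_SMG
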