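import Mathlib
import Pool.Agent.Lib.MP_ae5b4e_an_SMG.Phi
import Pool.Agent.Lib.MP_ae5b4e_an_SMG.GeoS
import Pool.Agent.Lib.MP_ae5b4e_an_SMG.ParInt

/-!
# MP_ae5b4e_an, project SMOOTH-G, module GF: the generating function and its partial derivatives
-/

noncomputable section

namespace Pool.Agent.MP_ae5b4e_an_SMG

open Complex Set Filter Topology
open Pool.Agent.MP_ae5b4e_an_SM
open Pool.Agent.MP_ae5b4e_an_FLEX (brN brD Wr IsKick RegG GoodG)
open Pool.Agent.MP_ae5b4e_an_hopf (ConvexCurve)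

section GF'
variable {q : Fin 6 → ℝ} {X Y : ℂ → ℂ} {C0 b : ℝ}

private theorem hpar_strip (b : ℝ) : IsOpen {t : ℂ | |t.im| < b} :=
  isOpen_lt (by fun_prop) continuous_const

private theorem hpar_im {b' b1 : ℝ} (hb : b' ≤ b1 / 4) (h0 : 0 < b') {p : ℂ × ℂ} (hp : p ∈ Dd b') :
    |(p.1 + p.2).im| < b1 := by
  have h1 : |p.1.im| < b' := hp.1
  have h2 : ‖p.2‖ < b' := hp.2
  have h3 := Complex.abs_im_le_norm p.2
  rw [Complex.add_im]
  have := abs_add_le p.1.im p.2.im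
  linarith

private theorem hpar_p1 {b' b1 : ℝ} (hb : b' ≤ b1 / 4) (h0 : 0 < b') {p : ℂ × ℂ}
    (hp : p ∈ Dd b') : ((p.1 + p.2, -p.2) : ℂ × ℂ) ∈ Dd b1 := by
  refine ⟨hpar_im hb h0 hp, ?_⟩
  have h2 : ‖p.2‖ < b' := hp.2
  simp only [norm_neg]
  linarith

private theorem hpar_sgn {S : ℂ} (hS : ‖S - 1 / 2‖ ≤ 1 / 8) : ‖S‖ ≤ 5 / 8 := by
  have h := norm_add_le (S - 1 / 2) (1 / 2 : ℂ)
  rw [sub_add_cancel] at h
  have h2 : ‖(1 / 2 : ℂ)‖ = 1 / 2 := by norm_num
  linarith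

private theorem hpar_p2 {b' b1 : ℝ} (hb : b' ≤ b1 / 4) (h0 : 0 < b') {p : ℂ × ℂ}
    (hp : p ∈ Dd b') {S : ℂ} (hS : ‖S - 1 / 2‖ ≤ 1 / 8) :
    ((p.1 + p.2, -p.2 * S) : ℂ × ℂ) ∈ Dd b1 := by
  refine ⟨hpar_im hb h0 hp, ?_⟩
  have h2 : ‖p.2‖ < b' := hp.2
  have h3 := hpar_sgn hS
  simp only [norm_mul, norm_neg]
  have : ‖p.2‖ * ‖S‖ ≤ ‖p.2‖ * (5 / 8) := mul_le_mul_of_nonneg_left h3 (norm_nonneg _)
  nlinarith [norm_nonneg p.2]

private theorem hpar_qA (h : Cv q X Y C0 b) {t : ℂ} (ht : |t.im| < b) : 0 < (qA q X Y t).re := by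
  obtain ⟨m, hm, hA⟩ := h.Ap
  exact lt_of_lt_of_le hm (hA t ht)

private theorem hpar_qA_ne (h : Cv q X Y C0 b) {t : ℂ} (ht : |t.im| < b) : qA q X Y t ≠ 0 := by
  intro h0
  have := hpar_qA h ht
  rw [h0] at this
  simp at this

private theorem hpar_X (h : Cv q X Y C0 b) {t : ℂ} (ht : |t.im| < b) :
    AnalyticAt ℂ X t ∧ AnalyticAt ℂ Y t :=
  ⟨h.Xd.analyticAt ((hpar_strip b).mem_nhds ht), h.Yd.analyticAt ((hpar_strip b).mem_nhds ht)⟩

private theorem hpar_Wr_an (h : Cv q X Y C0 b) {t : ℂ} (ht : |t.im| < b) :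
    AnalyticAt ℂ (Wr X Y) t := by
  obtain ⟨hX, hY⟩ := hpar_X h ht
  exact (hX.deriv.mul hY.deriv.deriv).sub (hY.deriv.mul hX.deriv.deriv)

private theorem hpar_Wr_per (h : Cv q X Y C0 b) {t : ℂ} (ht : |t.im| < b) :
    Wr X Y (t + 1) = Wr X Y t := by
  have ht' : |(t + 1).im| < b := by simpa using ht
  rw [h.norm _ ht', h.norm _ ht]
  have : qA q X Y (t + 1) = qA q X Y t := by
    unfold qA
    rw [h.Xp t ht, h.Yp t ht]
  rw [this]

private theorem hpar_mul {z w : ℂ} (hz : z.im = 0) (hw : w.im = 0) : (z * w).im = 0 := by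
  rw [Complex.mul_im, hz, hw]
  ring

private theorem hpar_Wr_real (h : Cv q X Y C0 b) (t : ℝ) : (Wr X Y t).im = 0 := by
  have ht : |((t : ℂ)).im| < b := by simpa using h.b0
  have hq : (qA q X Y t).im = 0 := by
    have hX : X t = ((X t).re : ℂ) := Complex.ext rfl (by simpa using h.Xr t)
    have hY : Y t = ((Y t).re : ℂ) := Complex.ext rfl (by simpa using h.Yr t)
    unfold qA QQ
    rw [hX, hY]
    norm_cast
  have hqr : qA q X Y t = ((qA q X Y t).re : ℂ) := Complex.ext rfl (by simpa using hq)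
  rw [h.norm _ ht, hqr, sq_real (hpar_qA h ht)]
  norm_cast

theorem r2_an (h : Cv q X Y C0 b) : ∃ b' : ℝ, 0 < b' ∧ b' ≤ b / 4 ∧
    DifferentiableOn ℂ (R2 q X Y C0) (Dd b') ∧
    (∀ p ∈ Dd b', R2 q X Y C0 (p.1 + 1, p.2) = R2 q X Y C0 p) ∧
    (∀ t s : ℝ, |s| < b' → (R2 q X Y C0 (t, s)).im = 0) ∧
    (∀ t : ℂ, |t.im| < b' → R2 q X Y C0 (t, 0) = 1 / 2) ∧
    ∀ p ∈ Dd b', p.2 ^ 2 * R2 q X Y C0 p =
      4 / C0 * Wr X Y (p.1 + p.2) * Ph q X Y (p.1 + p.2) (sg X Y (p.1 + p.2) p.1) := by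
  obtain ⟨b1, hb1, hb1b, -, hPs, hPsp, hPs0, hPsr, -, -⟩ := ph_an h
  obtain ⟨b2, hb2, hb2b, hSg, hSgb, hSgp, hSgr, -, hsg⟩ := sg_an h
  set b' := min b1 b2 / 4 with hb'
  have m1 : min b1 b2 ≤ b1 := min_le_left _ _
  have m2 : min b1 b2 ≤ b2 := min_le_right _ _
  have m0 : 0 < min b1 b2 := lt_min hb1 hb2
  have h0 : 0 < b' := by rw [hb']; linarith
  have c1 : b' ≤ b1 / 4 := by rw [hb']; linarith
  have c2 : b' ≤ b2 / 4 := by rw [hb']; linarith
  have cb : b' ≤ b / 4 := by linarith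
  have q1 : ∀ p ∈ Dd b', ((p.1 + p.2, -p.2) : ℂ × ℂ) ∈ Dd b2 := fun p hp => hpar_p1 c2 h0 hp
  have q2 : ∀ p ∈ Dd b', ((p.1 + p.2, -p.2 * Sg X Y (p.1 + p.2, -p.2)) : ℂ × ℂ) ∈ Dd b1 :=
    fun p hp => hpar_p2 c1 h0 hp (hSgb _ (q1 p hp))
  have hC : (C0 : ℂ) ≠ 0 := by exact_mod_cast h.C00.ne'
  have hSgp' : ∀ t s : ℂ, ((t, s) : ℂ × ℂ) ∈ Dd b2 → Sg X Y (t + 1, s) = Sg X Y (t, s) :=
    fun t s hts => hSgp (t, s) hts
  have hPsp' : ∀ t s : ℂ, ((t, s) : ℂ × ℂ) ∈ Dd b1 → Ps q X Y (t + 1, s) = Ps q X Y (t, s) :=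
    fun t s hts => hPsp (t, s) hts
  refine ⟨b', h0, cb, ?_, ?_, ?_, ?_, ?_⟩
  · have d1 : DifferentiableOn ℂ (fun p : ℂ × ℂ => Wr X Y (p.1 + p.2)) (Dd b') := by
      intro p hp
      have : DifferentiableAt ℂ (Wr X Y) (p.1 + p.2) :=
        (hpar_Wr_an h (hpar_im cb h0 hp)).differentiableAt
      exact (DifferentiableAt.comp (g := Wr X Y) (f := fun p : ℂ × ℂ => p.1 + p.2) p this
        (by fun_prop)).differentiableWithinAt
    have d2 : DifferentiableOn ℂ (fun p : ℂ × ℂ => Sg X Y (p.1 + p.2, -p.2)) (Dd b') :=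
      hSg.comp (by fun_prop) q1
    have d3 : DifferentiableOn ℂ (fun p : ℂ × ℂ =>
        Ps q X Y (p.1 + p.2, -p.2 * Sg X Y (p.1 + p.2, -p.2))) (Dd b') := by
      refine hPs.comp (DifferentiableOn.prodMk (by fun_prop) ?_) q2
      exact DifferentiableOn.mul (by fun_prop) d2
    exact ((d1.const_mul _).mul (d2.pow 2)).mul d3
  · intro p hp
    have e1 : Wr X Y (p.1 + 1 + p.2) = Wr X Y (p.1 + p.2) := by
      rw [show p.1 + 1 + p.2 = p.1 + p.2 + 1 by ring]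
      exact hpar_Wr_per h (hpar_im cb h0 hp)
    have e2 : Sg X Y (p.1 + 1 + p.2, -p.2) = Sg X Y (p.1 + p.2, -p.2) := by
      rw [show p.1 + 1 + p.2 = p.1 + p.2 + 1 by ring]
      exact hSgp' _ _ (q1 p hp)
    have e3 : Ps q X Y (p.1 + 1 + p.2, -p.2 * Sg X Y (p.1 + p.2, -p.2)) =
        Ps q X Y (p.1 + p.2, -p.2 * Sg X Y (p.1 + p.2, -p.2)) := by
      rw [show p.1 + 1 + p.2 = p.1 + p.2 + 1 by ring]
      exact hPsp' _ _ (q2 p hp)
    unfold R2
    simp only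
    rw [e1, e2, e3]
  · intro t s hs
    have hS := hSgr (t + s) (-s)
    have eS : Sg X Y ((t : ℂ) + s, -(s : ℂ)) = ((Sg X Y ((t : ℂ) + s, -(s : ℂ))).re : ℂ) := by
      refine Complex.ext rfl ?_
      push_cast at hS
      simpa using hS
    have hp : (((t : ℂ), (s : ℂ)) : ℂ × ℂ) ∈ Dd b' := ⟨by simpa using h0, by simpa using hs⟩
    have hq := (q2 _ hp).2
    simp only at hq
    set σ := (Sg X Y ((t : ℂ) + s, -(s : ℂ))).re with hσ
    rw [eS] at hq
    have hP : (Ps q X Y ((t : ℂ) + s, -(s : ℂ) * σ)).im = 0 := by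
      have := hPsr (t + s) (-s * σ) (by
        have : ‖((-s * σ : ℝ) : ℂ)‖ < b1 := by push_cast; exact hq
        rwa [Complex.norm_real] at this)
      push_cast at this
      exact this
    have hW : (Wr X Y ((t : ℂ) + s)).im = 0 := by
      have := hpar_Wr_real h (t + s)
      push_cast at this
      exact this
    unfold R2
    simp only
    rw [eS]
    refine hpar_mul (hpar_mul (hpar_mul ?_ hW) ?_) hP
    · norm_cast
    · norm_cast
  · intro t ht
    have htb : |t.im| < b := by linarith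
    have hA : qA q X Y t * sq (qA q X Y t) ≠ 0 := mul_ne_zero (hpar_qA_ne h htb) (sq_ne _)
    unfold R2
    simp only [add_zero, neg_zero, zero_mul]
    have eS : Sg X Y (t, 0) = 1 / 2 := by simp [Sg]
    rw [eS, hPs0 t htb, h.norm t htb]
    field_simp
    norm_num
    rw [mul_assoc, mul_div_assoc, div_self hA, mul_one]
  · intro p hp
    have e := hsg _ (q1 p hp)
    simp only at e
    rw [show p.1 + p.2 + -p.2 = p.1 by ring] at e
    rw [e]
    unfold R2 Ph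
    ring

/-- the set of pairs of near parameters -/
private theorem hpar_open (b' : ℝ) :
    IsOpen {x : ℂ × ℂ | |x.1.im| < b' ∧ ‖x.2 - x.1‖ < b'} := by
  have h1 : IsOpen {x : ℂ × ℂ | |x.1.im| < b'} := isOpen_lt (by fun_prop) continuous_const
  have h2 : IsOpen {x : ℂ × ℂ | ‖x.2 - x.1‖ < b'} := isOpen_lt (by fun_prop) continuous_const
  exact h1.inter h2

/-- the generating function -/
theorem hg_partials (h : Cv q X Y C0 b) : ∃ b' : ℝ, 0 < b' ∧ b' ≤ b / 4 ∧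
    DifferentiableOn ℂ (Jf (R2 q X Y C0)) (Dd b') ∧
    ∀ p ∈ Dd b', HasDerivAt (fun v => hg q X Y C0 p.1 v)
        (4 / C0 * Wr X Y (p.1 + p.2) * Ph q X Y (p.1 + p.2) (sg X Y (p.1 + p.2) p.1))
        (p.1 + p.2) ∧
      HasDerivAt (fun a => hg q X Y C0 a (p.1 + p.2))
        (-(4 / C0 * Wr X Y p.1 * Ph q X Y p.1 (sg X Y p.1 (p.1 + p.2)))) p.1 := by
  obtain ⟨b1, hb1, hb1b, -, hPs, -, -, -, hPd, -⟩ := ph_an h
  obtain ⟨b2, hb2, hb2b, hSg, hSgb, -, -, hbr, hsg⟩ := sg_an h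
  obtain ⟨b3, hb3, hb3b, hR, -, -, -, hRe⟩ := r2_an h
  set b' := min (min b1 b2) b3 / 4 with hb'
  have m3 : min (min b1 b2) b3 ≤ b3 := min_le_right _ _
  have m1 : min (min b1 b2) b3 ≤ b1 := (min_le_left _ _).trans (min_le_left _ _)
  have m2 : min (min b1 b2) b3 ≤ b2 := (min_le_left _ _).trans (min_le_right _ _)
  have m0 : 0 < min (min b1 b2) b3 := lt_min (lt_min hb1 hb2) hb3
  have h0 : 0 < b' := by rw [hb']; linarith
  have c1 : b' ≤ b1 / 4 := by rw [hb']; linarith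
  have c2 : b' ≤ b2 / 4 := by rw [hb']; linarith
  have c3 : b' ≤ b3 := by linarith
  have cb : b' ≤ b / 4 := by linarith
  have hJ : DifferentiableOn ℂ (Jf (R2 q X Y C0)) (Dd b') :=
    (jf_diff hR).mono (Dd_mono c3)
  set V : Set (ℂ × ℂ) := {x : ℂ × ℂ | |x.1.im| < b' ∧ ‖x.2 - x.1‖ < b'} with hV
  have hVo : IsOpen V := hpar_open b'
  set G : ℂ × ℂ → ℂ := fun x => hg q X Y C0 x.1 x.2 with hG
  -- the first partial derivative
  have first : ∀ p ∈ Dd b', HasDerivAt (fun v => hg q X Y C0 p.1 v)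
      (4 / C0 * Wr X Y (p.1 + p.2) * Ph q X Y (p.1 + p.2) (sg X Y (p.1 + p.2) p.1))
      (p.1 + p.2) := by
    intro p hp
    have hp3 : p ∈ Dd b3 := Dd_mono c3 hp
    have hd := jf_dv hR hp3
    rw [hRe p hp3] at hd
    have e : p.2 = p.1 + p.2 - p.1 := by ring
    have hd2 : HasDerivAt (fun v => v ^ 3 * Jf (R2 q X Y C0) (p.1, v))
        (4 / C0 * Wr X Y (p.1 + p.2) * Ph q X Y (p.1 + p.2) (sg X Y (p.1 + p.2) p.1))
        (p.1 + p.2 - p.1) := by rw [← e]; exact hd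
    exact hd2.comp_sub_const (p.1 + p.2) p.1
  have hGd : DifferentiableOn ℂ G V := by
    have hm : ∀ x ∈ V, ((x.1, x.2 - x.1) : ℂ × ℂ) ∈ Dd b' := fun x hx => hx
    have : DifferentiableOn ℂ (fun x : ℂ × ℂ => Jf (R2 q X Y C0) (x.1, x.2 - x.1)) V :=
      hJ.comp (by fun_prop) hm
    exact DifferentiableOn.mul (by fun_prop) this
  have hGa : AnalyticOnNhd ℂ G V :=
    Pool.Agent.SCV.differentiableOn_analyticOnNhd V hVo G hGd
  -- the functions of one variable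
  have hsec1 : ∀ x ∈ V, HasDerivAt (fun a => G (a, x.2)) (fderiv ℂ G x (1, 0)) x.1 := by
    intro x hx
    have hF : HasFDerivAt G (fderiv ℂ G x) (x.1, x.2) := (hGa x hx).differentiableAt.hasFDerivAt
    have hl : HasDerivAt (fun a : ℂ => ((a, x.2) : ℂ × ℂ)) (1, 0) x.1 :=
      (hasDerivAt_id x.1).prodMk (hasDerivAt_const x.1 x.2)
    exact hF.comp_hasDerivAt x.1 hl
  have hsec2 : ∀ x ∈ V, HasDerivAt (fun c => G (x.1, c)) (fderiv ℂ G x (0, 1)) x.2 := by
    intro x hx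
    have hF : HasFDerivAt G (fderiv ℂ G x) (x.1, x.2) := (hGa x hx).differentiableAt.hasFDerivAt
    have hl : HasDerivAt (fun c : ℂ => ((x.1, c) : ℂ × ℂ)) (0, 1) x.2 :=
      (hasDerivAt_const x.2 x.1).prodMk (hasDerivAt_id x.2)
    exact hF.comp_hasDerivAt x.2 hl
  have hg2 : ∀ x ∈ V, fderiv ℂ G x (0, 1) =
      4 / C0 * Wr X Y x.2 * Ph q X Y x.2 (sg X Y x.2 x.1) := by
    intro x hx
    have h1 := first (x.1, x.2 - x.1) hx
    simp only [add_sub_cancel] at h1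
    exact (hsec2 x hx).unique h1
  refine ⟨b', h0, cb, hJ, fun p hp => ⟨first p hp, ?_⟩⟩
  set a0 := p.1 with ha0
  have ha0b : |a0.im| < b' := hp.1
  have hVm : ∀ c ∈ Metric.ball a0 b', ((a0, c) : ℂ × ℂ) ∈ V := by
    intro c hc
    exact ⟨ha0b, by simpa [dist_eq_norm] using hc⟩
  -- points
  have P1 : ∀ c ∈ Metric.ball a0 b', ((a0, c - a0) : ℂ × ℂ) ∈ Dd b2 := by
    intro c hc
    have := (hVm c hc).2
    exact ⟨by simp only; linarith, by simp only at this ⊢; linarith⟩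
  have P2 : ∀ c ∈ Metric.ball a0 b', ((c, a0 - c) : ℂ × ℂ) ∈ Dd b2 := by
    intro c hc
    have h1 := hpar_p1 (b1 := b2) (p := (a0, c - a0)) c2 h0 (hVm c hc)
    have e1 : a0 + (c - a0) = c := by ring
    have e2 : -(c - a0) = a0 - c := by ring
    simp only [e1, e2] at h1
    exact h1
  have S1 : ∀ c ∈ Metric.ball a0 b', sg X Y a0 c = (c - a0) * Sg X Y (a0, c - a0) := by
    intro c hc
    have := hsg _ (P1 c hc)
    simpa only [add_sub_cancel] using this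
  have S2 : ∀ c ∈ Metric.ball a0 b', sg X Y c a0 = (a0 - c) * Sg X Y (c, a0 - c) := by
    intro c hc
    have := hsg _ (P2 c hc)
    simpa only [add_sub_cancel] using this
  have Q1 : ∀ c ∈ Metric.ball a0 b', ((a0, sg X Y a0 c) : ℂ × ℂ) ∈ Dd b1 := by
    intro c hc
    rw [S1 c hc]
    have h2 : ‖c - a0‖ < b' := (hVm c hc).2
    have h3 := hpar_sgn (hSgb _ (P1 c hc))
    refine ⟨by simp only; linarith, ?_⟩
    simp only [norm_mul]
    have : ‖c - a0‖ * ‖Sg X Y (a0, c - a0)‖ ≤ ‖c - a0‖ * (5 / 8) :=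
      mul_le_mul_of_nonneg_left h3 (norm_nonneg _)
    nlinarith [norm_nonneg (c - a0)]
  have Q2 : ∀ c ∈ Metric.ball a0 b', ((c, sg X Y c a0) : ℂ × ℂ) ∈ Dd b1 := by
    intro c hc
    rw [S2 c hc]
    have h1 := hpar_p2 (b1 := b1) (p := (a0, c - a0)) c1 h0 (hVm c hc)
      (S := Sg X Y (c, a0 - c)) (hSgb _ (P2 c hc))
    have e1 : a0 + (c - a0) = c := by ring
    have e2 : -(c - a0) = a0 - c := by ring
    simp only [e1, e2] at h1
    exact h1
  have himc : ∀ c ∈ Metric.ball a0 b', |c.im| < b := by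
    intro c hc
    have := (P2 c hc).1
    simp only at this
    linarith
  -- the second function
  set E2 : ℂ → ℂ := fun c => 4 / C0 * Wr X Y a0 * Ph q X Y a0 (sg X Y a0 c) with hE2
  set E1 : ℂ → ℂ := fun c => fderiv ℂ G (a0, c) (1, 0) with hE1
  have hE1d : ∀ c ∈ Metric.ball a0 b',
      HasDerivAt E1 (fderiv ℂ (fderiv ℂ G) (a0, c) (0, 1) (1, 0)) c := by
    intro c hc
    have hF : HasFDerivAt (fderiv ℂ G) (fderiv ℂ (fderiv ℂ G) (a0, c)) (a0, c) :=
      ((hGa _ (hVm c hc)).fderiv).differentiableAt.hasFDerivAt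
    have hl : HasDerivAt (fun c : ℂ => ((a0, c) : ℂ × ℂ)) (0, 1) c :=
      (hasDerivAt_const c a0).prodMk (hasDerivAt_id c)
    have h1 := hF.comp_hasDerivAt c hl
    exact (ContinuousLinearMap.apply ℂ ℂ ((1, 0) : ℂ × ℂ)).hasFDerivAt.comp_hasDerivAt c h1
  have hE1d' : ∀ c ∈ Metric.ball a0 b',
      HasDerivAt (fun a => 4 / C0 * Wr X Y c * Ph q X Y c (sg X Y c a))
        (fderiv ℂ (fderiv ℂ G) (a0, c) (1, 0) (0, 1)) a0 := by
    intro c hc
    have hF : HasFDerivAt (fderiv ℂ G) (fderiv ℂ (fderiv ℂ G) (a0, c)) (a0, c) :=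
      ((hGa _ (hVm c hc)).fderiv).differentiableAt.hasFDerivAt
    have hl : HasDerivAt (fun a : ℂ => ((a, c) : ℂ × ℂ)) (1, 0) a0 :=
      (hasDerivAt_id a0).prodMk (hasDerivAt_const a0 c)
    have h1 := hF.comp_hasDerivAt a0 hl
    have h2 := (ContinuousLinearMap.apply ℂ ℂ ((0, 1) : ℂ × ℂ)).hasFDerivAt.comp_hasDerivAt a0 h1
    refine h2.congr_of_eventuallyEq ?_
    have hcont : ContinuousAt (fun a : ℂ => ((a, c) : ℂ × ℂ)) a0 := by fun_prop
    filter_upwards [hcont.preimage_mem_nhds (hVo.mem_nhds (hVm c hc))] with a ha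
    exact (hg2 (a, c) ha).symm
  have hsymm : ∀ c ∈ Metric.ball a0 b', fderiv ℂ (fderiv ℂ G) (a0, c) (0, 1) (1, 0) =
      fderiv ℂ (fderiv ℂ G) (a0, c) (1, 0) (0, 1) := by
    intro c hc
    have hcd : ContDiffAt ℂ 2 G (a0, c) := (hGa _ (hVm c hc)).contDiffAt
    exact (hcd.isSymmSndFDerivAt (by simp)) (0, 1) (1, 0)
  have hE2d : DifferentiableOn ℂ E2 (Metric.ball a0 b') := by
    have d0 : DifferentiableOn ℂ (fun c => sg X Y a0 c) (Metric.ball a0 b') := by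
      have : DifferentiableOn ℂ (fun c => (c - a0) * Sg X Y (a0, c - a0)) (Metric.ball a0 b') :=
        DifferentiableOn.mul (by fun_prop) (hSg.comp (by fun_prop) P1)
      exact this.congr S1
    have d1 : DifferentiableOn ℂ (fun c => Ps q X Y (a0, sg X Y a0 c)) (Metric.ball a0 b') :=
      hPs.comp (DifferentiableOn.prodMk (by fun_prop) d0) Q1
    exact ((d0.pow 2).mul d1).const_mul _
  have hE1D : DifferentiableOn ℂ E1 (Metric.ball a0 b') :=
    fun c hc => (hE1d c hc).differentiableAt.differentiableWithinAt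
  -- the derivative of the sum vanishes
  have hder : ∀ c ∈ Metric.ball a0 b', c ≠ a0 → deriv (E1 + E2) c = 0 := by
    intro c hc hca
    have hD1 : brD X Y a0 c ≠ 0 := by
      have := hbr _ (P1 c hc) (by simpa using sub_ne_zero.2 hca)
      simpa only [add_sub_cancel] using this
    have hD2 : brD X Y c a0 ≠ 0 := by
      have := hbr _ (P2 c hc) (by simpa using sub_ne_zero.2 (Ne.symm hca))
      simpa only [add_sub_cancel] using this
    have hDD : brD X Y c a0 = -brD X Y a0 c := by unfold brD; ring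
    have hXa := hpar_X h (t := a0) (by linarith)
    have hXc := hpar_X h (himc c hc)
    have hql := ql_sg (q := q) hD1
    have s1 := hasDerivAt_sg hXa.1 hXa.2 hD2
    have s2 := hasDerivAt_sg hXc.1 hXc.2 hD1
    have p1 := (hPd _ (Q2 c hc)).comp a0 s1
    have p2 := (hPd _ (Q1 c hc)).comp c s2
    have u1 := (hE1d' c hc).unique (p1.const_mul (4 / C0 * Wr X Y c))
    have u2 : HasDerivAt E2 _ c := p2.const_mul (4 / C0 * Wr X Y a0)
    have u3 := hE1d c hc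
    rw [hsymm c hc, u1] at u3
    rw [(u3.add u2).deriv]
    simp only
    rw [← hql, hDD]
    ring
  have hsum : ∀ c ∈ Metric.ball a0 b', (E1 + E2) c = (E1 + E2) a0 := by
    have hEd : DifferentiableOn ℂ (E1 + E2) (Metric.ball a0 b') := hE1D.add hE2d
    have hcd : ContinuousOn (deriv (E1 + E2)) (Metric.ball a0 b') :=
      (hEd.deriv Metric.isOpen_ball).continuousOn
    have ha : a0 ∈ Metric.ball a0 b' := Metric.mem_ball_self h0
    have hd0 : deriv (E1 + E2) a0 = 0 := by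
      have hc : ContinuousAt (deriv (E1 + E2)) a0 :=
        hcd.continuousAt (Metric.isOpen_ball.mem_nhds ha)
      have t1 : Tendsto (deriv (E1 + E2)) (𝓝[≠] a0) (𝓝 (deriv (E1 + E2) a0)) :=
        hc.tendsto.mono_left nhdsWithin_le_nhds
      have t2 : Tendsto (deriv (E1 + E2)) (𝓝[≠] a0) (𝓝 0) := by
        refine tendsto_const_nhds.congr' ?_
        filter_upwards [self_mem_nhdsWithin,
          nhdsWithin_le_nhds (Metric.isOpen_ball.mem_nhds ha)] with c hc1 hc2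
        exact (hder c hc2 hc1).symm
      exact tendsto_nhds_unique t1 t2
    intro c hc
    refine Metric.isOpen_ball.is_const_of_deriv_eq_zero (convex_ball a0 b').isPreconnected hEd ?_
      hc ha
    intro x hx
    by_cases hxa : x = a0
    · rw [hxa]; exact hd0
    · exact hder x hx hxa
  have hE0 : (E1 + E2) a0 = 0 := by
    have ha : a0 ∈ Metric.ball a0 b' := Metric.mem_ball_self h0
    have e2 : E2 a0 = 0 := by
      simp only [hE2, sg_self, Ph]
      ring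
    have e1 : E1 a0 = 0 := by
      have h1 := hsec1 _ (hVm a0 ha)
      have hJd : DifferentiableAt ℂ (fun a => Jf (R2 q X Y C0) (a, a0 - a)) a0 := by
        have : DifferentiableAt ℂ (Jf (R2 q X Y C0)) (a0, a0 - a0) :=
          hJ.differentiableAt ((isOpen_Dd b').mem_nhds ⟨ha0b, by simpa using h0⟩)
        exact DifferentiableAt.comp (g := Jf (R2 q X Y C0)) (f := fun a : ℂ => ((a, a0 - a) : ℂ × ℂ))
          a0 this (by fun_prop)
      have hc : HasDerivAt (fun a : ℂ => (a0 - a) ^ 3) 0 a0 := by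
        have := ((hasDerivAt_id a0).const_sub a0).pow 3
        refine this.congr_deriv ?_
        simp
      have h2 := hc.mul hJd.hasDerivAt
      simp only [sub_self, ne_eq, OfNat.ofNat_ne_zero, not_false_eq_true, zero_pow, zero_mul,
        add_zero] at h2
      exact h1.unique h2
    simp only [Pi.add_apply, e1, e2, add_zero]
  have hpb : p.1 + p.2 ∈ Metric.ball a0 b' := by
    have : ‖p.2‖ < b' := hp.2
    simpa [dist_eq_norm, ha0] using this
  have hfin := hsum _ hpb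
  rw [hE0] at hfin
  have h1 := hsec1 _ (hVm _ hpb)
  refine h1.congr_deriv ?_
  simp only [Pi.add_apply, hE1, hE2] at hfin ⊢
  linear_combination hfin

end GF'

end Pool.Agent.MP_ae5b4e_an_SMG
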