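import Pool.Agent.Lib.MP_ae5b4e_an_SMG.Unif
import Pool.Agent.Lib.MP_ae5b4e_an_SMG.ParInt
import Pool.Agent.Lib.MP_ae5b4e_an_SMG.Hpar
import Pool.Agent.Lib.MP_ae5b4e_an_SM.LagCA

/-!
# MP_ae5b4e_an, project SMOOTH-G, module GG: the Lagrangian
-/

noncomputable section

namespace Pool.Agent.MP_ae5b4e_an_SMG

open Complex Set Filter Topology
open Pool.Agent.MP_ae5b4e_an_SM
open Pool.Agent.MP_ae5b4e_an_FLEX (brN brD Wr IsKick RegG GoodG)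
open Pool.Agent.MP_ae5b4e_an_hopf (ConvexCurve)

section GG
variable {q : Fin 6 → ℝ} {X Y : ℂ → ℂ} {C0 b : ℝ}

private lemma lagg_map {b₁ b' : ℝ} (h1 : b' ≤ 1) (h2 : 2 * b' ≤ b₁) (hb' : 0 < b')
    {P : ℂ × ℂ × ℂ} (hP : P ∈ DL b') : ((P.1, P.2.2 * P.2.1) : ℂ × ℂ) ∈ Dd b₁ := by
  obtain ⟨ha, hb, hc⟩ := hP
  refine ⟨lt_of_lt_of_le ha (by linarith), ?_⟩
  show ‖P.2.2 * P.2.1‖ < b₁
  have h3 : ‖P.2.1‖ ≤ 2 := by
    have h4 : ‖P.2.1‖ ≤ ‖P.2.1 - 1‖ + ‖(1 : ℂ)‖ := by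
      have := norm_add_le (P.2.1 - 1) 1
      rwa [sub_add_cancel] at this
    rw [norm_one] at h4
    linarith
  rw [norm_mul]
  calc ‖P.2.2‖ * ‖P.2.1‖ ≤ ‖P.2.2‖ * 2 := mul_le_mul_of_nonneg_left h3 (norm_nonneg _)
    _ < b' * 2 := by linarith
    _ ≤ b₁ := by linarith

private lemma lagg_fderiv {f : ℂ × ℂ × ℂ → ℂ} (P : ℂ × ℂ × ℂ) (D ρ : ℂ) :
    fderiv ℂ f P (0, -D, ρ) = ρ * Lr f P - D * LD f P := by
  have e : ((0, -D, ρ) : ℂ × ℂ × ℂ) = (-D) • (0, 1, 0) + ρ • (0, 0, 1) := by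
    ext <;> simp
  rw [e, map_add, map_smul, map_smul]
  simp only [Lr, LD, smul_eq_mul]
  ring

theorem lagg_lag (h : Cv q X Y C0 b) : ∃ b' M : ℝ, 0 < b' ∧ b' ≤ b ∧
    Lag (Lg q X Y C0) 3 b' M ∧
    ∀ t D : ℂ, |t.im| < b' → ‖D - 1‖ < b' → Lg q X Y C0 (t, D, 0) = D ^ 3 / 6 := by
  obtain ⟨b₁, hb₁, hb₁b, hdiff, hper, hreal, hzero, -⟩ := r2_an h
  have hb1 := h.b1
  have hb0 := h.b0
  obtain ⟨C, hC, hCb, -⟩ := unif hdiff hper (half_pos hb₁) (half_lt_self hb₁)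
  set b' : ℝ := b₁ / 4 with hb'
  have hb'0 : 0 < b' := by positivity
  have hb'1 : b' ≤ 1 := by rw [hb']; linarith
  have h2b' : 2 * b' ≤ b₁ / 2 := by rw [hb']; linarith
  have hsub : Dd (b₁ / 2) ⊆ Dd b₁ := Dd_mono (by linarith)
  have hd2 : DifferentiableOn ℂ (R2 q X Y C0) (Dd (b₁ / 2)) := hdiff.mono hsub
  have hmap : ∀ P ∈ DL b', ((P.1, P.2.2 * P.2.1) : ℂ × ℂ) ∈ Dd (b₁ / 2) :=
    fun P hP => lagg_map hb'1 h2b' hb'0 hP
  have hLd : DifferentiableOn ℂ (Lg q X Y C0) (DL b') := by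
    have h1 : DifferentiableOn ℂ (fun P : ℂ × ℂ × ℂ => Jf (R2 q X Y C0) (P.1, P.2.2 * P.2.1))
        (DL b') := by
      refine (jf_diff hd2).comp ?_ hmap
      exact (Differentiable.differentiableOn (by fun_prop))
    have h2 : DifferentiableOn ℂ (fun P : ℂ × ℂ × ℂ => P.2.1 ^ 3) (DL b') :=
      Differentiable.differentiableOn (by fun_prop)
    exact h2.mul h1
  have hz : ∀ t D : ℂ, |t.im| < b' → ‖D - 1‖ < b' → Lg q X Y C0 (t, D, 0) = D ^ 3 / 6 := by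
    intro t D ht _
    show D ^ 3 * Jf (R2 q X Y C0) (t, 0 * D) = D ^ 3 / 6
    rw [zero_mul, jf_zero, hzero t (ht.trans_le (by rw [hb']; linarith))]
    ring
  have hJ : AnalyticOnNhd ℂ (Jf (R2 q X Y C0)) (Dd (b₁ / 2)) :=
    Pool.Agent.SCV.differentiableOn_analyticOnNhd _ (isOpen_Dd _) _ (jf_diff hd2)
  have han : AnalyticOnNhd ℂ (Lg q X Y C0) (DL b') := by
    intro P hP
    have e1 : AnalyticAt ℂ (fun P : ℂ × ℂ × ℂ => P.1) P := analyticAt_fst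
    have e2 : AnalyticAt ℂ (fun P : ℂ × ℂ × ℂ => P.2.1) P := analyticAt_fst.comp analyticAt_snd
    have e3 : AnalyticAt ℂ (fun P : ℂ × ℂ × ℂ => P.2.2) P := analyticAt_snd.comp analyticAt_snd
    have h1 : AnalyticAt ℂ (fun P : ℂ × ℂ × ℂ => Jf (R2 q X Y C0) (P.1, P.2.2 * P.2.1)) P :=
      AnalyticAt.fun_comp (g := Jf (R2 q X Y C0)) (hJ _ (hmap P hP)) (e1.prod (e3.mul e2))
    exact (e2.pow 3).mul h1
  refine ⟨b', 8 * C, hb'0, by rw [hb']; linarith, ?_, hz⟩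
  refine ⟨hb'0, hb'1, hLd, ?_, ?_, ?_, ⟨fun _ => 0, ?_⟩, ?_⟩
  · intro P hP
    have h1 : ‖Jf (R2 q X Y C0) (P.1, P.2.2 * P.2.1)‖ ≤ C := jf_bd hCb (hmap P hP)
    have h3 : ‖P.2.1‖ ≤ 2 := by
      have h4 : ‖P.2.1‖ ≤ ‖P.2.1 - 1‖ + ‖(1 : ℂ)‖ := by
        have := norm_add_le (P.2.1 - 1) 1
        rwa [sub_add_cancel] at this
      have h5 := hP.2.1
      rw [norm_one] at h4
      linarith
    show ‖P.2.1 ^ 3 * Jf (R2 q X Y C0) (P.1, P.2.2 * P.2.1)‖ ≤ 8 * C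
    rw [norm_mul, norm_pow]
    have h6 : ‖P.2.1‖ ^ 3 ≤ 2 ^ 3 := pow_le_pow_left₀ (norm_nonneg _) h3 3
    calc ‖P.2.1‖ ^ 3 * ‖Jf (R2 q X Y C0) (P.1, P.2.2 * P.2.1)‖ ≤ 2 ^ 3 * C :=
          mul_le_mul h6 h1 (norm_nonneg _) (by positivity)
      _ = 8 * C := by ring
  · intro P hP
    show P.2.1 ^ 3 * Jf (R2 q X Y C0) (P.1 + 1, P.2.2 * P.2.1) =
      P.2.1 ^ 3 * Jf (R2 q X Y C0) (P.1, P.2.2 * P.2.1)
    rw [jf_per (fun p hp => hper p (hsub hp)) (hmap P hP)]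
  · intro P hP h1 h2 h3
    obtain ⟨t, D, ρ⟩ := P
    simp only at h1 h2 h3
    have hm := hmap _ hP
    have et : t = ((t.re : ℝ) : ℂ) := by
      apply Complex.ext <;> simp [h1]
    have eD : D = ((D.re : ℝ) : ℂ) := by
      apply Complex.ext <;> simp [h2]
    have eρ : ρ = ((ρ.re : ℝ) : ℂ) := by
      apply Complex.ext <;> simp [h3]
    show (D ^ 3 * Jf (R2 q X Y C0) (t, ρ * D)).im = 0
    have e2 : ρ * D = ((ρ.re * D.re : ℝ) : ℂ) := by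
      rw [eρ, eD]; push_cast; simp
    have e3 : D ^ 3 = ((D.re ^ 3 : ℝ) : ℂ) := by
      rw [eD]; push_cast; simp
    have hs : |ρ.re * D.re| < b₁ := by
      have h4 : ‖ρ * D‖ < b₁ / 2 := hm.2
      rw [e2, Complex.norm_real, Real.norm_eq_abs] at h4
      linarith
    have h5 := jf_real (f := R2 q X Y C0) hreal (t := t.re) hs
    rw [e3, Complex.im_ofReal_mul, e2]
    rw [← et] at h5
    rw [h5, mul_zero]
  · intro P hP
    have hd : DifferentiableAt ℂ (Lg q X Y C0) P := (han P hP).differentiableAt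
    have hc : HasDerivAt (fun s : ℂ => ((P.1, P.2.1 * (1 + s)⁻¹, P.2.2 * (1 + s)) : ℂ × ℂ × ℂ))
        (0, -P.2.1, P.2.2) 0 := by
      have h1 : HasDerivAt (fun s : ℂ => 1 + s) 1 0 := (hasDerivAt_id (0 : ℂ)).const_add 1
      have h2 : HasDerivAt (fun s : ℂ => (1 + s)⁻¹) (-1 / (1 + 0) ^ 2) 0 :=
        h1.fun_inv (by norm_num)
      have h3 := h2.const_mul P.2.1
      have h4 := h1.const_mul P.2.2
      have h5 := (hasDerivAt_const (0 : ℂ) P.1).prodMk (h3.prodMk h4)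
      convert h5 using 2
      ext <;> simp
    have e0 : ((P.1, P.2.1 * (1 + (0 : ℂ))⁻¹, P.2.2 * (1 + 0)) : ℂ × ℂ × ℂ) = P := by
      ext <;> simp
    have h1 : HasDerivAt (fun s : ℂ => Lg q X Y C0 (P.1, P.2.1 * (1 + s)⁻¹, P.2.2 * (1 + s)))
        (fderiv ℂ (Lg q X Y C0) P (0, -P.2.1, P.2.2)) 0 := by
      have h2 : HasFDerivAt (Lg q X Y C0) (fderiv ℂ (Lg q X Y C0) P)
          ((P.1, P.2.1 * (1 + (0 : ℂ))⁻¹, P.2.2 * (1 + 0)) : ℂ × ℂ × ℂ) := by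
        rw [e0]
        exact hd.hasFDerivAt
      exact h2.comp_hasDerivAt (0 : ℂ) hc
    have h2 : (fun s : ℂ => Lg q X Y C0 (P.1, P.2.1 * (1 + s)⁻¹, P.2.2 * (1 + s))) =ᶠ[𝓝 0]
        fun s => (1 + s)⁻¹ ^ 3 * Lg q X Y C0 P := by
      have h3 : ∀ᶠ s : ℂ in 𝓝 0, 1 + s ≠ 0 := by
        have h4 : ContinuousAt (fun s : ℂ => 1 + s) 0 := by fun_prop
        exact h4.eventually_ne (by norm_num)
      filter_upwards [h3] with s hs
      show (P.2.1 * (1 + s)⁻¹) ^ 3 * Jf (R2 q X Y C0) (P.1, P.2.2 * (1 + s) * (P.2.1 * (1 + s)⁻¹))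
        = (1 + s)⁻¹ ^ 3 * (P.2.1 ^ 3 * Jf (R2 q X Y C0) (P.1, P.2.2 * P.2.1))
      have e : P.2.2 * (1 + s) * (P.2.1 * (1 + s)⁻¹) = P.2.2 * P.2.1 := by
        field_simp
      rw [e]
      ring
    have h3 : HasDerivAt (fun s : ℂ => (1 + s)⁻¹ ^ 3 * Lg q X Y C0 P)
        (-3 * Lg q X Y C0 P) 0 := by
      have h1 : HasDerivAt (fun s : ℂ => 1 + s) 1 0 := (hasDerivAt_id (0 : ℂ)).const_add 1
      have h2 : HasDerivAt (fun s : ℂ => (1 + s)⁻¹) (-1 / (1 + 0) ^ 2) 0 :=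
        h1.fun_inv (by norm_num)
      refine ((h2.fun_pow 3).mul_const (Lg q X Y C0 P)).congr_deriv ?_
      norm_num
    have h4 := h1.unique (h3.congr_of_eventuallyEq h2)
    rw [lagg_fderiv] at h4
    linear_combination h4
  · intro t ht
    have hmem : ((t, 1, 0) : ℂ × ℂ × ℂ) ∈ DL b' := ⟨ht, by simpa using hb'0, by simpa using hb'0⟩
    rw [LagCA.LD_eq_deriv (LagCA.LD_an (han _ hmem)).differentiableAt]
    have h1 : (fun D => LD (Lg q X Y C0) (t, D, 0)) =ᶠ[𝓝 1] fun D => D ^ 2 / 2 := by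
      filter_upwards [Metric.ball_mem_nhds (1 : ℂ) hb'0] with D hD
      rw [Metric.mem_ball, dist_eq_norm] at hD
      have hmem' : ((t, D, 0) : ℂ × ℂ × ℂ) ∈ DL b' := ⟨ht, hD, by simpa using hb'0⟩
      rw [LagCA.LD_eq_deriv (han _ hmem').differentiableAt]
      have h2 : (fun D => Lg q X Y C0 (t, D, 0)) =ᶠ[𝓝 D] fun D => D ^ 3 / 6 := by
        filter_upwards [Metric.isOpen_ball.mem_nhds (by
          rw [Metric.mem_ball, dist_eq_norm]; exact hD : D ∈ Metric.ball (1 : ℂ) b')] with D' hD'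
        rw [Metric.mem_ball, dist_eq_norm] at hD'
        exact hz t D' ht hD'
      rw [h2.deriv_eq]
      have h3 : HasDerivAt (fun D : ℂ => D ^ 3 / 6) (D ^ 2 / 2) D := by
        refine ((hasDerivAt_pow 3 D).div_const 6).congr_deriv ?_
        push_cast
        ring
      exact h3.deriv
    rw [h1.deriv_eq]
    have h3 : HasDerivAt (fun D : ℂ => D ^ 2 / 2) 1 1 := by
      refine ((hasDerivAt_pow 2 (1 : ℂ)).div_const 2).congr_deriv ?_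
      norm_num
    exact h3.deriv

end GG

end Pool.Agent.MP_ae5b4e_an_SMG
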