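import Pool.Agent.Lib.MP_ae5b4e_an_SMG.Defs
import Pool.Agent.Lib.MP_ae5b4e_an_SMG.Unif
import Pool.Agent.Lib.MP_ae5b4e_an_SMG.Tan
import Pool.Agent.Lib.MP_ae5b4e_an_SMG.Phi
import Pool.Agent.Lib.MP_ae5b4e_an_SMG.GeoS
import Pool.Agent.Lib.MP_ae5b4e_an_SMG.ParInt
import Pool.Agent.Lib.MP_ae5b4e_an_SMG.Hpar
import Pool.Agent.Lib.MP_ae5b4e_an_SMG.LagG

/-!
# MP_ae5b4e_an, project SMOOTH-G, module GH: the Euler-Lagrange equation is the recursion
-/

noncomputable section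

namespace Pool.Agent.MP_ae5b4e_an_SMG

open Complex Set Filter Topology
open Pool.Agent.MP_ae5b4e_an_SM
open Pool.Agent.MP_ae5b4e_an_FLEX (brN brD Wr IsKick RegG GoodG)
open Pool.Agent.MP_ae5b4e_an_hopf (ConvexCurve)

section GH
variable {q : Fin 6 → ℝ} {X Y : ℂ → ℂ} {C0 b : ℝ}

private lemma elG_LD {f : ℂ × ℂ × ℂ → ℂ} {t D ρ : ℂ} (hf : DifferentiableAt ℂ f (t, D, ρ)) :
    HasDerivAt (fun D => f (t, D, ρ)) (LD f (t, D, ρ)) D := by
  have h1 : HasDerivAt (fun s : ℂ => ((t, s, ρ) : ℂ × ℂ × ℂ)) (0, 1, 0) D :=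
    (hasDerivAt_const D t).prodMk ((hasDerivAt_id D).prodMk (hasDerivAt_const D ρ))
  exact hf.hasFDerivAt.comp_hasDerivAt D h1

private lemma elG_Lt {f : ℂ × ℂ × ℂ → ℂ} {t D ρ : ℂ} (hf : DifferentiableAt ℂ f (t, D, ρ)) :
    HasDerivAt (fun t => f (t, D, ρ)) (Lt f (t, D, ρ)) t := by
  have h1 : HasDerivAt (fun s : ℂ => ((s, D, ρ) : ℂ × ℂ × ℂ)) (1, 0, 0) t :=
    (hasDerivAt_id t).prodMk ((hasDerivAt_const t D).prodMk (hasDerivAt_const t ρ))
  exact hf.hasFDerivAt.comp_hasDerivAt t h1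

private lemma elG_eq {ρ : ℂ} (hρ : ρ ≠ 0) (t D : ℂ) :
    Lg q X Y C0 (t, D, ρ) = hg q X Y C0 t (t + ρ * D) / ρ ^ 3 := by
  unfold Lg hg
  have e : t + ρ * D - t = ρ * D := by ring
  simp only [e]
  field_simp

/-- the partial derivative in the second variable -/
private lemma elG_LD_eq {ρ t D d : ℂ} (hρ : ρ ≠ 0)
    (hf : DifferentiableAt ℂ (Lg q X Y C0) (t, D, ρ))
    (hd : HasDerivAt (fun v => hg q X Y C0 t v) d (t + ρ * D)) :
    LD (Lg q X Y C0) (t, D, ρ) = d / ρ ^ 2 := by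
  have h1 : HasDerivAt (fun s : ℂ => t + ρ * s) ρ D := by
    have := ((hasDerivAt_id' D).const_mul ρ).const_add t
    rwa [mul_one] at this
  have h2 : HasDerivAt (fun s => hg q X Y C0 t (t + ρ * s)) (d * ρ) D :=
    HasDerivAt.comp (h₂ := fun v => hg q X Y C0 t v) D hd h1
  have h3 := h2.div_const (ρ ^ 3)
  have h4 : (fun s => Lg q X Y C0 (t, s, ρ)) = fun s => hg q X Y C0 t (t + ρ * s) / ρ ^ 3 := by
    funext s
    exact elG_eq hρ t s
  have h5 := elG_LD hf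
  rw [h4] at h5
  rw [h5.unique h3]
  field_simp

/-- the partial derivative in the first variable -/
private lemma elG_Lt_eq {ρ t D d d' : ℂ} (hρ : ρ ≠ 0)
    (hf : DifferentiableAt ℂ (Lg q X Y C0) (t, D, ρ))
    (hJ : DifferentiableAt ℂ (Jf (R2 q X Y C0)) (t, ρ * D))
    (hd : HasDerivAt (fun v => hg q X Y C0 t v) d (t + ρ * D))
    (hd' : HasDerivAt (fun a => hg q X Y C0 a (t + ρ * D)) d' t) :
    Lt (Lg q X Y C0) (t, D, ρ) = (d + d') / ρ ^ 3 := by
  -- the function of two variables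
  set H : ℂ × ℂ → ℂ := fun P => hg q X Y C0 P.1 P.2 with hH
  have e : t + ρ * D - t = ρ * D := by ring
  have hHd : DifferentiableAt ℂ H (t, t + ρ * D) := by
    have g1 : DifferentiableAt ℂ (fun P : ℂ × ℂ => ((P.1, P.2 - P.1) : ℂ × ℂ)) (t, t + ρ * D) := by
      fun_prop
    have g2 : DifferentiableAt ℂ (fun P : ℂ × ℂ => Jf (R2 q X Y C0) (P.1, P.2 - P.1))
        (t, t + ρ * D) := by
      refine DifferentiableAt.comp (g := Jf (R2 q X Y C0)) _ ?_ g1
      simp only [e]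
      exact hJ
    have g3 : DifferentiableAt ℂ (fun P : ℂ × ℂ => (P.2 - P.1) ^ 3) (t, t + ρ * D) := by
      fun_prop
    exact g3.mul g2
  have hHf := hHd.hasFDerivAt
  have k1 : HasDerivAt (fun v => H (t, v)) (fderiv ℂ H (t, t + ρ * D) (0, 1)) (t + ρ * D) :=
    hHf.comp_hasDerivAt (t + ρ * D) ((hasDerivAt_const _ t).prodMk (hasDerivAt_id _))
  have k2 : HasDerivAt (fun a => H (a, t + ρ * D)) (fderiv ℂ H (t, t + ρ * D) (1, 0)) t :=
    hHf.comp_hasDerivAt (f := fun a : ℂ => (a, t + ρ * D)) t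
      ((hasDerivAt_id t).prodMk (hasDerivAt_const _ _))
  have k3 : HasDerivAt (fun s => H (s, s + ρ * D)) (fderiv ℂ H (t, t + ρ * D) (1, 1)) t :=
    hHf.comp_hasDerivAt (f := fun s : ℂ => (s, s + ρ * D)) t
      ((hasDerivAt_id t).prodMk ((hasDerivAt_id t).add_const _))
  have k4 : fderiv ℂ H (t, t + ρ * D) (1, 1) = d + d' := by
    have : ((1, 1) : ℂ × ℂ) = (0, 1) + (1, 0) := by simp
    rw [this, map_add, k1.unique hd, k2.unique hd']
  rw [k4] at k3
  have h3 := k3.div_const (ρ ^ 3)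
  have h4 : (fun s => Lg q X Y C0 (s, D, ρ)) = fun s => H (s, s + ρ * D) / ρ ^ 3 := by
    funext s
    exact elG_eq hρ s D
  have h5 := elG_Lt hf
  rw [h4] at h5
  exact h5.unique h3

theorem lagg_el (h : Cv q X Y C0 b) : ∃ b' : ℝ, 0 < b' ∧ b' ≤ b ∧ ElP q X Y C0 b' := by
  obtain ⟨b1, M, hb1, hb1b, hL, -⟩ := lagg_lag h
  obtain ⟨b2, hb2, hb2b, hJ, hpart⟩ := hg_partials h
  obtain ⟨b3, hb3, hb3b, -, hSg, -, -, -, hsg⟩ := sg_an h
  obtain ⟨b4, hb4, hb4b, -, -, -, -, -, -, hPh⟩ := ph_an h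
  set b' : ℝ := min (min b1 b2) (min b3 b4) / 4 with hb'
  have hb1' : 4 * b' ≤ b1 := by
    rw [hb']
    linarith [min_le_left (min b1 b2) (min b3 b4), min_le_left b1 b2]
  have hb2' : 4 * b' ≤ b2 := by
    rw [hb']
    linarith [min_le_left (min b1 b2) (min b3 b4), min_le_right b1 b2]
  have hb3' : 4 * b' ≤ b3 := by
    rw [hb']
    linarith [min_le_right (min b1 b2) (min b3 b4), min_le_left b3 b4]
  have hb4' : 4 * b' ≤ b4 := by
    rw [hb']
    linarith [min_le_right (min b1 b2) (min b3 b4), min_le_right b3 b4]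
  have hb0 : 0 < b' := by
    rw [hb']
    have := lt_min (lt_min hb1 hb2) (lt_min hb3 hb4)
    linarith
  have hb1'' : b' ≤ 1 / 4 := by
    have := h.b1
    linarith
  refine ⟨b', hb0, by linarith, ?_⟩
  intro ρ x y z hρ hρb hx hy hz hyx
  -- the increments
  set D : ℂ := (z - y) / ρ with hD
  set D' : ℂ := (y - x) / ρ with hD'
  have eD : ρ * D = z - y := by rw [hD]; field_simp
  have eD' : ρ * D' = y - x := by rw [hD']; field_simp
  have nD : ‖D‖ ≤ 2 := by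
    have h2 : ‖D‖ ≤ ‖D - 1‖ + ‖(1 : ℂ)‖ := by
      have := norm_add_le (D - 1) 1
      rwa [sub_add_cancel] at this
    rw [norm_one] at h2
    linarith
  have nD' : ‖D'‖ ≤ 2 := by
    have h2 : ‖D'‖ ≤ ‖D' - 1‖ + ‖(1 : ℂ)‖ := by
      have := norm_add_le (D' - 1) 1
      rwa [sub_add_cancel] at this
    rw [norm_one] at h2
    linarith
  have nz : ‖z - y‖ < 2 * b' := by
    rw [← eD, norm_mul]
    calc ‖ρ‖ * ‖D‖ ≤ ‖ρ‖ * 2 := by gcongr
      _ < b' * 2 := by linarith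
      _ = _ := by ring
  have nx : ‖y - x‖ < 2 * b' := by
    rw [← eD', norm_mul]
    calc ‖ρ‖ * ‖D'‖ ≤ ‖ρ‖ * 2 := by gcongr
      _ < b' * 2 := by linarith
      _ = _ := by ring
  have m1 : (y, D, ρ) ∈ DL b1 := ⟨by show |y.im| < b1; linarith, by show ‖D - 1‖ < b1; linarith,
    by show ‖ρ‖ < b1; linarith⟩
  have m2 : (x, D', ρ) ∈ DL b1 := ⟨by show |x.im| < b1; linarith,
    by show ‖D' - 1‖ < b1; linarith, by show ‖ρ‖ < b1; linarith⟩
  have f1 : DifferentiableAt ℂ (Lg q X Y C0) (y, D, ρ) :=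
    hL.diff.differentiableAt ((isOpen_DL b1).mem_nhds m1)
  have f2 : DifferentiableAt ℂ (Lg q X Y C0) (x, D', ρ) :=
    hL.diff.differentiableAt ((isOpen_DL b1).mem_nhds m2)
  have p1 : (y, z - y) ∈ Dd b2 := ⟨by show |y.im| < b2; linarith,
    by show ‖z - y‖ < b2; linarith⟩
  have p2 : (x, y - x) ∈ Dd b2 := ⟨by show |x.im| < b2; linarith,
    by show ‖y - x‖ < b2; linarith⟩
  have e1 : y + (z - y) = z := by ring
  have e2 : x + (y - x) = y := by ring
  obtain ⟨a1, a2⟩ := hpart _ p1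
  obtain ⟨a3, -⟩ := hpart _ p2
  simp only [e1] at a1 a2
  simp only [e2] at a3
  have hJ1 : DifferentiableAt ℂ (Jf (R2 q X Y C0)) (y, ρ * D) := by
    rw [eD]
    exact hJ.differentiableAt ((isOpen_Dd b2).mem_nhds p1)
  have c1 : y + ρ * D = z := by rw [eD]; ring
  have c2 : x + ρ * D' = y := by rw [eD']; ring
  have t1 := elG_Lt_eq (q := q) (X := X) (Y := Y) (C0 := C0) hρ f1 hJ1 (by rw [c1]; exact a1)
    (by rw [c1]; exact a2)
  have t2 := elG_LD_eq (q := q) (X := X) (Y := Y) (C0 := C0) hρ f1 (by rw [c1]; exact a1)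
  have t3 := elG_LD_eq (q := q) (X := X) (Y := Y) (C0 := C0) hρ f2 (by rw [c2]; exact a3)
  -- the values of `sg`
  have q1 : (y, z - y) ∈ Dd b3 := ⟨by show |y.im| < b3; linarith,
    by show ‖z - y‖ < b3; linarith⟩
  have q2 : (y, x - y) ∈ Dd b3 := ⟨by show |y.im| < b3; linarith,
    by show ‖x - y‖ < b3; rw [norm_sub_rev]; linarith⟩
  have s1 := hsg _ q1
  have s2 := hsg _ q2
  have e3 : y + (x - y) = x := by ring
  simp only [e1] at s1
  simp only [e3] at s2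
  have w1 := hSg _ q1
  have w2 := hSg _ q2
  set S : ℂ := Sg X Y (y, z - y) with hS
  set S' : ℂ := Sg X Y (y, x - y) with hS'
  have nS : ‖S‖ ≤ 5 / 8 := by
    have h2 : ‖S‖ ≤ ‖S - 1 / 2‖ + ‖(1 / 2 : ℂ)‖ := by
      have := norm_add_le (S - 1 / 2) (1 / 2)
      rwa [sub_add_cancel] at this
    have h3 : ‖(1 / 2 : ℂ)‖ = 1 / 2 := by norm_num
    rw [h3] at h2
    linarith
  have nS' : ‖S'‖ ≤ 5 / 8 := by
    have h2 : ‖S'‖ ≤ ‖S' - 1 / 2‖ + ‖(1 / 2 : ℂ)‖ := by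
      have := norm_add_le (S' - 1 / 2) (1 / 2)
      rwa [sub_add_cancel] at this
    have h3 : ‖(1 / 2 : ℂ)‖ = 1 / 2 := by norm_num
    rw [h3] at h2
    linarith
  have rS : 0 < (D * S).re := by
    have h2 : ‖D * S - 1 / 2‖ ≤ 9 / 32 := by
      have h3 : D * S - 1 / 2 = (S - 1 / 2) + (D - 1) * S := by ring
      rw [h3]
      refine (norm_add_le _ _).trans ?_
      rw [norm_mul]
      have h4 : ‖D - 1‖ * ‖S‖ ≤ 1 / 4 * (5 / 8) :=
        mul_le_mul (by linarith) nS (norm_nonneg _) (by norm_num)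
      linarith
    have h3 := (abs_re_le_norm (D * S - 1 / 2)).trans h2
    rw [sub_re] at h3
    have h4 : ((1 / 2 : ℂ)).re = 1 / 2 := by norm_num
    rw [h4, abs_le] at h3
    linarith [h3.1]
  have rS' : 0 < (D' * S').re := by
    have h2 : ‖D' * S' - 1 / 2‖ ≤ 9 / 32 := by
      have h3 : D' * S' - 1 / 2 = (S' - 1 / 2) + (D' - 1) * S' := by ring
      rw [h3]
      refine (norm_add_le _ _).trans ?_
      rw [norm_mul]
      have h4 : ‖D' - 1‖ * ‖S'‖ ≤ 1 / 4 * (5 / 8) :=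
        mul_le_mul (by linarith) nS' (norm_nonneg _) (by norm_num)
      linarith
    have h3 := (abs_re_le_norm (D' * S' - 1 / 2)).trans h2
    rw [sub_re] at h3
    have h4 : ((1 / 2 : ℂ)).re = 1 / 2 := by norm_num
    rw [h4, abs_le] at h3
    linarith [h3.1]
  have v1 : sg X Y y z = ρ * (D * S) := by
    rw [s1, ← eD]; ring
  have v2 : sg X Y y x = -(ρ * (D' * S')) := by
    rw [s2]
    have : x - y = -(ρ * D') := by rw [eD']; ring
    rw [this]; ring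
  have n1 : sg X Y y z ≠ 0 := by
    rw [v1]
    refine mul_ne_zero hρ ?_
    intro h0
    rw [h0] at rS
    simp at rS
  have n2 : sg X Y y x ≠ 0 := by
    rw [v2, neg_ne_zero]
    refine mul_ne_zero hρ ?_
    intro h0
    rw [h0] at rS'
    simp at rS'
  have n3 : sg X Y y x ≠ sg X Y y z := by
    intro h0
    rw [v1, v2] at h0
    have h1 : ρ * (D * S + D' * S') = 0 := by
      linear_combination -h0
    rcases mul_eq_zero.1 h1 with h2 | h2
    · exact hρ h2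
    · have h3 := congrArg Complex.re h2
      rw [add_re, zero_re] at h3
      linarith
  have d1 : (y, sg X Y y z) ∈ Dd b4 := by
    refine ⟨by show |y.im| < b4; linarith, ?_⟩
    show ‖sg X Y y z‖ < b4
    rw [s1, norm_mul]
    calc ‖z - y‖ * ‖S‖ ≤ (2 * b') * (5 / 8) := mul_le_mul nz.le nS (norm_nonneg _) (by linarith)
      _ < b4 := by linarith
  have d2 : (y, sg X Y y x) ∈ Dd b4 := by
    refine ⟨by show |y.im| < b4; linarith, ?_⟩
    show ‖sg X Y y x‖ < b4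
    rw [s2, norm_mul, norm_sub_rev]
    calc ‖y - x‖ * ‖S'‖ ≤ (2 * b') * (5 / 8) := mul_le_mul nx.le nS' (norm_nonneg _) (by linarith)
      _ < b4 := by linarith
  rw [← hPh y (sg X Y y x) (sg X Y y z) d2 d1 n2 n1 n3]
  -- `Wr` does not vanish
  have hyb : |y.im| < b := by linarith
  have hA : qA q X Y y ≠ 0 := by
    obtain ⟨m, hm, hm'⟩ := h.Ap
    have := hm' y hyb
    intro h0
    rw [h0, zero_re] at this
    linarith
  have hC : (C0 : ℂ) ≠ 0 := by
    have := h.C00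
    exact_mod_cast this.ne'
  have hW : Wr X Y y ≠ 0 := by
    rw [h.norm y hyb]
    exact mul_ne_zero hC (mul_ne_zero hA (sq_ne _))
  -- the final computation
  unfold el
  rw [← hD, ← hD', t1, t2, t3]
  have key : (4 / (C0 : ℂ) * Wr X Y z * Ph q X Y z (sg X Y z y) +
      -(4 / C0 * Wr X Y y * Ph q X Y y (sg X Y y z))) / ρ ^ 3 -
      (4 / C0 * Wr X Y z * Ph q X Y z (sg X Y z y) / ρ ^ 2 -
        4 / C0 * Wr X Y y * Ph q X Y y (sg X Y y x) / ρ ^ 2) / ρ =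
      4 / C0 * Wr X Y y / ρ ^ 3 * (Ph q X Y y (sg X Y y x) - Ph q X Y y (sg X Y y z)) := by
    field_simp
    ring
  rw [key]
  have hne : 4 / (C0 : ℂ) * Wr X Y y / ρ ^ 3 ≠ 0 :=
    div_ne_zero (mul_ne_zero (div_ne_zero (by norm_num) hC) hW) (pow_ne_zero 3 hρ)
  rw [mul_eq_zero, or_iff_right hne, sub_eq_zero]

end GH

end Pool.Agent.MP_ae5b4e_an_SMG
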