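import Pool.Agent.Lib.MP_ae5b4e_an_SMG.Defs
import Pool.Agent.Lib.MP_ae5b4e_an_FLEX.GeoK
import Pool.Agent.Lib.MP_ae5b4e_an_SM.GoodC

/-!
# MP_ae5b4e_an, project SMOOTH-G, module GL: from the analytic family to the first integral
-/

noncomputable section

namespace Pool.Agent.MP_ae5b4e_an_SMG

open Complex Set Filter Topology
open Pool.Agent.MP_ae5b4e_an_SM
open Pool.Agent.MP_ae5b4e_an_FLEX (brN brD Wr IsKick RegG GoodG)
open Pool.Agent.MP_ae5b4e_an_hopf (ConvexCurve)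

section SecL

open Pool.Agent.MP_ae5b4e_an_FLEX (Kick TY GoodY exists_ND exists_kick)
open Pool.Agent.MP_ae5b4e_an_FLEX.GeoK (tendsto_kick)

/-- the kick of the curve and its uniqueness in terms of `sg` -/
theorem lgKick {X Y K : ℂ → ℂ} {t₀ : ℂ} (h : RegG X Y K t₀) :
    ∃ A : ℂ × ℂ → ℂ, IsKick X Y K A t₀ ∧ ∃ ρ > 0, ∀ x y y' : ℂ, ‖x - t₀‖ < ρ → ‖y‖ < ρ →
      ‖y'‖ < ρ → y ≠ 0 → y' ≠ 0 →
      (sg X Y x (x + y))⁻¹ + (sg X Y x (x - y'))⁻¹ = K x → y' = A (x, y) := by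
  obtain ⟨hX, hY, hK, hW⟩ := h
  obtain ⟨N, D, hN, hD, hND, haxis⟩ := exists_ND hX hY
  have hN0 : N (t₀, 0) = Wr X Y t₀ / 2 := haxis.self_of_nhds.1
  have hD0 : D (t₀, 0) = Wr X Y t₀ := haxis.self_of_nhds.2.1
  have hDne : D (t₀, 0) ≠ 0 := by rw [hD0]; exact hW
  have hNne : N (t₀, 0) ≠ 0 := by rw [hN0]; exact div_ne_zero hW two_ne_zero
  set m : ℂ × ℂ → ℂ := fun p => p.2 * (N p / D p) with hm
  have hsnd : AnalyticAt ℂ (fun p : ℂ × ℂ => p.2) (t₀, 0) := analyticAt_snd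
  have hma : AnalyticAt ℂ m (t₀, 0) := hsnd.mul (hN.div hD hDne)
  have hm0 : ∀ᶠ t in 𝓝 t₀, m (t, 0) = 0 := Eventually.of_forall fun t => by simp [hm]
  have hm1 : deriv (fun y => m (t₀, y)) 0 ≠ 0 := by
    have h1 : AnalyticAt ℂ (fun y : ℂ => ((t₀, y) : ℂ × ℂ)) 0 :=
      analyticAt_const.prod analyticAt_id
    have h2 : AnalyticAt ℂ (fun y : ℂ => N (t₀, y) / D (t₀, y)) 0 :=
      AnalyticAt.comp (g := fun p => N p / D p) (f := fun y : ℂ => ((t₀, y) : ℂ × ℂ))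
        (hN.div hD hDne) h1
    have h3 : HasDerivAt (fun y : ℂ => y * (N (t₀, y) / D (t₀, y)))
        (1 * (N (t₀, 0) / D (t₀, 0)) + 0 * deriv (fun y : ℂ => N (t₀, y) / D (t₀, y)) 0) 0 :=
      (hasDerivAt_id (0:ℂ)).mul h2.differentiableAt.hasDerivAt
    have h4 : deriv (fun y => m (t₀, y)) 0 = N (t₀, 0) / D (t₀, 0) := by
      have := h3.deriv
      simp only [hm]
      rw [this]
      ring
    rw [h4]
    exact div_ne_zero hNne hDne
  obtain ⟨A, hA, hAr, ρ, hρ, hun⟩ := exists_kick hma hm0 hm1 hK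
  have hDev : ∀ᶠ p in 𝓝 ((t₀, 0) : ℂ × ℂ), D p ≠ 0 := hD.continuousAt.eventually_ne hDne
  have hNev : ∀ᶠ p in 𝓝 ((t₀, 0) : ℂ × ℂ), N p ≠ 0 := hN.continuousAt.eventually_ne hNne
  refine ⟨A, ⟨hA, ?_⟩, ?_⟩
  · have hk := tendsto_kick hA.ana.continuousAt hA.zero.self_of_nhds
    filter_upwards [hAr, hND, hk.eventually hND, hDev, hk.eventually hDev] with p h1 h2 h3 h4 h5
    obtain ⟨h2a, h2b⟩ := h2
    obtain ⟨h3a, h3b⟩ := h3
    simp only [← sub_eq_add_neg] at h3a h3b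
    rw [h2a, h2b, h3a, h3b]
    simp only [hm] at h1
    set N1 := N p
    set D1 := D p
    set N2 := N (p.1, -A p)
    set D2 := D (p.1, -A p)
    field_simp at h1
    linear_combination (A p * p.2) * h1
  · -- the uniqueness
    have hev := hND.and (hDev.and hNev)
    obtain ⟨ε, hε, hball⟩ := Metric.eventually_nhds_iff.1 hev
    refine ⟨min ρ ε, lt_min hρ hε, ?_⟩
    intro x y y' hx hy hy' hy0 hy'0 hrel
    have hmem : ∀ z : ℂ, ‖z‖ < min ρ ε → dist ((x, z) : ℂ × ℂ) (t₀, 0) < ε := by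
      intro z hz
      rw [Prod.dist_eq, max_lt_iff]
      refine ⟨?_, ?_⟩
      · simpa [dist_eq_norm] using hx.trans_le (min_le_right _ _)
      · simpa [dist_eq_norm] using hz.trans_le (min_le_right _ _)
    have h1 := hball (hmem y hy)
    have h2 := hball (hmem (-y') (by simpa using hy'))
    simp only [← sub_eq_add_neg] at h1 h2
    obtain ⟨⟨h1a, h1b⟩, h1c, h1d⟩ := h1
    obtain ⟨⟨h2a, h2b⟩, h2c, h2d⟩ := h2
    refine hun x y y' (hx.trans_le (min_le_left _ _)) (hy.trans_le (min_le_left _ _))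
      (hy'.trans_le (min_le_left _ _)) ?_
    unfold sg at hrel
    rw [h1a, h1b, h2a, h2b] at hrel
    simp only [hm]
    rw [← hrel]
    set N1 := N (x, y)
    set D1 := D (x, y)
    set N2 := N (x, -y')
    set D2 := D (x, -y')
    field_simp
    ring

/-- the linear map `(u, v) ↦ (α u + β v, α v)` -/
def lgEquiv (α β : ℂ) (h : α ≠ 0) : (ℂ × ℂ) ≃L[ℂ] (ℂ × ℂ) :=
  ContinuousLinearEquiv.equivOfInverse
    ((α • ContinuousLinearMap.fst ℂ ℂ ℂ + β • ContinuousLinearMap.snd ℂ ℂ ℂ).prod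
      (α • ContinuousLinearMap.snd ℂ ℂ ℂ))
    ((α⁻¹ • ContinuousLinearMap.fst ℂ ℂ ℂ - (β / α ^ 2) • ContinuousLinearMap.snd ℂ ℂ ℂ).prod
      (α⁻¹ • ContinuousLinearMap.snd ℂ ℂ ℂ))
    (by
      intro p
      ext
      · simp
        field_simp
        ring
      · simp
        field_simp)
    (by
      intro p
      ext
      · simp
        field_simp
        ring
      · simp
        field_simp)

theorem lgEquiv_apply (α β : ℂ) (h : α ≠ 0) (p : ℂ × ℂ) :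
    lgEquiv α β h p = (α * p.1 + β * p.2, α * p.2) := by
  simp [lgEquiv]

/-- from a family of solutions of the recursion to the first integral -/
theorem goodG_of_family {X Y K : ℂ → ℂ} {Θ : ℂ × ℂ → ℂ} {t₀ α : ℂ}
    (hΘ : AnalyticAt ℂ Θ (t₀, 0)) (hα : HasDerivAt (fun t => Θ (t, 0)) α t₀) (h0 : α ≠ 0)
    (hreg : RegG X Y K (Θ (t₀, 0)))
    (hrel : ∀ᶠ p in 𝓝 ((t₀, 0) : ℂ × ℂ), p.2 ≠ 0 → Θ (p.1 - p.2, p.2) ≠ Θ p →
      Θ (p.1 + p.2, p.2) ≠ Θ p →
      (sg X Y (Θ p) (Θ (p.1 + p.2, p.2)))⁻¹ + (sg X Y (Θ p) (Θ (p.1 - p.2, p.2)))⁻¹ =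
        K (Θ p)) : GoodG X Y K (Θ (t₀, 0)) := by
  obtain ⟨A, hA, ρ, hρ, hun⟩ := lgKick hreg
  refine ⟨hreg, A, hA, hA.1, ?_⟩
  set a : ℂ × ℂ := (t₀, 0) with ha
  set L := fderiv ℂ Θ a with hL
  have hXL : HasFDerivAt Θ L a := hΘ.differentiableAt.hasFDerivAt
  set β : ℂ := L (0, 1) with hβ
  have hα' : L (1, 0) = α := by
    have h1 : HasDerivAt (fun t : ℂ => ((t, 0) : ℂ × ℂ)) (1, 0) t₀ :=
      (hasDerivAt_id t₀).prodMk (hasDerivAt_const t₀ (0 : ℂ))
    have h2 := hXL.comp_hasDerivAt t₀ h1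
    exact h2.unique hα
  let sm : ℂ × ℂ → ℂ × ℂ := fun p => (p.1 - p.2, p.2)
  let sp : ℂ × ℂ → ℂ × ℂ := fun p => (p.1 + p.2, p.2)
  have hsma : sm a = a := by simp [sm, ha]
  have hspa : sp a = a := by simp [sp, ha]
  have hspA : AnalyticAt ℂ sp a := by
    refine AnalyticAt.prod (f := fun p : ℂ × ℂ => p.1 + p.2) (g := fun p : ℂ × ℂ => p.2) ?_ ?_
    · exact analyticAt_fst.add analyticAt_snd
    · exact analyticAt_snd
  have hspc : Tendsto sp (𝓝 a) (𝓝 a) := by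
    have : Continuous sp := by fun_prop
    simpa [hspa] using this.tendsto a
  have hsmc : Tendsto sm (𝓝 a) (𝓝 a) := by
    have : Continuous sm := by fun_prop
    simpa [hsma] using this.tendsto a
  let Φ : ℂ × ℂ → ℂ × ℂ := fun p => (Θ p, Θ (sp p) - Θ p)
  have hXsp : AnalyticAt ℂ (fun p => Θ (sp p)) a := by
    have h1 : AnalyticAt ℂ Θ (sp a) := by rw [hspa]; exact hΘ
    exact h1.comp hspA
  have hΦA : AnalyticAt ℂ Φ a := hΘ.prod (hXsp.sub hΘ)
  have hΦa : Φ a = (Θ a, 0) := by simp [Φ, hspa]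
  have hspD : HasFDerivAt sp ((ContinuousLinearMap.fst ℂ ℂ ℂ + ContinuousLinearMap.snd ℂ ℂ ℂ).prod
      (ContinuousLinearMap.snd ℂ ℂ ℂ)) a :=
    (hasFDerivAt_fst.add hasFDerivAt_snd).prodMk hasFDerivAt_snd
  have hΦD : HasFDerivAt Φ ((lgEquiv α β h0 : (ℂ × ℂ) ≃L[ℂ] (ℂ × ℂ)) : ℂ × ℂ →L[ℂ] ℂ × ℂ) a := by
    have h1 : HasFDerivAt Θ L (sp a) := by rw [hspa]; exact hXL
    have h2 := hXL.prodMk ((h1.comp a hspD).sub hXL)
    convert! h2 using 1
    ext
    · simp [lgEquiv_apply, hα']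
    · simp [lgEquiv_apply]
    · simp [lgEquiv_apply, hβ]
    · have e : L (1, 1) = α + β := by
        have : ((1, 1) : ℂ × ℂ) = ((1, 0) : ℂ × ℂ) + ((0, 1) : ℂ × ℂ) := by
          ext <;> simp
        rw [this, map_add, hα']
      simp [lgEquiv_apply, e, hβ]
  obtain ⟨g, hgA, hga, hgl, hgr⟩ := szInv hΦA hΦD
  rw [hΦa] at hgA hga hgr
  have hgc : Tendsto g (𝓝 (Θ a, 0)) (𝓝 a) := by
    have := hgA.continuousAt.tendsto
    rwa [hga] at this
  -- the line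
  have hXl : AnalyticAt ℂ (fun t : ℂ => Θ (t, 0)) t₀ := by
    have h1 : AnalyticAt ℂ (fun t : ℂ => ((t, 0) : ℂ × ℂ)) t₀ := analyticAt_id.prod analyticAt_const
    exact AnalyticAt.comp (g := Θ) (f := fun t : ℂ => ((t, 0) : ℂ × ℂ)) hΘ h1
  obtain ⟨σ, hσA, hσ0, -, hσr⟩ := szInv1 hXl hα h0
  have hline : ∀ᶠ x in 𝓝 (Θ a), (g (x, 0)).2 = 0 := by
    have h1 : Tendsto (fun x => ((σ x, 0) : ℂ × ℂ)) (𝓝 (Θ a)) (𝓝 a) := by
      have h2 := hσA.continuousAt.tendsto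
      rw [hσ0] at h2
      exact h2.prodMk_nhds tendsto_const_nhds
    filter_upwards [h1.eventually hgl, hσr] with x h2 h3
    have h4 : Φ (σ x, 0) = (x, 0) := by
      simp only [Φ, sp, add_zero, sub_self]
      rw [h3]
    rw [h4] at h2
    rw [h2]
  have hXc : Tendsto Θ (𝓝 a) (𝓝 (Θ a)) := hΘ.continuousAt
  have hinj : ∀ᶠ p in 𝓝 a, Θ (sp p) = Θ p → p.2 = 0 := by
    filter_upwards [hgl, hXc.eventually hline] with p h2 h3 h4
    have h5 : Φ p = (Θ p, 0) := by simp only [Φ, h4, sub_self]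
    rw [h5] at h2
    rw [h2] at h3
    exact h3
  refine ⟨fun q => (g q).2, ?_, hline, ?_, ?_⟩
  · exact analyticAt_snd.comp hgA
  · have hS : AnalyticAt ℂ (fun q : ℂ × ℂ => (g q).2) (Θ a, 0) := analyticAt_snd.comp hgA
    set S : ℂ × ℂ → ℂ := fun q => (g q).2 with hSdef
    have h1 : HasFDerivAt S (fderiv ℂ S (Θ a, 0)) (Φ a) := by
      rw [hΦa]
      exact hS.differentiableAt.hasFDerivAt
    have h2 := h1.comp a hΦD
    have h3 : HasFDerivAt (S ∘ Φ) (ContinuousLinearMap.snd ℂ ℂ ℂ) a := by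
      refine HasFDerivAt.congr_of_eventuallyEq (f := fun p : ℂ × ℂ => p.2) hasFDerivAt_snd ?_
      filter_upwards [hgl] with p hp
      simp only [Function.comp_apply, hSdef, hp]
    have h4 := h2.unique h3
    have h5 := DFunLike.congr_fun h4 (-(β / α) * α⁻¹, α⁻¹)
    have h6 : lgEquiv α β h0 (-(β / α) * α⁻¹, α⁻¹) = (0, 1) := by
      rw [lgEquiv_apply]
      ext
      · simp
        field_simp
        ring
      · simp [h0]
    rw [ContinuousLinearMap.comp_apply, ContinuousLinearEquiv.coe_coe, h6] at h5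
    have h7 : HasDerivAt (fun y : ℂ => ((Θ a, y) : ℂ × ℂ)) (0, 1) 0 :=
      (hasDerivAt_const (0 : ℂ) (Θ a)).prodMk (hasDerivAt_id (0 : ℂ))
    have h8 : HasDerivAt (fun y => S (Θ a, y)) (fderiv ℂ S (Θ a, 0) (0, 1)) 0 :=
      hS.differentiableAt.hasFDerivAt.comp_hasDerivAt (0 : ℂ) h7
    rw [h8.deriv, h5]
    simp [h0]
  · have hd1 : ∀ᶠ p in 𝓝 a, ‖Θ p - Θ a‖ < ρ := by
      have h1 : ContinuousAt (fun p => ‖Θ p - Θ a‖) a := (hΘ.continuousAt.sub_const _).norm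
      exact h1.eventually_lt continuousAt_const (by simpa using hρ)
    have hd2 : ∀ᶠ p in 𝓝 a, ‖Θ (sp p) - Θ p‖ < ρ := by
      have h1 : ContinuousAt (fun p => ‖Θ (sp p) - Θ p‖) a :=
        (hXsp.continuousAt.sub hΘ.continuousAt).norm
      refine h1.eventually_lt continuousAt_const ?_
      simp only [hspa, sub_self, norm_zero]
      exact hρ
    have hzero : ∀ᶠ p in 𝓝 a, A (Θ p, 0) = 0 := hXc.eventually hA.1.zero
    have h1 : ∀ᶠ p in 𝓝 a, (g (TY A (Φ p))).2 = (g (Φ p)).2 := by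
      filter_upwards [hgl, hsmc.eventually hgl, hrel, hinj, hsmc.eventually hinj, hd1, hd2,
        hsmc.eventually hd2, hzero] with p h2 h3 h4 h5 h6 h9 h10 h11 h12
      by_cases hp : p.2 = 0
      · have h7 : Φ p = (Θ p, 0) := by
          have : sp p = p := by
            ext <;> simp [sp, hp]
          simp only [Φ, this, sub_self]
        have h8 : TY A (Φ p) = Φ p := by
          rw [h7]
          simp [TY, h12]
        rw [h8]
      · have h7 : sp (sm p) = p := by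
          ext <;> simp [sm, sp]
        have hpl : Θ (sp p) ≠ Θ p := fun h => hp (h5 h)
        have hm : Θ (sm p) ≠ Θ p := by
          intro h
          rw [h7] at h6
          exact hp (h6 h.symm)
        rw [h7] at h11
        have h8 := h4 hp hm hpl
        have h13 : Θ p - Θ (sm p) = A (Θ p, Θ (sp p) - Θ p) := by
          refine hun (Θ p) (Θ (sp p) - Θ p) (Θ p - Θ (sm p)) h9 h10 h11 (sub_ne_zero.2 hpl)
            (sub_ne_zero.2 hm.symm) ?_
          rw [add_sub_cancel, sub_sub_cancel]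
          exact h8
        have h14 : TY A (Φ p) = Φ (sm p) := by
          have h15 : A (Φ p) = Θ p - Θ (sm p) := h13.symm
          simp only [TY]
          rw [h15]
          simp only [Φ, h7, sub_sub_cancel]
        rw [h14, h3, h2]
    filter_upwards [hgc.eventually h1, hgr] with q h2 h3
    rw [h3] at h2
    exact h2

end SecL

end Pool.Agent.MP_ae5b4e_an_SMG
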