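import Mathlib
import Pool.Agent.Lib.MP_ae5b4e_an_SMG.Defs
import Pool.Agent.Lib.MP_ae5b4e_an_SM.PsiEx
import Pool.Agent.Lib.MP_ae5b4e_an_SM.Ext

/-!
# MP_ae5b4e_an, project SMOOTH-G, module GK: the parameter with `W = C₀ A ^ (3/2)`
-/

noncomputable section

namespace Pool.Agent.MP_ae5b4e_an_SMG

open Complex Set Filter Topology
open Pool.Agent.MP_ae5b4e_an_SM
open Pool.Agent.MP_ae5b4e_an_FLEX (brN brD Wr IsKick RegG GoodG)
open Pool.Agent.MP_ae5b4e_an_hopf (ConvexCurve)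

namespace ParG

/-- real points determine the complex derivative -/
lemma deriv_real {F : ℂ → ℂ} {f : ℝ → ℝ} {f' : ℝ} {t : ℝ} (hF : DifferentiableAt ℂ F t)
    (h : ∀ s : ℝ, F s = (f s : ℂ)) (hf : HasDerivAt f f' t) : deriv F t = (f' : ℂ) := by
  have h1 : HasDerivAt (fun s : ℝ => F s) (deriv F t) t := hF.hasDerivAt.comp_ofReal
  rw [show (fun s : ℝ => F s) = fun s : ℝ => (f s : ℂ) from funext h] at h1
  exact h1.unique hf.ofReal_comp

/-- a holomorphic function of period one on a strip, positive on the real line, has a real part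
bounded below on a smaller strip -/
lemma re_pos {g : ℂ → ℂ} {b : ℝ} (hb : 0 < b) (hg : DifferentiableOn ℂ g {t | |t.im| < b})
    (hper : ∀ t : ℂ, |t.im| < b → g (t + 1) = g t) (hpos : ∀ t : ℝ, 0 < (g t).re) :
    ∃ b' m : ℝ, 0 < b' ∧ b' ≤ b ∧ 0 < m ∧ ∀ t : ℂ, |t.im| < b' → m ≤ (g t).re := by
  have hmem : ∀ x : ℝ, (x : ℂ) ∈ {t : ℂ | |t.im| < b} := by
    intro x
    show |(x : ℂ).im| < b
    rw [ofReal_im, abs_zero]
    exact hb
  set K : Set ℂ := (fun x : ℝ => (x : ℂ)) '' Icc 0 1 with hK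
  have hKc : IsCompact K := isCompact_Icc.image continuous_ofReal
  have hKn : K.Nonempty := ⟨_, mem_image_of_mem _ (left_mem_Icc.2 zero_le_one)⟩
  have hgc : ContinuousOn (fun t => (g t).re) {t : ℂ | |t.im| < b} :=
    continuous_re.comp_continuousOn hg.continuousOn
  have hKs : K ⊆ {t : ℂ | |t.im| < b} := by
    rintro _ ⟨x, -, rfl⟩
    exact hmem x
  obtain ⟨t0, ht0, hmin⟩ := hKc.exists_isMinOn hKn (hgc.mono hKs)
  obtain ⟨x0, -, rfl⟩ := ht0
  set M : ℝ := (g (x0 : ℂ)).re with hM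
  have hM0 : 0 < M := hpos x0
  have hU : IsOpen ({t : ℂ | |t.im| < b} ∩ (fun t => (g t).re) ⁻¹' Ioi (M / 2)) :=
    hgc.isOpen_inter_preimage (PsiEx.isOpen_str b) isOpen_Ioi
  obtain ⟨δ, hδ, hth⟩ := hKc.exists_thickening_subset_open hU (by
    intro t ht
    refine ⟨hKs ht, ?_⟩
    have h1 : M ≤ (g t).re := hmin ht
    show M / 2 < (g t).re
    linarith)
  have hnat : ∀ n : ℕ, ∀ t : ℂ, |t.im| < b → g (t + n) = g t := by
    intro n
    induction n with
    | zero => intro t _; simp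
    | succ n ih =>
      intro t ht
      have e : t + ((n + 1 : ℕ) : ℂ) = (t + n) + 1 := by push_cast; ring
      rw [e, hper _ (by simpa using ht), ih t ht]
  have hint : ∀ n : ℤ, ∀ t : ℂ, |t.im| < b → g (t - n) = g t := by
    intro n t ht
    obtain ⟨k, rfl | rfl⟩ := n.eq_nat_or_neg
    · have h1 := hnat k (t - (k : ℂ)) (by simpa using ht)
      rw [sub_add_cancel] at h1
      rw [Int.cast_natCast]
      exact h1.symm
    · have h1 := hnat k t ht
      rw [Int.cast_neg, Int.cast_natCast, sub_neg_eq_add]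
      exact h1
  refine ⟨min b δ, M / 2, lt_min hb hδ, min_le_left _ _, by positivity, fun t ht => ?_⟩
  have ht1 : |t.im| < b := ht.trans_le (min_le_left _ _)
  have ht2 : |t.im| < δ := ht.trans_le (min_le_right _ _)
  rw [← hint ⌊t.re⌋ t ht1]
  have h1 : t - (⌊t.re⌋ : ℂ) ∈ Metric.thickening δ K := by
    rw [Metric.mem_thickening_iff]
    refine ⟨((Int.fract t.re : ℝ) : ℂ), mem_image_of_mem _
      ⟨Int.fract_nonneg _, (Int.fract_lt_one _).le⟩, ?_⟩
    rw [dist_eq_norm]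
    have e : t - (⌊t.re⌋ : ℂ) - ((Int.fract t.re : ℝ) : ℂ) = (t.im : ℂ) * I := by
      have e1 : t.re - (⌊t.re⌋ : ℝ) - Int.fract t.re = 0 := by
        have := Int.floor_add_fract t.re
        linarith
      apply Complex.ext
      · simp only [sub_re, ofReal_re, mul_re, I_re, I_im, ofReal_im, mul_zero, zero_mul, sub_zero,
          intCast_re]
        exact e1
      · simp
    rw [e, norm_mul, norm_I, mul_one, norm_real, Real.norm_eq_abs]
    exact ht2
  exact (hth h1).2.le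

lemma sq_real {x : ℝ} (hx : 0 < x) : sq (x : ℂ) = ((Real.exp (Real.log x / 2) : ℝ) : ℂ) := by
  unfold sq
  rw [← ofReal_log hx.le]
  push_cast
  rfl

lemma qA_real {q : Fin 6 → ℝ} {X Y : ℂ → ℂ} {t x y : ℝ} (hx : X t = (x : ℂ))
    (hy : Y t = (y : ℂ)) : qA q X Y t = ((QR q x y : ℝ) : ℂ) := by
  unfold qA QQ QR
  rw [hx, hy]
  push_cast
  ring

lemma qA_diff {q : Fin 6 → ℝ} {X Y : ℂ → ℂ} {U : Set ℂ} (hX : DifferentiableOn ℂ X U)
    (hY : DifferentiableOn ℂ Y U) : DifferentiableOn ℂ (qA q X Y) U := by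
  unfold qA QQ
  fun_prop

end ParG

variable {q : Fin 6 → ℝ}

theorem exists_cv (γ : ConvexCurve) (hx : ∀ t, AnalyticAt ℝ γ.x t)
    (hy : ∀ t, AnalyticAt ℝ γ.y t) (hq : ∀ t, 0 < QR q (γ.x t) (γ.y t)) :
    ∃ (X Y : ℂ → ℂ) (C0 b : ℝ) (ψ ψ' : ℝ → ℝ), Cv q X Y C0 b ∧ Rel γ X Y ψ ψ' := by
  have hT := γ.T_pos
  -- periodicity of the derivatives
  have hdper : ∀ f : ℝ → ℝ, (∀ t, f (t + γ.T) = f t) → ∀ t, deriv f (t + γ.T) = deriv f t := by
    intro f hf t
    rw [← deriv_comp_add_const]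
    exact congrArg (fun g => deriv g t) (funext hf)
  have hpx' := hdper _ γ.per_x
  have hpy' := hdper _ γ.per_y
  have hpx'' := hdper _ hpx'
  have hpy'' := hdper _ hpy'
  -- the form on the curve
  set A : ℝ → ℝ := fun t => QR q (γ.x t) (γ.y t) with hA
  have hApos : ∀ t, 0 < A t := hq
  have hAa : ∀ t, AnalyticAt ℝ A t := by
    intro t
    have h1 := hx t
    have h2 := hy t
    show AnalyticAt ℝ (fun t => QR q (γ.x t) (γ.y t)) t
    unfold QR
    exact (((((analyticAt_const.mul (h1.pow 2)).add (analyticAt_const.mul (h1.mul h2))).add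
      (analyticAt_const.mul (h2.pow 2))).add (analyticAt_const.mul h1)).add
      (analyticAt_const.mul h2)).add analyticAt_const
  have hAp : ∀ t, A (t + γ.T) = A t := by
    intro t
    show QR q (γ.x (t + γ.T)) (γ.y (t + γ.T)) = QR q (γ.x t) (γ.y t)
    rw [γ.per_x, γ.per_y]
  -- the Wronskian
  set W : ℝ → ℝ := fun t => deriv γ.x t * deriv (deriv γ.y) t - deriv γ.y t * deriv (deriv γ.x) t
    with hW
  have hWpos : ∀ t, 0 < W t := γ.curved
  have hWa : ∀ t, AnalyticAt ℝ W t := fun t =>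
    ((hx t).deriv.mul (hy t).deriv.deriv).sub ((hy t).deriv.mul (hx t).deriv.deriv)
  have hWp : ∀ t, W (t + γ.T) = W t := by
    intro t
    show deriv γ.x (t + γ.T) * deriv (deriv γ.y) (t + γ.T) -
      deriv γ.y (t + γ.T) * deriv (deriv γ.x) (t + γ.T) = _
    rw [hpx', hpy', hpx'', hpy'']
  -- the density
  set w : ℝ → ℝ := fun t => Real.exp (Real.log (W t) / 3 - Real.log (A t) / 2) with hw
  have hwa : ∀ t, AnalyticAt ℝ w t := by
    intro t
    have h1 : AnalyticAt ℝ (fun t => Real.log (W t) / 3 - Real.log (A t) / 2) t :=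
      (((hWa t).log (hWpos t)).div_const).sub (((hAa t).log (hApos t)).div_const)
    exact h1.rexp'
  have hwpos : ∀ t, 0 < w t := fun t => Real.exp_pos _
  have hwp : ∀ t, w (t + γ.T) = w t := fun t => by
    show Real.exp (Real.log (W (t + γ.T)) / 3 - Real.log (A (t + γ.T)) / 2) = _
    rw [hWp, hAp]
  have hw3 : ∀ t, w t ^ 3 * (A t * Real.exp (Real.log (A t) / 2)) = W t := by
    intro t
    have h1 : w t ^ 3 = Real.exp (Real.log (W t) - 3 / 2 * Real.log (A t)) := by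
      show Real.exp _ ^ 3 = _
      rw [← Real.exp_nat_mul]
      congr 1
      push_cast
      ring
    calc w t ^ 3 * (A t * Real.exp (Real.log (A t) / 2))
        = Real.exp (Real.log (W t) - 3 / 2 * Real.log (A t)) *
          (Real.exp (Real.log (A t)) * Real.exp (Real.log (A t) / 2)) := by
          rw [h1, Real.exp_log (hApos t)]
      _ = Real.exp (Real.log (W t)) := by
          rw [← Real.exp_add, ← Real.exp_add]
          congr 1
          ring
      _ = W t := Real.exp_log (hWpos t)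
  have hwc : Continuous w := continuous_iff_continuousAt.2 fun x => (hwa x).continuousAt
  set T0 : ℝ := ∫ s in (0)..γ.T, w s with hT0
  have hT0pos : 0 < T0 := intervalIntegral.intervalIntegral_pos_of_pos
    (hwc.intervalIntegrable _ _) hwpos hT
  set τ : ℝ → ℝ := fun x => (∫ s in (0)..x, w s) / T0 with hτ
  have hτa : ∀ x, AnalyticAt ℝ τ x := fun x => (PsiEx.prim hwa hT hwp x).div_const
  have hτd : ∀ x, HasDerivAt τ (w x / T0) x := fun x =>
    (intervalIntegral.integral_hasDerivAt_right (hwc.intervalIntegrable _ _)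
      (hwc.stronglyMeasurableAtFilter _ _) hwc.continuousAt).div_const T0
  have hτp : ∀ x, τ (x + γ.T) = τ x + 1 := by
    intro x
    have h1 : Function.Periodic w γ.T := hwp
    have h2 := h1.intervalIntegral_add_eq x 0
    rw [zero_add] at h2
    have h3 := intervalIntegral.integral_add_adjacent_intervals
      (hwc.intervalIntegrable (μ := MeasureTheory.volume) 0 x)
      (hwc.intervalIntegrable (μ := MeasureTheory.volume) x (x + γ.T))
    show (∫ s in (0)..(x + γ.T), w s) / T0 = (∫ s in (0)..x, w s) / T0 + 1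
    rw [← h3, h2, add_div, div_self hT0pos.ne']
  obtain ⟨σ, -, hσp, hσa, hσd⟩ := PsiEx.inv hτa hT hτp hτd (fun x => div_pos (hwpos x) hT0pos)
  set σ' : ℝ → ℝ := fun t => (w (σ t) / T0)⁻¹ with hσ'
  have hσ'pos : ∀ t, 0 < σ' t := fun t => inv_pos.2 (div_pos (hwpos _) hT0pos)
  have hσ'a : ∀ t, AnalyticAt ℝ σ' t := by
    intro t
    have h1 : AnalyticAt ℝ (fun t => w (σ t)) t :=
      AnalyticAt.fun_comp (f := σ) (g := w) (hwa (σ t)) (hσa t)
    exact h1.div_const.inv (div_pos (hwpos _) hT0pos).ne'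
  have hσ'3 : ∀ t, W (σ t) * σ' t ^ 3 =
      T0 ^ 3 * (A (σ t) * Real.exp (Real.log (A (σ t)) / 2)) := by
    intro t
    rw [← hw3]
    show _ * ((w (σ t) / T0)⁻¹) ^ 3 = _
    have h1 := (hwpos (σ t)).ne'
    have h2 := hT0pos.ne'
    field_simp
  -- the complex curve
  have hxσ : ∀ t, AnalyticAt ℝ (fun t => γ.x (σ t)) t := fun t =>
    AnalyticAt.fun_comp (f := σ) (g := γ.x) (hx (σ t)) (hσa t)
  have hyσ : ∀ t, AnalyticAt ℝ (fun t => γ.y (σ t)) t := fun t =>
    AnalyticAt.fun_comp (f := σ) (g := γ.y) (hy (σ t)) (hσa t)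
  obtain ⟨b1, X, hb1, hXd, hXr, hXp⟩ := exists_strip hxσ one_pos
    (fun t => by show γ.x (σ (t + 1)) = γ.x (σ t); rw [hσp, γ.per_x])
  obtain ⟨b2, Y, hb2, hYd, hYr, hYp⟩ := exists_strip hyσ one_pos
    (fun t => by show γ.y (σ (t + 1)) = γ.y (σ t); rw [hσp, γ.per_y])
  rw [ofReal_one] at hXp hYp
  set b3 : ℝ := min (min b1 b2) 1 with hb3
  have hb30 : 0 < b3 := lt_min (lt_min hb1 hb2) one_pos
  have hb31 : b3 ≤ b1 := (min_le_left _ _).trans (min_le_left _ _)
  have hb32 : b3 ≤ b2 := (min_le_left _ _).trans (min_le_right _ _)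
  have hXd3 : DifferentiableOn ℂ X {t | |t.im| < b3} := hXd.mono fun t (ht : |t.im| < b3) =>
    lt_of_lt_of_le ht hb31
  have hYd3 : DifferentiableOn ℂ Y {t | |t.im| < b3} := hYd.mono fun t (ht : |t.im| < b3) =>
    lt_of_lt_of_le ht hb32
  have hAr : ∀ t : ℝ, qA q X Y t = ((A (σ t) : ℝ) : ℂ) := fun t => ParG.qA_real (hXr t) (hYr t)
  obtain ⟨b, m, hb0, hbb, hm, hre⟩ := ParG.re_pos hb30 (ParG.qA_diff (q := q) hXd3 hYd3)
    (fun t ht => by
      unfold qA
      rw [hXp t (ht.trans_le hb31), hYp t (ht.trans_le hb32)])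
    (fun t => by rw [hAr, ofReal_re]; exact hApos _)
  have hXdb : DifferentiableOn ℂ X {t | |t.im| < b} := hXd3.mono fun t (ht : |t.im| < b) =>
    lt_of_lt_of_le ht hbb
  have hYdb : DifferentiableOn ℂ Y {t | |t.im| < b} := hYd3.mono fun t (ht : |t.im| < b) =>
    lt_of_lt_of_le ht hbb
  have hopen := PsiEx.isOpen_str b
  have hmem : ∀ x : ℝ, (x : ℂ) ∈ {t : ℂ | |t.im| < b} := by
    intro x
    show |(x : ℂ).im| < b
    rw [ofReal_im, abs_zero]
    exact hb0
  have hat : ∀ {F : ℂ → ℂ}, DifferentiableOn ℂ F {t | |t.im| < b} → ∀ t : ℝ,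
      DifferentiableAt ℂ F t := fun hF t => hF.differentiableAt (hopen.mem_nhds (hmem t))
  -- real derivatives
  have hX1 : ∀ t : ℝ, deriv X t = ((deriv γ.x (σ t) * σ' t : ℝ) : ℂ) := fun t =>
    ParG.deriv_real (hat hXdb t) hXr ((γ.hd_x (σ t)).comp t (hσd t))
  have hY1 : ∀ t : ℝ, deriv Y t = ((deriv γ.y (σ t) * σ' t : ℝ) : ℂ) := fun t =>
    ParG.deriv_real (hat hYdb t) hYr ((γ.hd_y (σ t)).comp t (hσd t))
  have hσ'd : ∀ t, HasDerivAt σ' (deriv σ' t) t := fun t =>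
    (hσ'a t).differentiableAt.hasDerivAt
  have hX2 : ∀ t : ℝ, deriv (deriv X) t = ((deriv (deriv γ.x) (σ t) * σ' t * σ' t +
      deriv γ.x (σ t) * deriv σ' t : ℝ) : ℂ) := fun t =>
    ParG.deriv_real (hat (hXdb.deriv hopen) t) hX1
      (((γ.hd_x' (σ t)).comp t (hσd t)).mul (hσ'd t))
  have hY2 : ∀ t : ℝ, deriv (deriv Y) t = ((deriv (deriv γ.y) (σ t) * σ' t * σ' t +
      deriv γ.y (σ t) * deriv σ' t : ℝ) : ℂ) := fun t =>
    ParG.deriv_real (hat (hYdb.deriv hopen) t) hY1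
      (((γ.hd_y' (σ t)).comp t (hσd t)).mul (hσ'd t))
  have hWr : ∀ t : ℝ, Wr X Y t = ((W (σ t) * σ' t ^ 3 : ℝ) : ℂ) := by
    intro t
    unfold Wr
    rw [hX1, hY1, hX2, hY2, ← ofReal_mul, ← ofReal_mul, ← ofReal_sub]
    congr 1
    show _ = (deriv γ.x (σ t) * deriv (deriv γ.y) (σ t) -
      deriv γ.y (σ t) * deriv (deriv γ.x) (σ t)) * σ' t ^ 3
    ring
  have hqAd : DifferentiableOn ℂ (qA q X Y) {t | |t.im| < b} := ParG.qA_diff hXdb hYdb
  refine ⟨X, Y, T0 ^ 3, b, σ, σ', ?_, ?_⟩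
  · refine ⟨hb0, hbb.trans (min_le_right _ _), by positivity, hXdb, hYdb,
      fun t ht => hXp t (ht.trans_le (hbb.trans hb31)),
      fun t ht => hYp t (ht.trans_le (hbb.trans hb32)),
      fun t => by rw [hXr, ofReal_im], fun t => by rw [hYr, ofReal_im], ⟨m, hm, hre⟩, ?_⟩
    have hL : DifferentiableOn ℂ (Wr X Y) {t | |t.im| < b} := by
      unfold Wr
      exact ((hXdb.deriv hopen).mul ((hYdb.deriv hopen).deriv hopen)).sub
        ((hYdb.deriv hopen).mul ((hXdb.deriv hopen).deriv hopen))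
    have hR : DifferentiableOn ℂ
        (fun t => ((T0 ^ 3 : ℝ) : ℂ) * (qA q X Y t * sq (qA q X Y t))) {t | |t.im| < b} := by
      refine (differentiableOn_const _).mul (hqAd.mul ?_)
      unfold sq
      refine (DifferentiableOn.cexp ((hqAd.clog ?_).div_const 2))
      intro t ht
      exact Or.inl (hm.trans_le (hre t ht))
    have heq := ext_ident hopen (PsiEx.convex_str b).isPreconnected hL hR (hmem 0)
      (Eventually.of_forall fun t : ℝ => by
        show Wr X Y t = ((T0 ^ 3 : ℝ) : ℂ) * (qA q X Y t * sq (qA q X Y t))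
        rw [hWr, hAr, ParG.sq_real (hApos _), ← ofReal_mul, ← ofReal_mul, hσ'3])
    exact fun t ht => heq ht
  · exact ⟨hXr, hYr, hσa, hσd, hσ'pos, hσp⟩

theorem qK_real {γ : ConvexCurve} {X Y : ℂ → ℂ} {C0 b : ℝ} {ψ ψ' : ℝ → ℝ} (h : Cv q X Y C0 b)
    (hR : Rel γ X Y ψ ψ') (t : ℝ) : qK q X Y t = ((kR q γ (ψ t) * ψ' t : ℝ) : ℂ) := by
  have hmem : (t : ℂ) ∈ {t : ℂ | |t.im| < b} := by
    show |(t : ℂ).im| < b
    rw [ofReal_im, abs_zero]
    exact h.b0
  have hAr : ∀ t : ℝ, qA q X Y t = ((QR q (γ.x (ψ t)) (γ.y (ψ t)) : ℝ) : ℂ) := fun t =>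
    ParG.qA_real (hR.X t) (hR.Y t)
  have hd : DifferentiableAt ℝ (fun s => QR q (γ.x s) (γ.y s)) (ψ t) := by
    have h1 := (γ.hd_x (ψ t)).differentiableAt
    have h2 := (γ.hd_y (ψ t)).differentiableAt
    unfold QR
    fun_prop
  have h1 : deriv (qA q X Y) t = ((deriv (fun s => QR q (γ.x s) (γ.y s)) (ψ t) * ψ' t : ℝ) : ℂ) :=
    ParG.deriv_real ((ParG.qA_diff h.Xd h.Yd).differentiableAt
      ((PsiEx.isOpen_str b).mem_nhds hmem)) hAr (hd.hasDerivAt.comp t (hR.d t))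
  unfold qK kR
  rw [h1, hAr t]
  push_cast
  ring

end Pool.Agent.MP_ae5b4e_an_SMG
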