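import Pool.Agent.Lib.MP_ae5b4e_an_SMG.Defs
import Pool.Agent.Lib.MP_ae5b4e_an_SMG.LocG
import Pool.Agent.Lib.MP_ae5b4e_an_SMG.ParG
import Pool.Agent.Lib.MP_ae5b4e_an_SM.Ext
import Pool.Agent.Lib.MP_ae5b4e_an_FLEX.RealGoodC
import Pool.Agent.Lib.SCV.Osgood

/-!
# MP_ae5b4e_an, project SMOOTH-G, module GM: from the family to the first integral
-/

noncomputable section

namespace Pool.Agent.MP_ae5b4e_an_SMG

open Complex Set Filter Topology
open Pool.Agent.MP_ae5b4e_an_SM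
open Pool.Agent.MP_ae5b4e_an_FLEX (brN brD Wr IsKick RegG GoodG)
open Pool.Agent.MP_ae5b4e_an_hopf (ConvexCurve)

section GM
variable {q : Fin 6 → ℝ} {Xt Yt : ℂ → ℂ} {C0 b : ℝ} {γ : ConvexCurve} {ψ ψ' : ℝ → ℝ}

/-- identity theorem at a real point -/
private lemma gg_ident {f g : ℂ → ℂ} {x : ℝ} (hf : AnalyticAt ℂ f x) (hg : AnalyticAt ℂ g x)
    (h : ∀ᶠ y : ℝ in 𝓝 x, f y = g y) : ∀ᶠ z in 𝓝 (x : ℂ), f z = g z := by
  refine (hf.frequently_eq_iff_eventually_eq hg).1 ?_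
  have h1 : Tendsto (fun y : ℝ => (y : ℂ)) (𝓝[≠] x) (𝓝[≠] (x : ℂ)) := by
    refine tendsto_nhdsWithin_of_tendsto_nhds_of_eventually_within _
      ((continuous_ofReal.tendsto x).mono_left nhdsWithin_le_nhds) ?_
    filter_upwards [self_mem_nhdsWithin] with y hy h
    have h' : (y : ℂ) = (x : ℂ) := h
    exact hy (ofReal_injective h')
  exact h1.frequently (h.filter_mono nhdsWithin_le_nhds).frequently

/-- the coordinates of a point for two parametrisations -/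
private lemma gg_sg {X Y : ℂ → ℂ} {a b a' b' pa pb : ℂ} (hXa : Xt a = X a') (hYa : Yt a = Y a')
    (hXb : Xt b = X b') (hYb : Yt b = Y b') (hXa' : deriv Xt a = deriv X a' * pa)
    (hYa' : deriv Yt a = deriv Y a' * pa) (hXb' : deriv Xt b = deriv X b' * pb)
    (hYb' : deriv Yt b = deriv Y b' * pb) (hpb : pb ≠ 0) :
    (sg Xt Yt a b)⁻¹ = pa * (sg X Y a' b')⁻¹ := by
  unfold sg brN brD
  rw [hXa, hYa, hXb, hYb, hXa', hYa', hXb', hYb', inv_div, inv_div]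
  have e1 : deriv X a' * pa * (deriv Y b' * pb) - deriv Y a' * pa * (deriv X b' * pb) =
      (pa * (deriv X a' * deriv Y b' - deriv Y a' * deriv X b')) * pb := by ring
  have e2 : (X b' - X a') * (deriv Y b' * pb) - (Y b' - Y a') * (deriv X b' * pb) =
      ((X b' - X a') * deriv Y b' - (Y b' - Y a') * deriv X b') * pb := by ring
  rw [e1, e2, mul_div_mul_right _ _ hpb, mul_div_assoc]

theorem good_g (h : Cv q Xt Yt C0 b) (hR : Rel γ Xt Yt ψ ψ') {c r κ' : ℝ} {F : ℂ × ℂ → ℂ}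
    (hF : GF c r κ' F) (hc : 0 < c) (hr : 0 < r) (hκ' : κ' ≤ 1 / 16) (hcb : c + κ' < b)
    (hel : ∀ p ∈ Dm {-1, 0, 1} c r, p.2 ≠ 0 →
      (sg Xt Yt (F p) (F (p.1 - p.2, p.2)))⁻¹ + (sg Xt Yt (F p) (F (p.1 + p.2, p.2)))⁻¹ =
        qK q Xt Yt (F p))
    {t₀ : ℝ} {X Y K : ℂ → ℂ} (hX : AnalyticAt ℂ X t₀) (hY : AnalyticAt ℂ Y t₀)
    (hK : AnalyticAt ℂ K t₀) (hXr : ∀ᶠ t : ℝ in 𝓝 t₀, X t = γ.x t)
    (hYr : ∀ᶠ t : ℝ in 𝓝 t₀, Y t = γ.y t) (hKr : ∀ᶠ t : ℝ in 𝓝 t₀, K t = ((kR q γ t : ℝ) : ℂ)) :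
    GoodG X Y K t₀ := by
  -- the family
  have hFd : DifferentiableOn ℂ F (Dm {0} c r) := by
    have h1 : DifferentiableOn ℂ (fun p : ℂ × ℂ => (F p - p.1) + p.1) (Dm {0} c r) :=
      hF.ap.diff.add differentiableOn_fst
    refine h1.congr fun p _ => ?_
    ring
  have hmem0 : ∀ t : ℝ, ((t : ℂ), (0 : ℂ)) ∈ Dm {0} c r := by
    intro t
    rw [mem_Dm]
    simp [hc, hr]
  have hmem3 : ∀ t : ℝ, ((t : ℂ), (0 : ℂ)) ∈ Dm {-1, 0, 1} c r := by
    intro t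
    rw [mem_Dm]
    simp [hc, hr]
  have hFreal : ∀ t : ℝ, F (t, 0) = (((F (t, 0)).re : ℝ) : ℂ) := by
    intro t
    have h1 := hF.ap.real _ (hmem0 t) (by simp) (by simp)
    apply Complex.ext
    · simp
    · simpa using h1
  -- the base point
  set th : ℝ → ℝ := fun t => ψ (F (t, 0)).re with hth
  have hthc : Continuous th := by
    rw [continuous_iff_continuousAt]
    intro t
    have h1 : ContinuousAt F ((t : ℂ), 0) :=
      hFd.continuousOn.continuousAt ((isOpen_Dm _ _ _).mem_nhds (hmem0 t))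
    have h2 : ContinuousAt (fun s : ℝ => ((s : ℂ), (0 : ℂ))) t := by fun_prop
    have h3 : ContinuousAt (fun s : ℝ => F (s, 0)) t := by
      exact ContinuousAt.comp (g := F) (f := fun s : ℝ => ((s : ℂ), (0 : ℂ))) h1 h2
    have h4 : ContinuousAt ψ (F (t, 0)).re := (hR.d _).continuousAt
    exact ContinuousAt.comp (g := ψ) (f := fun s : ℝ => (F (s, 0)).re) h4
      (continuous_re.continuousAt.comp h3)
  have hth1 : ∀ t, th (t + 1) = th t + γ.T := by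
    intro t
    have h1 := hF.ap.per _ (hmem0 t)
    have h2 : F ((t : ℂ) + 1, 0) = F (t, 0) + 1 := by
      have h3 : F ((t : ℂ) + 1, 0) - ((t : ℂ) + 1) = F ((t : ℂ), 0) - t := h1
      linear_combination h3
    simp only [hth]
    rw [ofReal_add, ofReal_one, h2, add_re, one_re, hR.per]
  have hthn : ∀ n : ℕ, th n = th 0 + n * γ.T ∧ th (-(n : ℝ)) = th 0 - n * γ.T := by
    intro n
    induction n with
    | zero => simp
    | succ n ih =>
      refine ⟨?_, ?_⟩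
      · push_cast
        rw [hth1, ih.1]
        ring
      · have h1 := hth1 (-((n + 1 : ℕ) : ℝ))
        have h2 : -((n + 1 : ℕ) : ℝ) + 1 = -(n : ℝ) := by push_cast; ring
        rw [h2, ih.2] at h1
        push_cast at h1 ⊢
        linarith
  obtain ⟨s₀, hs₀⟩ : ∃ s₀, th s₀ = t₀ := by
    have hT := γ.T_pos
    obtain ⟨n, hn⟩ := exists_nat_ge (|th 0 - t₀| / γ.T)
    have h1 : |th 0 - t₀| ≤ n * γ.T := (div_le_iff₀ hT).1 hn
    have h2 := abs_le.1 h1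
    have h3 : t₀ ∈ range th := by
      refine mem_range_of_exists_le_of_exists_ge hthc ⟨-(n : ℝ), ?_⟩ ⟨n, ?_⟩
      · rw [(hthn n).2]; linarith
      · rw [(hthn n).1]; linarith
    exact h3
  set τ₀ : ℝ := (F (s₀, 0)).re with hτ₀
  have hFs₀ : F (s₀, 0) = (τ₀ : ℂ) := hFreal s₀
  have hψτ : ψ τ₀ = t₀ := hs₀
  -- the complexification of `ψ`
  obtain ⟨ρ, hρ, P, hPd, hPr⟩ := ext_local (hR.an τ₀)
  have hPA : AnalyticAt ℂ P τ₀ :=
    hPd.analyticAt (Metric.isOpen_ball.mem_nhds (Metric.mem_ball_self hρ))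
  have hPr' : ∀ᶠ t : ℝ in 𝓝 τ₀, P t = ψ t := by
    filter_upwards [Metric.ball_mem_nhds τ₀ hρ] with t ht
    exact hPr t (by rwa [Metric.mem_ball, Real.dist_eq] at ht)
  have hP0 : P τ₀ = t₀ := by rw [hPr'.self_of_nhds, hψτ]
  have hP'r : ∀ᶠ t : ℝ in 𝓝 τ₀, deriv P t = ((ψ' t : ℝ) : ℂ) := by
    filter_upwards [Pool.Agent.MP_ae5b4e_an_FLEX.RealGood.deriv_real hPA
      (fun t => (hR.d t).differentiableAt) hPr'] with t ht
    rw [ht, (hR.d t).deriv]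
  have hP'0 : deriv P τ₀ ≠ 0 := by
    rw [hP'r.self_of_nhds]
    exact_mod_cast (hR.pos τ₀).ne'
  have hPc : Tendsto P (𝓝 (τ₀ : ℂ)) (𝓝 (t₀ : ℂ)) := by
    have := hPA.continuousAt.tendsto
    rwa [hP0] at this
  have hψc : Tendsto ψ (𝓝 τ₀) (𝓝 t₀) := by
    have := (hR.d τ₀).continuousAt.tendsto
    rwa [hψτ] at this
  -- the curve near `τ₀`
  have hb0 := h.b0
  have hstrip : IsOpen {t : ℂ | |t.im| < b} :=
    isOpen_lt (continuous_abs.comp continuous_im) continuous_const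
  have hτs : (τ₀ : ℂ) ∈ {t : ℂ | |t.im| < b} := by simp [hb0]
  have hXtA : AnalyticAt ℂ Xt τ₀ := h.Xd.analyticAt (hstrip.mem_nhds hτs)
  have hYtA : AnalyticAt ℂ Yt τ₀ := h.Yd.analyticAt (hstrip.mem_nhds hτs)
  have hXPA : AnalyticAt ℂ (fun z => X (P z)) τ₀ :=
    AnalyticAt.fun_comp (g := X) (f := P) (by rw [hP0]; exact hX) hPA
  have hYPA : AnalyticAt ℂ (fun z => Y (P z)) τ₀ :=
    AnalyticAt.fun_comp (g := Y) (f := P) (by rw [hP0]; exact hY) hPA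
  have hKPA : AnalyticAt ℂ (fun z => K (P z)) τ₀ :=
    AnalyticAt.fun_comp (g := K) (f := P) (by rw [hP0]; exact hK) hPA
  have eX : ∀ᶠ z in 𝓝 (τ₀ : ℂ), Xt z = X (P z) := by
    refine gg_ident hXtA hXPA ?_
    filter_upwards [hPr', hψc.eventually hXr] with t h1 h2
    rw [hR.X, h1, h2]
  have eY : ∀ᶠ z in 𝓝 (τ₀ : ℂ), Yt z = Y (P z) := by
    refine gg_ident hYtA hYPA ?_
    filter_upwards [hPr', hψc.eventually hYr] with t h1 h2
    rw [hR.Y, h1, h2]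
  have hPan := hPA.eventually_analyticAt
  have eX' : ∀ᶠ z in 𝓝 (τ₀ : ℂ), deriv Xt z = deriv X (P z) * deriv P z := by
    filter_upwards [eX.eventually_nhds, hPan, hPc.eventually hX.eventually_analyticAt]
      with z h1 h2 h3
    rw [Filter.EventuallyEq.deriv_eq h1]
    exact (h3.differentiableAt.hasDerivAt.comp z h2.differentiableAt.hasDerivAt).deriv
  have eY' : ∀ᶠ z in 𝓝 (τ₀ : ℂ), deriv Yt z = deriv Y (P z) * deriv P z := by
    filter_upwards [eY.eventually_nhds, hPan, hPc.eventually hY.eventually_analyticAt]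
      with z h1 h2 h3
    rw [Filter.EventuallyEq.deriv_eq h1]
    exact (h3.differentiableAt.hasDerivAt.comp z h2.differentiableAt.hasDerivAt).deriv
  have eP : ∀ᶠ z in 𝓝 (τ₀ : ℂ), deriv P z ≠ 0 := hPA.deriv.continuousAt.eventually_ne hP'0
  -- the sum of the coordinates
  have hqAA : AnalyticAt ℂ (qA q Xt Yt) τ₀ := by
    unfold qA QQ
    have e0 := hXtA
    have e1 := hYtA
    fun_prop
  have hqA0 : qA q Xt Yt τ₀ ≠ 0 := by
    obtain ⟨m, hm, hm'⟩ := h.Ap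
    have h1 := hm' τ₀ hτs
    intro h0
    rw [h0, zero_re] at h1
    linarith
  have hqKA : AnalyticAt ℂ (qK q Xt Yt) τ₀ := by
    unfold qK
    exact hqAA.deriv.neg.div hqAA hqA0
  have eK : ∀ᶠ z in 𝓝 (τ₀ : ℂ), qK q Xt Yt z = K (P z) * deriv P z := by
    refine gg_ident hqKA (hKPA.mul hPA.deriv) ?_
    filter_upwards [hPr', hP'r, hψc.eventually hKr] with t h1 h2 h3
    rw [qK_real h hR, h1, h2, h3]
    push_cast
    ring
  -- regularity
  have hX'r := Pool.Agent.MP_ae5b4e_an_FLEX.RealGood.deriv_real hX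
    (fun t => (γ.hd_x t).differentiableAt) hXr
  have hY'r := Pool.Agent.MP_ae5b4e_an_FLEX.RealGood.deriv_real hY
    (fun t => (γ.hd_y t).differentiableAt) hYr
  have hX''r := Pool.Agent.MP_ae5b4e_an_FLEX.RealGood.deriv_real hX.deriv
    (fun t => (γ.hd_x' t).differentiableAt) hX'r
  have hY''r := Pool.Agent.MP_ae5b4e_an_FLEX.RealGood.deriv_real hY.deriv
    (fun t => (γ.hd_y' t).differentiableAt) hY'r
  have hW : Wr X Y t₀ ≠ 0 := by
    unfold Wr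
    rw [hX'r.self_of_nhds, hY'r.self_of_nhds, hX''r.self_of_nhds, hY''r.self_of_nhds]
    have := (γ.curved t₀).ne'
    exact_mod_cast this
  have hreg : RegG X Y K t₀ := ⟨hX, hY, hK, hW⟩
  -- the family for the given parameter
  set a : ℂ × ℂ := ((s₀ : ℂ), 0) with ha
  have hFA : AnalyticAt ℂ F a :=
    Pool.Agent.SCV.differentiableOn_analyticOnNhd _ (isOpen_Dm _ _ _) F hFd a (hmem0 s₀)
  have hFa : F a = τ₀ := hFs₀
  have hΘA : AnalyticAt ℂ (fun p => P (F p)) a :=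
    AnalyticAt.fun_comp (g := P) (f := F) (by rw [hFa]; exact hPA) hFA
  have hdt : dt F a ≠ 0 := by
    intro h1
    have h2 := hF.dt1 a (hmem0 s₀)
    rw [h1] at h2
    simp at h2
    linarith
  have hΘD : HasDerivAt (fun t => P (F (t, 0))) (deriv P τ₀ * dt F a) s₀ := by
    have h1 : DifferentiableAt ℂ (fun s => F (s, 0)) s₀ := by
      have h2 : DifferentiableAt ℂ F ((s₀ : ℂ), 0) := hFA.differentiableAt
      have h3 : DifferentiableAt ℂ (fun s : ℂ => ((s, 0) : ℂ × ℂ)) s₀ := by fun_prop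
      exact DifferentiableAt.comp (s₀ : ℂ) (g := F) (f := fun s : ℂ => ((s, 0) : ℂ × ℂ)) h2 h3
    have h2 : HasDerivAt (fun s => F (s, 0)) (dt F a) s₀ := h1.hasDerivAt
    have h3 : HasDerivAt P (deriv P τ₀) (F (s₀, 0)) := by
      rw [hFs₀]
      exact hPA.differentiableAt.hasDerivAt
    exact h3.comp (s₀ : ℂ) h2
  have hΘa : P (F ((s₀ : ℂ), 0)) = t₀ := by
    rw [hFs₀, hP0]
  have hFc : Tendsto F (𝓝 a) (𝓝 (τ₀ : ℂ)) := by
    have := hFA.continuousAt.tendsto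
    rwa [hFa] at this
  have hsp : Tendsto (fun p : ℂ × ℂ => (p.1 + p.2, p.2)) (𝓝 a) (𝓝 a) := by
    have h1 : Continuous (fun p : ℂ × ℂ => (p.1 + p.2, p.2)) := by fun_prop
    simpa [ha] using h1.tendsto a
  have hsm : Tendsto (fun p : ℂ × ℂ => (p.1 - p.2, p.2)) (𝓝 a) (𝓝 a) := by
    have h1 : Continuous (fun p : ℂ × ℂ => (p.1 - p.2, p.2)) := by fun_prop
    simpa [ha] using h1.tendsto a
  have eAll : ∀ᶠ z in 𝓝 (τ₀ : ℂ), (Xt z = X (P z) ∧ Yt z = Y (P z)) ∧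
      (deriv Xt z = deriv X (P z) * deriv P z ∧ deriv Yt z = deriv Y (P z) * deriv P z) ∧
      deriv P z ≠ 0 := (eX.and eY).and ((eX'.and eY').and eP)
  have key := goodG_of_family (X := X) (Y := Y) (K := K) (Θ := fun p => P (F p)) (t₀ := (s₀ : ℂ))
    hΘA hΘD (mul_ne_zero hP'0 hdt) (by rw [hΘa]; exact hreg) ?_
  · rw [hΘa] at key
    exact key
  · filter_upwards [(isOpen_Dm {-1, 0, 1} c r).mem_nhds (hmem3 s₀), hFc.eventually eAll,
      (hFc.comp hsp).eventually eAll, (hFc.comp hsm).eventually eAll, hFc.eventually eK]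
      with p hp1 hp2 hp3 hp4 hp5 hp6 _ _
    simp only [Function.comp_apply] at hp3 hp4
    have e1 := hel p hp1 hp6
    rw [hp5, gg_sg hp2.1.1 hp2.1.2 hp4.1.1 hp4.1.2 hp2.2.1.1 hp2.2.1.2 hp4.2.1.1 hp4.2.1.2 hp4.2.2,
      gg_sg hp2.1.1 hp2.1.2 hp3.1.1 hp3.1.2 hp2.2.1.1 hp2.2.1.2 hp3.2.1.1 hp3.2.1.2 hp3.2.2] at e1
    refine mul_left_cancel₀ hp2.2.2 ?_
    linear_combination e1

end GM

end Pool.Agent.MP_ae5b4e_an_SMG
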