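import Mathlib
import Pool.Agent.Lib.MP_ae5b4e_an_SMG.Defs
import Pool.Agent.Lib.MP_ae5b4e_an_SM.OpsA
import Pool.Agent.Lib.MP_ae5b4e_an_SM.LagF
import Pool.Agent.Lib.MP_ae5b4e_an_SM.LagCA

/-!
# MP_ae5b4e_an, project SMOOTH-G, module GI: the identity is almost a solution
-/

noncomputable section

namespace Pool.Agent.MP_ae5b4e_an_SMG

open Complex Set Filter Topology
open Pool.Agent.MP_ae5b4e_an_SM
open Pool.Agent.MP_ae5b4e_an_FLEX (brN brD Wr IsKick RegG GoodG)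
open Pool.Agent.MP_ae5b4e_an_hopf (ConvexCurve)

/-- the identity is almost a solution -/
theorem lag_id {L : ℂ × ℂ × ℂ → ℂ} {k1 : ℂ} {b M : ℝ} (hL : Lag L k1 b M) {g : ℂ → ℂ}
    (hz : ∀ t D : ℂ, |t.im| < b → ‖D - 1‖ < b → L (t, D, 0) = g D) :
    ∃ b' C : ℝ, 0 < b' ∧ b' ≤ b ∧
      ∀ p ∈ Dm {-1, 0, 1} b' b', ‖EL L (fun q => q.1) p‖ ≤ C * ‖p.2‖ := by
  have hb₁ : 0 < b := hL.b0
  set c₁ : ℝ := b / 16 with hc₁
  have hc₁0 : 0 < c₁ := by positivity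
  have hdt : ∀ p : ℂ × ℂ, dt (fun q : ℂ × ℂ => q.1) p = 1 := fun p => deriv_id p.1
  have hGF : GF c₁ c₁ 0 (fun q : ℂ × ℂ => q.1) := by
    have e0 : (fun p : ℂ × ℂ => p.1 - p.1) = fun _ => 0 := by
      funext p
      exact sub_self _
    refine ⟨?_, ?_⟩
    · rw [e0]
      exact ⟨⟨⟨differentiableOn_const _, fun _ _ => rfl⟩, fun _ _ _ _ => by simp⟩,
        fun _ _ => by simp⟩
    · intro p _
      rw [hdt p]
      simp
  have hE := EL_RP hL hGF le_rfl le_rfl (by positivity : (0 : ℝ) ≤ b / 16)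
  set E : ℂ × ℂ → ℂ := EL L (fun q => q.1) with hEdef
  have hbr : ∀ t : ℂ, br (fun q : ℂ × ℂ => q.1) (t, 0) = (t, 1, 0) := by
    intro t
    unfold br
    rw [nab_zero, hdt]
  have hdiff : ∀ t : ℂ, |t.im| < b → DifferentiableAt ℂ L (t, 1, 0) := by
    intro t ht
    have hmem : ((t, 1, 0) : ℂ × ℂ × ℂ) ∈ DL b :=
      ⟨ht, by simpa using hb₁, by simpa using hb₁⟩
    exact hL.diff.differentiableAt ((isOpen_DL b).mem_nhds hmem)
  have hLD : ∀ t : ℂ, |t.im| < b → LD L (t, 1, 0) = deriv g 1 := by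
    intro t ht
    rw [LagCA.LD_eq_deriv (hdiff t ht)]
    have h2 : (fun D => L (t, D, 0)) =ᶠ[𝓝 1] g := by
      filter_upwards [Metric.ball_mem_nhds (1 : ℂ) hb₁] with D' hD'
      rw [Metric.mem_ball, dist_eq_norm] at hD'
      exact hz t D' ht hD'
    rw [h2.deriv_eq]
  have hLt : ∀ t : ℂ, |t.im| < b → Lt L (t, 1, 0) = 0 := by
    intro t ht
    rw [LagCA.Lt_eq_deriv (hdiff t ht)]
    have h2 : (fun s => L (s, 1, 0)) =ᶠ[𝓝 t] fun _ => g 1 := by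
      filter_upwards [(LagCA.isOpen_strip b).mem_nhds ht] with s hs
      exact hz s 1 hs (by simpa using hb₁)
    rw [h2.deriv_eq, deriv_const]
  have h0 : ∀ t : ℂ, |t.im| < b → E (t, 0) = 0 := by
    intro t ht
    show Lt L (br (fun q : ℂ × ℂ => q.1) (t, 0)) -
      nabm (fun q => LD L (br (fun q : ℂ × ℂ => q.1) q)) (t, 0) = 0
    rw [hbr, hLt t ht, nabm_zero]
    have h2 : (fun s => LD L (br (fun q : ℂ × ℂ => q.1) (s, 0))) =ᶠ[𝓝 t]
        fun _ => deriv g 1 := by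
      filter_upwards [(LagCA.isOpen_strip b).mem_nhds ht] with s hs
      rw [hbr, hLD s hs]
    have h3 : dt (fun q => LD L (br (fun q : ℂ × ℂ => q.1) q)) (t, 0) = 0 := by
      show deriv (fun s => LD L (br (fun q : ℂ × ℂ => q.1) (s, 0))) t = 0
      rw [h2.deriv_eq, deriv_const]
    rw [h3, sub_zero]
  -- points of the domain
  have hdom : ∀ p : ℂ × ℂ, |p.1.im| ≤ c₁ / 4 → ‖p.2‖ ≤ c₁ / 2 →
      p ∈ Dm {-1, 0, 1} c₁ c₁ := by
    intro p h1 h2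
    have h3 := (abs_re_le_norm p.2).trans h2
    have h4 := (abs_im_le_norm p.2).trans h2
    refine ⟨?_, by linarith, by linarith⟩
    intro s hs
    have e : (p.1 + s * p.2).im = p.1.im + s * p.2.im := by simp
    rw [e]
    rw [abs_le] at h1 h4
    rw [abs_lt]
    rw [Finset.mem_insert, Finset.mem_insert, Finset.mem_singleton] at hs
    rcases hs with rfl | rfl | rfl <;> push_cast <;> constructor <;>
      linarith [h1.1, h1.2, h4.1, h4.2]
  -- the bound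
  obtain ⟨M₁, hM₁⟩ : ∃ M₁ : ℝ, ∀ p : ℂ × ℂ, |p.1.im| ≤ c₁ / 4 → ‖p.2‖ ≤ c₁ / 2 →
      ‖E p‖ ≤ M₁ := by
    have hK : IsCompact ((Icc (0 : ℝ) 1 ×ℂ Icc (-(c₁ / 4)) (c₁ / 4)) ×ˢ
        Metric.closedBall (0 : ℂ) (c₁ / 2)) :=
      (isCompact_Icc.reProdIm isCompact_Icc).prod (isCompact_closedBall 0 (c₁ / 2))
    have hcont : ContinuousOn E ((Icc (0 : ℝ) 1 ×ℂ Icc (-(c₁ / 4)) (c₁ / 4)) ×ˢ
        Metric.closedBall (0 : ℂ) (c₁ / 2)) := by
      refine hE.diff.continuousOn.mono ?_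
      rintro p ⟨hp1, hp2⟩
      refine hdom p (abs_le.2 hp1.2) ?_
      simpa using hp2
    obtain ⟨M₁, hM₁⟩ := hK.exists_bound_of_continuousOn hcont
    refine ⟨M₁, fun p h1 h2 => ?_⟩
    have h3 := LagCA.per_int hE.toPH (hdom p h1 h2) (-⌊p.1.re⌋)
    rw [← h3]
    refine hM₁ _ ⟨?_, by simpa using h2⟩
    have e1 : (p.1 + ((-⌊p.1.re⌋ : ℤ) : ℂ)).re = p.1.re - ⌊p.1.re⌋ := by
      simp [sub_eq_add_neg]
    have e2 : (p.1 + ((-⌊p.1.re⌋ : ℤ) : ℂ)).im = p.1.im := by simp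
    refine ⟨?_, ?_⟩
    · show (p.1 + ((-⌊p.1.re⌋ : ℤ) : ℂ)).re ∈ Icc (0 : ℝ) 1
      rw [e1]
      exact ⟨by linarith [Int.floor_le p.1.re], by linarith [Int.lt_floor_add_one p.1.re]⟩
    · show (p.1 + ((-⌊p.1.re⌋ : ℤ) : ℂ)).im ∈ Icc (-(c₁ / 4)) (c₁ / 4)
      rw [e2]
      exact abs_le.1 h1
  refine ⟨c₁ / 4, M₁ / (c₁ / 2), by positivity, by linarith, ?_⟩
  intro p hp
  have hp1 : |p.1.im| < c₁ / 4 := by
    have := hp.1 0 (by simp)
    simpa using this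
  have hp2 : ‖p.2‖ < c₁ / 2 := by
    refine lt_of_le_of_lt (norm_le_abs_re_add_abs_im _) ?_
    linarith [hp.2.1, hp.2.2]
  have hd : DifferentiableOn ℂ (fun z => E (p.1, z)) (Metric.ball 0 (c₁ / 2)) := by
    have h1 : DifferentiableOn ℂ (fun z : ℂ => ((p.1, z) : ℂ × ℂ)) (Metric.ball 0 (c₁ / 2)) :=
      ((differentiable_const p.1).prodMk differentiable_id).differentiableOn
    refine hE.diff.comp h1 ?_
    intro z hz'
    exact hdom (p.1, z) hp1.le (by simpa using (Metric.mem_ball.1 hz').le)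
  have e0 : E (p.1, 0) = 0 := h0 p.1 (by linarith)
  have hmaps : MapsTo (fun z => E (p.1, z)) (Metric.ball 0 (c₁ / 2))
      (Metric.closedBall (E (p.1, 0)) M₁) := by
    intro z hz'
    rw [e0, Metric.mem_closedBall, dist_zero_right]
    exact hM₁ (p.1, z) hp1.le (by simpa using (Metric.mem_ball.1 hz').le)
  have h5 := Complex.dist_le_div_mul_dist_of_mapsTo_ball hd hmaps
    (by simpa using hp2 : p.2 ∈ Metric.ball (0 : ℂ) (c₁ / 2))
  simp only [e0, dist_zero_right] at h5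
  exact h5

end Pool.Agent.MP_ae5b4e_an_SMG
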