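import Mathlib
import Pool.Agent.Lib.MP_ae5b4e_an_SM.Iter
import Pool.Agent.Lib.MP_ae5b4e_an_SMG.ElG
import Pool.Agent.Lib.MP_ae5b4e_an_SMG.IdG
import Pool.Agent.Lib.MP_ae5b4e_an_SMG.CloseG
import Pool.Agent.Lib.MP_ae5b4e_an_SMG.ParG
import Pool.Agent.Lib.MP_ae5b4e_an_SMG.GoodGG

/-!
# MP_ae5b4e_an, project SMOOTH-G: foliations near a curve with the involutions of a quadratic form

Let `γ` be a closed real-analytic convex curve with positive curvature, and let a foliation near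
`γ` (without any regularity) induce on the tangent lines of `γ` the involutions given by a
quadratic form.  Then the kick of the complexified curve has an analytic first integral near every
real point.
-/

noncomputable section

namespace Pool.Agent.MP_ae5b4e_an_SMG

open Complex Set Filter Topology
open Pool.Agent.MP_ae5b4e_an_SM
open Pool.Agent.MP_ae5b4e_an_FLEX (brN brD Wr IsKick RegG GoodG)
open Pool.Agent.MP_ae5b4e_an_hopf (ConvexCurve)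

variable {q : Fin 6 → ℝ} {γ : ConvexCurve} {U : ℝ → ℝ → ℝ}

theorem smooth_family (hx : ∀ t, AnalyticAt ℝ γ.x t) (hy : ∀ t, AnalyticAt ℝ γ.y t)
    (hq : ∀ t, 0 < QR q (γ.x t) (γ.y t)) (hU : Fol γ U (kR q γ)) :
    ∃ (X Y : ℂ → ℂ) (C0 b : ℝ) (ψ ψ' : ℝ → ℝ) (c r κ' : ℝ) (F : ℂ × ℂ → ℂ),
      Cv q X Y C0 b ∧ Rel γ X Y ψ ψ' ∧ 0 < c ∧ 0 < r ∧ r ≤ c ∧ κ' ≤ 1 / 16 ∧ c + κ' < b ∧
      GF c r κ' F ∧ ∀ p ∈ Dm {-1, 0, 1} c r, p.2 ≠ 0 →
        (sg X Y (F p) (F (p.1 - p.2, p.2)))⁻¹ + (sg X Y (F p) (F (p.1 + p.2, p.2)))⁻¹ =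
          qK q X Y (F p) := by
  obtain ⟨X, Y, C0, b, ψ, ψ', hC, hR⟩ := exists_cv γ hx hy hq
  obtain ⟨b1, M, hb10, hb1b, hLag, hz⟩ := lagg_lag hC
  obtain ⟨b2, C, hb20, hb2b, hid⟩ := lag_id hLag hz
  obtain ⟨b3, hb30, hb3b, hel⟩ := lagg_el hC
  obtain ⟨b4, hb40, hcl⟩ := closing_g hU hC hR (qK_real hC hR) hb30 hel
  set b5 := min (min b1 b2) (min b3 b4) with hb5
  have hb50 : 0 < b5 := lt_min (lt_min hb10 hb20) (lt_min hb30 hb40)
  have h51 : b5 ≤ b1 := (min_le_left _ _).trans (min_le_left _ _)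
  have h52 : b5 ≤ b2 := (min_le_left _ _).trans (min_le_right _ _)
  have h53 : b5 ≤ b3 := (min_le_right _ _).trans (min_le_left _ _)
  have h54 : b5 ≤ b4 := (min_le_right _ _).trans (min_le_right _ _)
  have hL := hLag.mono hb50 h51
  obtain ⟨c, r, F, hc, hcb, hr, hrc, hF, hE⟩ := smooth_main hL (hcl b5 h54)
    ⟨C, fun p hp => hid p (Dm_mono (Finset.Subset.refl _) (by linarith) (by linarith) hp)⟩
  have hb1 := hC.b1
  refine ⟨X, Y, C0, b, ψ, ψ', c, r, b5 / 16, F, hC, hR, hc, hr, hrc, by linarith, by linarith,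
    hF, ?_⟩
  intro p hp hp0
  have hpW : p ∈ Dm {0, 1} c r := Dm_mono (by decide) le_rfl le_rfl hp
  have hmW : ((p.1 - p.2, p.2) : ℂ × ℂ) ∈ Dm {0, 1} c r := by
    have := mem_sh (S := {0, 1}) (S' := {-1, 0, 1}) (k := -1) (by decide) hp
    simpa [sub_eq_add_neg] using this
  have hbr := br_mem hF hb50 hcb (hrc.trans hcb) le_rfl
  have h1 := hbr p hpW
  have h2 := hbr _ hmW
  unfold br at h1 h2
  rw [nab_of_ne hp0] at h1
  rw [nab_of_ne (p := (p.1 - p.2, p.2)) hp0] at h2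
  simp only [sub_add_cancel] at h2
  rw [← hel p.2 _ _ _ hp0 (h1.2.2.trans (by linarith)) (h2.1.trans (by linarith))
    (h1.1.trans (by linarith)) (h1.2.1.trans (by linarith)) (h2.2.1.trans (by linarith)),
    ← EL_of_ne hp0]
  exact hE p hp hp0

/-- the first integral near every real point -/
theorem good_of_absolute (hx : ∀ t, AnalyticAt ℝ γ.x t) (hy : ∀ t, AnalyticAt ℝ γ.y t)
    (hq : ∀ t, 0 < QR q (γ.x t) (γ.y t)) (hU : Fol γ U (kR q γ)) {t₀ : ℝ} {X Y K : ℂ → ℂ}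
    (hX : AnalyticAt ℂ X t₀) (hY : AnalyticAt ℂ Y t₀) (hK : AnalyticAt ℂ K t₀)
    (hXr : ∀ᶠ t : ℝ in 𝓝 t₀, X t = γ.x t) (hYr : ∀ᶠ t : ℝ in 𝓝 t₀, Y t = γ.y t)
    (hKr : ∀ᶠ t : ℝ in 𝓝 t₀, K t = ((kR q γ t : ℝ) : ℂ)) : GoodG X Y K t₀ := by
  obtain ⟨Xt, Yt, C0, b, ψ, ψ', c, r, κ', F, hC, hR, hc, hr, -, hκ1, hcb, hF, hE⟩ :=
    smooth_family hx hy hq hU
  exact good_g hC hR hF hc hr hκ1 hcb hE hX hY hK hXr hYr hKr

end Pool.Agent.MP_ae5b4e_an_SMG
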