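import Mathlib
import Pool.Agent.Lib.MP_ae5b4e_an_SMG.Export

/-!
# MP_ae5b4e_an, project SMOOTH-G: outer billiards

The first integral near every real point for an analytic table whose outer billiard has a `C¹`
foliation by invariant curves near the table; the same for the involutions of a quadratic form.
-/

noncomputable section

namespace Pool.Agent.MP_ae5b4e_an_SMG

open Complex Set Filter Topology
open Pool.Agent.MP_ae5b4e_an_FLEX (brN brD Wr IsKick RegG GoodG)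
open Pool.Agent.MP_ae5b4e_an_hopf (ConvexCurve)

variable {γ : ConvexCurve} {U : ℝ → ℝ → ℝ} {κ : ℝ → ℝ}

/-- leaves which depend in a `C¹` way on the parameters -/
theorem fol_of_smooth
    (hsmooth : ContDiffOn ℝ 1 (fun q : ℝ × ℝ => U q.1 q.2) (Ioo 0 1 ×ˢ univ))
    (hper : ∀ c ∈ Ioo (0:ℝ) 1, ∀ t, U c (t + γ.T) = U c t)
    (hsimple : ∀ c ∈ Ioo (0:ℝ) 1, ∀ t t', γ.pt t (U c t) = γ.pt t' (U c t') →
      ∃ n : ℤ, t' = t + n * γ.T)
    (hmono : ∀ c ∈ Ioo (0:ℝ) 1, ∀ t, deriv (fun r => U r t) c < 0)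
    (hlim : ∀ t, Tendsto (fun c => U c t) (𝓝[>] 0) atTop)
    (hproj : ∀ c ∈ Ioo (0:ℝ) 1, ∀ t u v, u ≠ v → γ.pt t u ∈ γ.leaf U c →
      γ.pt t v ∈ γ.leaf U c → u + v = κ t) : Fol γ U κ where
  cont := hsmooth.continuousOn
  per := hper
  simple := hsimple
  mono := by
    intro c hc c' hc' hcc t
    have hcont : ContinuousOn (fun r => U r t) (Ioo 0 1) :=
      hsmooth.continuousOn.comp (f := fun r : ℝ => (r, t)) (by fun_prop)
        (fun r hr => ⟨hr, mem_univ t⟩)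
    have h1 : StrictAntiOn (fun r => U r t) (Ioo 0 1) := by
      refine strictAntiOn_of_deriv_neg (convex_Ioo 0 1) hcont fun r hr => ?_
      rw [interior_Ioo] at hr
      exact hmono r hr t
    exact h1 hc hc' hcc
  lim := hlim
  proj := hproj

/-- the form which is `1` in the affine chart: outer billiards -/
def qOut : Fin 6 → ℝ := ![0, 0, 0, 0, 0, 1]

lemma QR_qOut (x y : ℝ) : QR qOut x y = 1 := by
  simp [QR, qOut]

lemma kR_qOut (γ : ConvexCurve) (t : ℝ) : kR qOut γ t = 0 := by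
  simp [kR, QR_qOut]

/-- outer billiards: the first integral near every real point -/
theorem good_outer (hx : ∀ t, AnalyticAt ℝ γ.x t) (hy : ∀ t, AnalyticAt ℝ γ.y t)
    (hsmooth : ContDiffOn ℝ 1 (fun q : ℝ × ℝ => U q.1 q.2) (Ioo 0 1 ×ˢ univ))
    (hper : ∀ c ∈ Ioo (0:ℝ) 1, ∀ t, U c (t + γ.T) = U c t)
    (hsimple : ∀ c ∈ Ioo (0:ℝ) 1, ∀ t t', γ.pt t (U c t) = γ.pt t' (U c t') →
      ∃ n : ℤ, t' = t + n * γ.T)
    (hmono : ∀ c ∈ Ioo (0:ℝ) 1, ∀ t, deriv (fun r => U r t) c < 0)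
    (hlim : ∀ t, Tendsto (fun c => U c t) (𝓝[>] 0) atTop)
    (hproj : ∀ c ∈ Ioo (0:ℝ) 1, ∀ t u v, u ≠ v → γ.pt t u ∈ γ.leaf U c →
      γ.pt t v ∈ γ.leaf U c → u + v = 0)
    {t₀ : ℝ} {X Y : ℂ → ℂ} (hX : AnalyticAt ℂ X t₀) (hY : AnalyticAt ℂ Y t₀)
    (hXr : ∀ᶠ t : ℝ in 𝓝 t₀, X t = γ.x t) (hYr : ∀ᶠ t : ℝ in 𝓝 t₀, Y t = γ.y t) :
    GoodG X Y (fun _ => 0) t₀ := by
  refine good_of_absolute (q := qOut) (U := U) hx hy (fun t => by rw [QR_qOut]; exact one_pos)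
    (fol_of_smooth hsmooth hper hsimple hmono hlim fun c hc t u v huv h1 h2 => ?_) hX hY
    analyticAt_const hXr hYr (Eventually.of_forall fun t => ?_)
  · rw [kR_qOut]
    exact hproj c hc t u v huv h1 h2
  · rw [kR_qOut]
    simp

end Pool.Agent.MP_ae5b4e_an_SMG
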